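import Mathlib

/-!
Kernels of `L¹` type: the cone of kernels which satisfy all linear inequalities valid for cut metrics.
-/

set_option autoImplicit false

namespace Pool.Agent.Lib.MP_c058bc_gt

open MeasureTheory Filter

/-- finite linear forms on kernels -/
inductive FF {Y : Type} : ((Y → Y → ℝ) → ℝ) → Prop
  | ev (c : ℝ) (p q : Y) : FF (fun ρ => c * ρ p q)
  | add (S T : (Y → Y → ℝ) → ℝ) : FF S → FF T → FF (fun ρ => S ρ + T ρ)

/-- the cut kernel of a two-valued function -/
noncomputable def cutK {Y : Type} (e : Y → Bool) : Y → Y → ℝ := fun p q => if e p = e q then 0 else 1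

/-- kernels satisfying all linear inequalities valid for cut kernels -/
def Cone {Y : Type} (ρ : Y → Y → ℝ) : Prop :=
  ∀ T : (Y → Y → ℝ) → ℝ, FF T → (∀ e : Y → Bool, 0 ≤ T (cutK e)) → 0 ≤ T ρ

lemma FF.map_add {Y : Type} {T : (Y → Y → ℝ) → ℝ} (hT : FF T) (ρ ρ' : Y → Y → ℝ) :
    T (fun p q => ρ p q + ρ' p q) = T ρ + T ρ' := by
  induction hT with
  | ev c p q => ring
  | add S T _ _ hS hT => simp only [hS, hT]; ring

lemma FF.map_smul {Y : Type} {T : (Y → Y → ℝ) → ℝ} (hT : FF T) (c : ℝ) (ρ : Y → Y → ℝ) :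
    T (fun p q => c * ρ p q) = c * T ρ := by
  induction hT with
  | ev c p q => ring
  | add S T _ _ hS hT => simp only [hS, hT]; ring

lemma FF.comp {Y Z : Type} {T : (Y → Y → ℝ) → ℝ} (hT : FF T) (h : Y → Z) :
    FF (fun ρ : Z → Z → ℝ => T (fun a b => ρ (h a) (h b))) := by
  induction hT with
  | ev c p q => exact FF.ev c (h p) (h q)
  | add S T _ _ hS hT => exact FF.add _ _ hS hT

lemma FF.tendsto {Y ι : Type} {T : (Y → Y → ℝ) → ℝ} (hT : FF T) (l : Filter ι)
    (ρ : ι → Y → Y → ℝ) (ρ' : Y → Y → ℝ) (h : ∀ p q, Tendsto (fun i => ρ i p q) l (nhds (ρ' p q))) :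
    Tendsto (fun i => T (ρ i)) l (nhds (T ρ')) := by
  induction hT with
  | ev c p q => exact (h p q).const_mul c
  | add S T _ _ hS hT => exact hS.add hT

lemma FF.integral {Y Ω : Type} [MeasurableSpace Ω] {μ : Measure Ω} {T : (Y → Y → ℝ) → ℝ} (hT : FF T)
    (ρ : Ω → Y → Y → ℝ) (h : ∀ p q, Integrable (fun ω => ρ ω p q) μ) :
    Integrable (fun ω => T (ρ ω)) μ ∧ ∫ ω, T (ρ ω) ∂μ = T (fun p q => ∫ ω, ρ ω p q ∂μ) := by
  induction hT with
  | ev c p q => exact ⟨(h p q).const_mul c, integral_const_mul _ _⟩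
  | add S T _ _ hS hT =>
    refine ⟨hS.1.add hT.1, ?_⟩
    rw [integral_add hS.1 hT.1, hS.2, hT.2]

lemma FF.sum {Y ι : Type} (s : Finset ι) (hs : s.Nonempty) (T : ι → (Y → Y → ℝ) → ℝ) (h : ∀ i ∈ s, FF (T i)) :
    FF (fun ρ => ∑ i ∈ s, T i ρ) := by
  classical
  induction hs using Finset.Nonempty.cons_induction with
  | singleton a => simpa using h a (by simp)
  | cons a s ha hs ih =>
    have e : (fun ρ : Y → Y → ℝ => ∑ i ∈ Finset.cons a s ha, T i ρ) =
        fun ρ => T a ρ + ∑ i ∈ s, T i ρ := by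
      funext ρ
      rw [Finset.sum_cons]
    rw [e]
    exact FF.add _ _ (h a (by simp)) (ih fun i hi => h i (by simp [hi]))

lemma Cone.comp {Y Z : Type} {ρ : Z → Z → ℝ} (hρ : Cone ρ) (h : Y → Z) :
    Cone (fun a b => ρ (h a) (h b)) := by
  intro T hT hcut
  refine hρ _ (hT.comp h) fun e => ?_
  exact hcut (fun y => e (h y))

lemma Cone.add {Y : Type} {ρ ρ' : Y → Y → ℝ} (hρ : Cone ρ) (hρ' : Cone ρ') :
    Cone (fun a b => ρ a b + ρ' a b) := by
  intro T hT hcut
  rw [hT.map_add]
  exact add_nonneg (hρ T hT hcut) (hρ' T hT hcut)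

lemma Cone.smul {Y : Type} {ρ : Y → Y → ℝ} (hρ : Cone ρ) {c : ℝ} (hc : 0 ≤ c) :
    Cone (fun a b => c * ρ a b) := by
  intro T hT hcut
  rw [hT.map_smul]
  exact mul_nonneg hc (hρ T hT hcut)

lemma Cone.zero {Y : Type} : Cone (fun _ _ : Y => (0 : ℝ)) := by
  intro T hT hcut
  have h := hT.map_smul 0 (fun _ _ => 0)
  simp only [zero_mul] at h
  rw [h]

lemma Cone.sum {Y ι : Type} (s : Finset ι) (ρ : ι → Y → Y → ℝ) (h : ∀ i ∈ s, Cone (ρ i)) :
    Cone (fun a b => ∑ i ∈ s, ρ i a b) := by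
  classical
  induction s using Finset.cons_induction with
  | empty => simpa using (Cone.zero (Y := Y))
  | cons a s ha ih =>
    have e : (fun p q : Y => ∑ i ∈ Finset.cons a s ha, ρ i p q) =
        fun p q => ρ a p q + ∑ i ∈ s, ρ i p q := by
      funext p q
      rw [Finset.sum_cons]
    rw [e]
    exact (h a (by simp)).add (ih fun i hi => h i (by simp [hi]))

lemma Cone.of_tendsto {Y ι : Type} {l : Filter ι} [l.NeBot] {ρ : ι → Y → Y → ℝ} {ρ' : Y → Y → ℝ}
    (h : ∀ᶠ i in l, Cone (ρ i)) (ht : ∀ p q, Tendsto (fun i => ρ i p q) l (nhds (ρ' p q))) : Cone ρ' := by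
  intro T hT hcut
  refine ge_of_tendsto (hT.tendsto l ρ ρ' ht) ?_
  filter_upwards [h] with i hi
  exact hi T hT hcut

lemma cut_threshold (a b : ℝ) :
    (fun c : ℝ => cutK (fun x : ℝ => decide (c < x)) a b) =
      Set.indicator (Set.Ico (min a b) (max a b)) (fun _ => (1 : ℝ)) := by
  funext c
  unfold cutK
  by_cases h : c ∈ Set.Ico (min a b) (max a b)
  · rw [Set.indicator_of_mem h]
    obtain ⟨h1, h2⟩ := h
    rcases le_total a b with hab | hab
    · rw [min_eq_left hab] at h1
      rw [max_eq_right hab] at h2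
      have e1 : ¬ c < a := not_lt.mpr h1
      simp [e1, h2]
    · rw [min_eq_right hab] at h1
      rw [max_eq_left hab] at h2
      have e1 : ¬ c < b := not_lt.mpr h1
      simp [e1, h2]
  · rw [Set.indicator_of_notMem h]
    rw [Set.mem_Ico, not_and_or, not_le, not_lt] at h
    rcases h with h | h
    · have h1 := lt_of_lt_of_le h (min_le_left a b)
      have h2 := lt_of_lt_of_le h (min_le_right a b)
      simp [h1, h2]
    · have h1 : ¬ c < a := not_lt.mpr ((le_max_left a b).trans h)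
      have h2 : ¬ c < b := not_lt.mpr ((le_max_right a b).trans h)
      simp [h1, h2]

lemma Cone.real {Y : Type} (φ : Y → ℝ) : Cone (fun a b => |φ a - φ b|) := by
  intro T hT hcut
  have hint : ∀ p q : Y, Integrable (fun c : ℝ => cutK (fun y : Y => decide (c < φ y)) p q) volume ∧
      ∫ c : ℝ, cutK (fun y : Y => decide (c < φ y)) p q = |φ p - φ q| := by
    intro p q
    have e : (fun c : ℝ => cutK (fun y : Y => decide (c < φ y)) p q) =
      Set.indicator (Set.Ico (min (φ p) (φ q)) (max (φ p) (φ q))) (fun _ => (1 : ℝ)) :=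
      cut_threshold (φ p) (φ q)
    rw [e]
    constructor
    · rw [integrable_indicator_iff measurableSet_Ico]
      exact integrableOn_const (by simp)
    · rw [integral_indicator measurableSet_Ico]
      simp only [integral_const, MeasurableSet.univ, measureReal_restrict_apply, Set.univ_inter,
        smul_eq_mul, mul_one]
      rw [Real.volume_real_Ico_of_le min_le_max, max_sub_min_eq_abs]
      exact abs_sub_comm _ _
  have h := hT.integral (fun c : ℝ => cutK (fun y : Y => decide (c < φ y))) (fun p q => (hint p q).1)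
  have e : (fun p q : Y => ∫ c : ℝ, cutK (fun y : Y => decide (c < φ y)) p q) =
      fun p q => |φ p - φ q| := by
    funext p q
    exact (hint p q).2
  rw [e] at h
  rw [← h.2]
  exact integral_nonneg fun c => hcut _

/-- distances in `L¹` spaces are of `L¹` type -/
lemma Cone.lp {Y Ω : Type} [MeasurableSpace Ω] {μ : Measure Ω} (F : Y → Lp ℝ 1 μ) :
    Cone (fun a b => ‖F a - F b‖) := by
  intro T hT hcut
  have hnorm : ∀ p q : Y, Integrable (fun ω => |F p ω - F q ω|) μ ∧
      ∫ ω, |F p ω - F q ω| ∂μ = ‖F p - F q‖ := by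
    intro p q
    constructor
    · exact ((L1.integrable_coeFn (F p)).sub (L1.integrable_coeFn (F q))).abs
    · rw [L1.norm_eq_integral_norm]
      apply integral_congr_ae
      filter_upwards [Lp.coeFn_sub (F p) (F q)] with ω hω
      rw [hω, Real.norm_eq_abs]
      rfl
  have h := hT.integral (fun ω => fun p q => |F p ω - F q ω|) (fun p q => (hnorm p q).1)
  have e : (fun p q : Y => ∫ ω, |F p ω - F q ω| ∂μ) = fun p q => ‖F p - F q‖ := by
    funext p q
    exact (hnorm p q).2
  rw [e] at h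
  rw [← h.2]
  exact integral_nonneg fun ω => Cone.real (fun y => F y ω) T hT hcut

end Pool.Agent.Lib.MP_c058bc_gt
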