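import Pool.Agent.Lib.MP_c058bc_gt.Expect
import Pool.Agent.Lib.MP_c058bc_gt.Cone

/-!
Averages of kernels over random lattices.
-/

set_option autoImplicit false

namespace Pool.Agent.Lib.MP_c058bc_gt

open Matrix Filter

/-- inner average over the unipotent grid of mesh `2^{-20 B}` -/
noncomputable def inn (B : ℕ) (a b : ℤ) (φ : G3 → ℝ) : ℝ :=
  (1 / (((2 ^ (20 * B) : ℕ) : ℝ) * (((2 ^ (20 * B) : ℕ) : ℝ) * ((2 ^ (2 * (20 * B)) : ℕ) : ℝ)))) *
  ∑ i ∈ Finset.range (2 ^ (20 * B)), ∑ k ∈ Finset.range (2 ^ (20 * B)),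
    ∑ l ∈ Finset.range (2 ^ (2 * (20 * B))),
      φ (UU ((i : ℝ) / (2 ^ (20 * B) : ℕ)) ((k : ℝ) / (2 ^ (20 * B) : ℕ))
        ((l : ℝ) / (2 ^ (2 * (20 * B)) : ℕ)) * AA a b)

/-- full average -/
noncomputable def avg (B : ℕ) (φ : G3 → ℝ) : ℝ :=
  (1 / ((B : ℝ) * B)) * ∑ i ∈ Finset.range B, ∑ j ∈ Finset.range B,
    inn B (-4 * B + i) (-2 * B + j) φ

lemma inn_mono (B : ℕ) (a b : ℤ) {φ ψ : G3 → ℝ}
    (h : ∀ x y z : ℝ, φ (UU x y z * AA a b) ≤ ψ (UU x y z * AA a b)) : inn B a b φ ≤ inn B a b ψ := by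
  unfold inn
  refine mul_le_mul_of_nonneg_left ?_ (by positivity)
  exact Finset.sum_le_sum fun i _ => Finset.sum_le_sum fun k _ => Finset.sum_le_sum fun l _ => h _ _ _

lemma inn_add (B : ℕ) (a b : ℤ) (φ ψ : G3 → ℝ) :
    inn B a b (fun g => φ g + ψ g) = inn B a b φ + inn B a b ψ := by
  unfold inn
  simp only [Finset.sum_add_distrib]
  ring

lemma inn_smul (B : ℕ) (a b : ℤ) (c : ℝ) (φ : G3 → ℝ) :
    inn B a b (fun g => c * φ g) = c * inn B a b φ := by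
  unfold inn
  simp only [← Finset.mul_sum]
  ring

lemma inn_const (B : ℕ) (a b : ℤ) (c : ℝ) : inn B a b (fun _ => c) = c := by
  unfold inn
  simp only [Finset.sum_const, Finset.card_range, nsmul_eq_mul]
  have h1 : (((2 ^ (20 * B) : ℕ) : ℝ)) ≠ 0 := by positivity
  field_simp

lemma inn_tau (B : ℕ) (a b : ℤ) (x y z : ℝ) (s t : ℤ) (ha : a + s ≤ -1) (hb : b + t ≤ -1)
    (h1 : -(a + s) - 2 * (b + t) ≤ 20 * B) (h2 : -2 * (a + s) - (b + t) ≤ 2 * (20 * B)) :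
    inn B a b (fun g => (tau (g * (UU x y z * AA s t)) : ℝ)) ≤ 186 := by
  unfold inn
  have key : ∑ i ∈ Finset.range (2 ^ (20 * B)), ∑ k ∈ Finset.range (2 ^ (20 * B)),
    ∑ l ∈ Finset.range (2 ^ (2 * (20 * B))),
      (tau (UU ((i : ℝ) / (2 ^ (20 * B) : ℕ)) ((k : ℝ) / (2 ^ (20 * B) : ℕ))
        ((l : ℝ) / (2 ^ (2 * (20 * B)) : ℕ)) * AA a b * (UU x y z * AA s t)) : ℝ) ≤
      ∑ i ∈ Finset.range (2 ^ (20 * B)), (186 : ℝ) * ((2 ^ (20 * B) : ℕ) * (2 ^ (2 * (20 * B)) : ℕ)) := by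
    refine Finset.sum_le_sum fun i _ => ?_
    have hts := tau_sum (a + s) (b + t) ha hb (20 * B) (by push_cast; linarith) (by push_cast; linarith)
      ((i : ℝ) / (2 ^ (20 * B) : ℕ) + 2 ^ (a - b) * x) (2 ^ (a + 2 * b) * y)
      (fun _ => 2 ^ (2 * a + b) * z + (i : ℝ) / (2 ^ (20 * B) : ℕ) * (2 ^ (a + 2 * b) * y))
    refine le_trans (le_of_eq ?_) hts
    refine Finset.sum_congr rfl fun k _ => Finset.sum_congr rfl fun l _ => ?_
    congr 2
    rw [mul_assoc, ← mul_assoc (AA a b), AA_UU, mul_assoc, AA_mul, ← mul_assoc, UU_mul]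
    congr 2
    ring
  rw [Finset.sum_const, Finset.card_range, nsmul_eq_mul] at key
  have h3 : (0 : ℝ) < ((2 ^ (20 * B) : ℕ) : ℝ) := by positivity
  have h4 : (0 : ℝ) < ((2 ^ (2 * (20 * B)) : ℕ) : ℝ) := by positivity
  rw [one_div, inv_mul_le_iff₀ (by positivity)]
  refine key.trans (le_of_eq ?_)
  ring

/-- shift of a sum -/
lemma sum_shift (ψ : ℕ → ℝ) (N X : ℕ) (S : ℝ) (h : ∀ i, |ψ i| ≤ S) :
    |∑ i ∈ Finset.range N, ψ (i + X) - ∑ i ∈ Finset.range N, ψ i| ≤ 2 * X * S := by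
  induction X with
  | zero => simp
  | succ X ih =>
    have e : ∑ i ∈ Finset.range N, ψ (i + (X + 1)) = ∑ i ∈ Finset.range N, ψ (i + X) + ψ (N + X) - ψ X := by
      have h1 : ∑ i ∈ Finset.range (N + 1), ψ (i + X) = ∑ i ∈ Finset.range N, ψ (i + X) + ψ (N + X) :=
        Finset.sum_range_succ (fun i => ψ (i + X)) N
      have h2 : ∑ i ∈ Finset.range (N + 1), ψ (i + X) =
          ∑ i ∈ Finset.range N, ψ (i + 1 + X) + ψ (0 + X) :=
        Finset.sum_range_succ' (fun i => ψ (i + X)) N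
      have h3 : ∀ i, ψ (i + (X + 1)) = ψ (i + 1 + X) := fun i => by
        congr 1
        omega
      simp only [h3]
      rw [zero_add] at h2
      linarith
    rw [e]
    have h1 := h (N + X)
    have h2 := h X
    rw [abs_le] at h1 h2 ih ⊢
    push_cast
    constructor <;> linarith [h1.1, h1.2, h2.1, h2.2, ih.1, ih.2]

lemma abs_sum_le_card {ι : Type} (s : Finset ι) (f : ι → ℝ) (S : ℝ) (h : ∀ i ∈ s, |f i| ≤ S) :
    |∑ i ∈ s, f i| ≤ s.card * S := by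
  refine (Finset.abs_sum_le_sum_abs _ _).trans ?_
  refine (Finset.sum_le_sum h).trans ?_
  rw [Finset.sum_const, nsmul_eq_mul]

lemma inn_shift_A (B : ℕ) (a b s t : ℤ) (φ : G3 → ℝ) :
    inn B a b (fun g => φ (g * AA s t)) = inn B (a + s) (b + t) φ := by
  unfold inn
  simp only [mul_assoc, AA_mul]

lemma inn_shift_X (B : ℕ) (a b : ℤ) (n : ℕ) (h : 0 ≤ 20 * (B : ℤ) + (a - b) + n) (φ : G3 → ℝ) (S : ℝ)
    (hS : ∀ x y z : ℝ, |φ (UU x y z * AA a b)| ≤ S) :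
    |inn B a b (fun g => φ (g * UU (2 ^ n) 0 0)) - inn B a b φ| ≤ 2 * 2 ^ (a - b + n) * S := by
  set N : ℕ := 2 ^ (20 * B) with hN
  set N2 : ℕ := 2 ^ (2 * (20 * B)) with hN2
  have hNpos : (0 : ℝ) < N := by rw [hN]; positivity
  have hN2pos : (0 : ℝ) < N2 := by rw [hN2]; positivity
  have h20 : (2 : ℝ) ≠ 0 := by norm_num
  obtain ⟨e, he⟩ := Int.eq_ofNat_of_zero_le h
  set X : ℕ := 2 ^ e with hX
  have hXN : (X : ℝ) = N * 2 ^ (a - b + n) := by
    have h1 : (X : ℝ) = 2 ^ ((e : ℕ) : ℤ) := by rw [hX, zpow_natCast]; push_cast; rfl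
    have h2 : (N : ℝ) = 2 ^ ((20 * B : ℕ) : ℤ) := by rw [hN, zpow_natCast]; push_cast; rfl
    rw [h1, h2, ← zpow_add₀ h20]
    congr 1
    push_cast
    linarith
  have hS0 : 0 ≤ S := (abs_nonneg _).trans (hS 0 0 0)
  let ψ : ℕ → ℝ := fun i => ∑ k ∈ Finset.range N, ∑ l ∈ Finset.range N2,
      φ (UU ((i : ℝ) / N) ((k : ℝ) / N) ((l : ℝ) / N2) * AA a b)
  have hψ : ∀ i, |ψ i| ≤ N * (N2 * S) := by
    intro i
    have h1 := abs_sum_le_card (Finset.range N) (fun k => ∑ l ∈ Finset.range N2,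
      φ (UU ((i : ℝ) / N) ((k : ℝ) / N) ((l : ℝ) / N2) * AA a b)) (N2 * S) (fun k _ => by
        have h2 := abs_sum_le_card (Finset.range N2) (fun l =>
          φ (UU ((i : ℝ) / N) ((k : ℝ) / N) ((l : ℝ) / N2) * AA a b)) S (fun l _ => hS _ _ _)
        rwa [Finset.card_range] at h2)
    rwa [Finset.card_range] at h1
  have hsh := sum_shift ψ N X _ hψ
  have e1 : inn B a b (fun g => φ (g * UU (2 ^ n) 0 0)) = (1 / ((N : ℝ) * (N * N2))) *
      ∑ i ∈ Finset.range N, ψ (i + X) := by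
    unfold inn
    rw [← hN, ← hN2]
    congr 1
    refine Finset.sum_congr rfl fun i _ => ?_
    refine Finset.sum_congr rfl fun k _ => Finset.sum_congr rfl fun l _ => ?_
    show φ (UU ((i : ℝ) / N) ((k : ℝ) / N) ((l : ℝ) / N2) * AA a b * UU (2 ^ n) 0 0) =
      φ (UU (((i + X : ℕ) : ℝ) / N) ((k : ℝ) / N) ((l : ℝ) / N2) * AA a b)
    rw [mul_assoc, AA_UU, ← mul_assoc, UU_mul]
    congr 3
    · push_cast
      rw [hXN, zpow_add₀ h20 (a - b) (n : ℤ), zpow_natCast]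
      field_simp
    · ring
    · ring
  have e2 : inn B a b φ = (1 / ((N : ℝ) * (N * N2))) * ∑ i ∈ Finset.range N, ψ i := rfl
  rw [e1, e2, ← mul_sub, abs_mul, abs_of_pos (by positivity), one_div, inv_mul_le_iff₀ (by positivity)]
  refine hsh.trans (le_of_eq ?_)
  rw [hXN]
  ring

lemma inn_shift_Y (B : ℕ) (a b : ℤ) (n : ℕ) (h : 0 ≤ 20 * (B : ℤ) + (a + 2 * b) + n) (φ : G3 → ℝ) (S : ℝ)
    (hS : ∀ x y z : ℝ, |φ (UU x y z * AA a b)| ≤ S) :
    |inn B a b (fun g => φ (g * UU 0 (2 ^ n) 0)) - inn B a b φ| ≤ 4 * 2 ^ (a + 2 * b + n) * S := by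
  set N : ℕ := 2 ^ (20 * B) with hN
  set N2 : ℕ := 2 ^ (2 * (20 * B)) with hN2
  have hNpos : (0 : ℝ) < N := by rw [hN]; positivity
  have hN2pos : (0 : ℝ) < N2 := by rw [hN2]; positivity
  have hNN : (N2 : ℝ) = N * N := by
    rw [hN2, hN]
    push_cast
    rw [← pow_add]
    congr 1
    ring
  have h20 : (2 : ℝ) ≠ 0 := by norm_num
  obtain ⟨e, he⟩ := Int.eq_ofNat_of_zero_le h
  set Y : ℕ := 2 ^ e with hY
  have hYN : (Y : ℝ) = N * 2 ^ (a + 2 * b + n) := by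
    have h1 : (Y : ℝ) = 2 ^ ((e : ℕ) : ℤ) := by rw [hY, zpow_natCast]; push_cast; rfl
    have h2 : (N : ℝ) = 2 ^ ((20 * B : ℕ) : ℤ) := by rw [hN, zpow_natCast]; push_cast; rfl
    rw [h1, h2, ← zpow_add₀ h20]
    congr 1
    push_cast
    linarith
  have hS0 : 0 ≤ S := (abs_nonneg _).trans (hS 0 0 0)
  let F : ℕ → ℕ → ℕ → ℝ := fun i k l =>
      φ (UU ((i : ℝ) / N) ((k : ℝ) / N) ((l : ℝ) / N2) * AA a b)
  have hF : ∀ i k l, |F i k l| ≤ S := fun i k l => hS _ _ _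
  have e1 : inn B a b (fun g => φ (g * UU 0 (2 ^ n) 0)) = (1 / ((N : ℝ) * (N * N2))) *
      ∑ i ∈ Finset.range N, ∑ k ∈ Finset.range N, ∑ l ∈ Finset.range N2, F i (k + Y) (l + i * Y) := by
    unfold inn
    rw [← hN, ← hN2]
    congr 1
    refine Finset.sum_congr rfl fun i _ => ?_
    refine Finset.sum_congr rfl fun k _ => Finset.sum_congr rfl fun l _ => ?_
    show φ (UU ((i : ℝ) / N) ((k : ℝ) / N) ((l : ℝ) / N2) * AA a b * UU 0 (2 ^ n) 0) =
      φ (UU ((i : ℝ) / N) (((k + Y : ℕ) : ℝ) / N) (((l + i * Y : ℕ) : ℝ) / N2) * AA a b)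
    rw [mul_assoc, AA_UU, ← mul_assoc, UU_mul]
    congr 3
    · ring
    · push_cast
      rw [hYN, zpow_add₀ h20 (a + 2 * b) (n : ℤ), zpow_natCast]
      field_simp
    · push_cast
      rw [hYN, hNN, zpow_add₀ h20 (a + 2 * b) (n : ℤ), zpow_natCast]
      field_simp
      ring
  have e2 : inn B a b φ = (1 / ((N : ℝ) * (N * N2))) *
      ∑ i ∈ Finset.range N, ∑ k ∈ Finset.range N, ∑ l ∈ Finset.range N2, F i k l := rfl
  have hrow : ∀ i ∈ Finset.range N, |∑ k ∈ Finset.range N, ∑ l ∈ Finset.range N2, F i (k + Y) (l + i * Y) -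
      ∑ k ∈ Finset.range N, ∑ l ∈ Finset.range N2, F i k l| ≤ 4 * Y * (N2 * S) := by
    intro i hi
    have hiN : (i : ℝ) ≤ N := by
      have := (Finset.mem_range.mp hi).le
      exact_mod_cast this
    have s1 := sum_shift (fun k => ∑ l ∈ Finset.range N2, F i k (l + i * Y)) N Y (N2 * S) (fun k => by
        have h2 := abs_sum_le_card (Finset.range N2) (fun l => F i k (l + i * Y)) S (fun l _ => hF _ _ _)
        rwa [Finset.card_range] at h2)
    have s2 : |∑ k ∈ Finset.range N, (∑ l ∈ Finset.range N2, F i k (l + i * Y) -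
        ∑ l ∈ Finset.range N2, F i k l)| ≤ N * (2 * (i * Y) * S) := by
      have h3 := abs_sum_le_card (Finset.range N) (fun k => ∑ l ∈ Finset.range N2, F i k (l + i * Y) -
        ∑ l ∈ Finset.range N2, F i k l) (2 * (i * Y) * S) (fun k _ => by
          have := sum_shift (fun l => F i k l) N2 (i * Y) S (fun l => hF _ _ _)
          push_cast at this
          exact this)
      rwa [Finset.card_range] at h3
    rw [Finset.sum_sub_distrib] at s2
    have h4 : (N : ℝ) * (2 * (i * Y) * S) ≤ 2 * Y * (N2 * S) := by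
      rw [hNN]
      have : (0 : ℝ) ≤ 2 * Y * S * N := by positivity
      nlinarith
    rw [abs_le] at s1 s2 ⊢
    constructor <;> linarith [s1.1, s1.2, s2.1, s2.2]
  rw [e1, e2, ← mul_sub, abs_mul, abs_of_pos (by positivity), one_div, inv_mul_le_iff₀ (by positivity),
    ← Finset.sum_sub_distrib]
  have h5 := abs_sum_le_card (Finset.range N) _ _ hrow
  rw [Finset.card_range] at h5
  refine h5.trans (le_of_eq ?_)
  rw [hYN]
  ring

end Pool.Agent.Lib.MP_c058bc_gt
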