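import Pool.Agent.Lib.MP_c058bc_gt.Scaling

/-!
The contradiction.
-/

set_option autoImplicit false

namespace Pool.Agent.Lib.MP_c058bc_gt

open Matrix Filter

/-- the five group elements -/
noncomputable def gg (n : ℕ) (i : Fin 5) : G3 :=
  ![UU 0 0 0, UU (2 ^ n) 0 0, UU (2 ^ n) (2 ^ n) (2 ^ n * 2 ^ n), UU 0 (2 ^ n) (2 ^ n * 2 ^ n),
    UU 0 0 (2 ^ n * 2 ^ n)] i

/-- the points of the five apartments at scale `n` -/
noncomputable def pt (n : ℕ) (p : YY) : G3 := gg n p.1 * AA ⌊(n : ℝ) * p.2.1⌋ ⌊(n : ℝ) * p.2.2⌋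

lemma gg_spec (n : ℕ) (i : Fin 5) : ∃ x y z : ℝ, gg n i = UU x y z := by
  fin_cases i
  · exact ⟨0, 0, 0, rfl⟩
  · exact ⟨2 ^ n, 0, 0, rfl⟩
  · exact ⟨2 ^ n, 2 ^ n, 2 ^ n * 2 ^ n, rfl⟩
  · exact ⟨0, 2 ^ n, 2 ^ n * 2 ^ n, rfl⟩
  · exact ⟨0, 0, 2 ^ n * 2 ^ n, rfl⟩

lemma pt_spec (n : ℕ) (p : YY) : Spec (pt n p) := by
  obtain ⟨x, y, z, h⟩ := gg_spec n p.1
  exact ⟨x, y, z, _, _, by unfold pt; rw [h]⟩

section

variable {ρ : G3 → G3 → ℝ} {c C : ℝ}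

lemma gg_inv (h : LimK ρ c C) (n : ℕ) (i : Fin 5) : Inv ρ (gg n i) := by
  have h1 : Inv ρ (UU (2 ^ n) 0 0) := h.invX n
  have h2 : Inv ρ (UU 0 (2 ^ n) 0) := h.invY n
  have e2 : UU (2 ^ n) (2 ^ n) (2 ^ n * 2 ^ n) = UU (2 ^ n) 0 0 * UU 0 (2 ^ n) 0 := by
    rw [UU_mul]; congr 1 <;> ring
  have e3 : UU 0 (2 ^ n) (2 ^ n * 2 ^ n) = UU (2 ^ n) (2 ^ n) (2 ^ n * 2 ^ n) * (UU (2 ^ n) 0 0)⁻¹ := by
    rw [UU_inv, UU_mul]; congr 1 <;> ring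
  have e4 : UU 0 0 (2 ^ n * 2 ^ n) = UU 0 (2 ^ n) (2 ^ n * 2 ^ n) * (UU 0 (2 ^ n) 0)⁻¹ := by
    rw [UU_inv, UU_mul]; congr 1 <;> ring
  have k2 : Inv ρ (UU (2 ^ n) (2 ^ n) (2 ^ n * 2 ^ n)) := by rw [e2]; exact h1.mul h2
  have k3 : Inv ρ (UU 0 (2 ^ n) (2 ^ n * 2 ^ n)) := by rw [e3]; exact k2.mul h1.inv
  have k4 : Inv ρ (UU 0 0 (2 ^ n * 2 ^ n)) := by rw [e4]; exact k3.mul h2.inv
  fin_cases i
  · show Inv ρ (UU 0 0 0)
    rw [UU_zero]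
    exact Inv.one
  · exact h1
  · exact k2
  · exact k3
  · exact k4

lemma rho_pt (h : LimK ρ c C) (n : ℕ) (i : Fin 5) (x y : PP2) :
    ρ (pt n (i, x)) (pt n (i, y)) =
      psi ρ (⌊(n : ℝ) * y.1⌋ - ⌊(n : ℝ) * x.1⌋) (⌊(n : ℝ) * y.2⌋ - ⌊(n : ℝ) * x.2⌋) := by
  unfold pt
  rw [gg_inv h n i, rho_AA h]

/-- the rescaled kernel -/
noncomputable def rsc (ρ : G3 → G3 → ℝ) (n : ℕ) (p q : YY) : ℝ := (1 / (n : ℝ)) * ρ (pt n p) (pt n q)

lemma rsc_cone (h : LimK ρ c C) (n : ℕ) : Cone (rsc ρ n) :=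
  (h.cone.comp (pt n)).smul (by positivity)

lemma floor_diff (n : ℕ) (a b : ℝ) :
    |((⌊(n : ℝ) * b⌋ - ⌊(n : ℝ) * a⌋ : ℤ) : ℝ) - n * (b - a)| ≤ 1 := by
  push_cast
  have h1 := Int.floor_le ((n : ℝ) * a)
  have h2 := Int.lt_floor_add_one ((n : ℝ) * a)
  have h3 := Int.floor_le ((n : ℝ) * b)
  have h4 := Int.lt_floor_add_one ((n : ℝ) * b)
  rw [abs_le]
  constructor <;> nlinarith

lemma rsc_line (h : LimK ρ c C) (i : Fin 5) (x y : PP2) :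
    Tendsto (fun n : ℕ => rsc ρ n (i, x) (i, y)) atTop (nhds (NN h (y.1 - x.1, y.2 - x.2))) := by
  have := NN_near h (y.1 - x.1, y.2 - x.2) (fun n => ⌊(n : ℝ) * y.1⌋ - ⌊(n : ℝ) * x.1⌋)
    (fun n => ⌊(n : ℝ) * y.2⌋ - ⌊(n : ℝ) * x.2⌋) 1 (fun n => floor_diff n x.1 y.1)
    (fun n => floor_diff n x.2 y.2)
  refine this.congr fun n => ?_
  unfold rsc
  rw [rho_pt h, div_eq_inv_mul, one_div]

lemma conj_eq (x y z : ℝ) (a b : ℤ) :
    (AA a b)⁻¹ * UU x y z * AA a b = UU (2 ^ (-a + b) * x) (2 ^ (-a - 2 * b) * y) (2 ^ (-2 * a - b) * z) := by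
  rw [AA_inv, AA_UU, mul_assoc, AA_mul]
  have e1 : -a + a = 0 := by ring
  have e2 : -b + b = 0 := by ring
  rw [e1, e2, AA_zero, mul_one]
  congr 3 <;> ring

lemma small_zpow {m : ℤ} {x : ℝ} {k : ℕ} (hx : |x| = 2 ^ k) (hm : m + k ≤ 3) : |2 ^ m * x| ≤ 8 := by
  rw [abs_mul, hx, abs_of_pos (by positivity : (0 : ℝ) < 2 ^ m), ← zpow_natCast, ← zpow_add₀ (by norm_num)]
  have := zpow_le_zpow_right₀ (by norm_num : (1 : ℝ) ≤ 2) hm
  norm_num at this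
  exact this

lemma glue_len (n : ℕ) (p q : YY) (hg : Glue p q) : len ((pt n p)⁻¹ * pt n q) ≤ 9 := by
  obtain ⟨i, x⟩ := p
  obtain ⟨j, y⟩ := q
  have gen : ∀ (u v : ℝ) (w : ℝ), gg n j = gg n i * UU u v w → x = y →
      (pt n (i, x))⁻¹ * pt n (j, y) = UU (2 ^ (-⌊(n : ℝ) * x.1⌋ + ⌊(n : ℝ) * x.2⌋) * u)
        (2 ^ (-⌊(n : ℝ) * x.1⌋ - 2 * ⌊(n : ℝ) * x.2⌋) * v)
        (2 ^ (-2 * ⌊(n : ℝ) * x.1⌋ - ⌊(n : ℝ) * x.2⌋) * w) := by
    intro u v w hgg hxy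
    subst hxy
    rw [← conj_eq]
    unfold pt
    simp only
    rw [hgg]
    group
  have f1 := Int.floor_le ((n : ℝ) * x.1)
  have f2 := Int.lt_floor_add_one ((n : ℝ) * x.1)
  have f3 := Int.floor_le ((n : ℝ) * x.2)
  have f4 := Int.lt_floor_add_one ((n : ℝ) * x.2)
  have hn0 : (0 : ℝ) ≤ n := Nat.cast_nonneg n
  have hpow : |(2 : ℝ) ^ n| = 2 ^ n := abs_of_pos (by positivity)
  have hpow' : |(-(2 : ℝ) ^ n)| = 2 ^ n := by rw [abs_neg]; exact hpow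
  have hpow2 : |(2 : ℝ) ^ n * 2 ^ n| = 2 ^ (2 * n) := by
    rw [abs_of_pos (by positivity), ← pow_add]
    congr 1
    ring
  -- exponents
  have hA : 1 ≤ ra x → (-⌊(n : ℝ) * x.1⌋ + ⌊(n : ℝ) * x.2⌋) + (n : ℤ) ≤ 3 := by
    intro hx
    unfold ra at hx
    have : (((-⌊(n : ℝ) * x.1⌋ + ⌊(n : ℝ) * x.2⌋) + (n : ℤ) : ℤ) : ℝ) ≤ ((3 : ℤ) : ℝ) := by
      push_cast
      nlinarith
    exact_mod_cast this
  have hB : 1 ≤ rb x → (-⌊(n : ℝ) * x.1⌋ - 2 * ⌊(n : ℝ) * x.2⌋) + (n : ℤ) ≤ 3 := by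
    intro hx
    unfold rb at hx
    have : (((-⌊(n : ℝ) * x.1⌋ - 2 * ⌊(n : ℝ) * x.2⌋) + (n : ℤ) : ℤ) : ℝ) ≤ ((3 : ℤ) : ℝ) := by
      push_cast
      nlinarith
    exact_mod_cast this
  have hS : 2 ≤ rs x → (-2 * ⌊(n : ℝ) * x.1⌋ - ⌊(n : ℝ) * x.2⌋) + ((2 * n : ℕ) : ℤ) ≤ 3 := by
    intro hx
    unfold rs at hx
    have : (((-2 * ⌊(n : ℝ) * x.1⌋ - ⌊(n : ℝ) * x.2⌋) + ((2 * n : ℕ) : ℤ) : ℤ) : ℝ) ≤ ((3 : ℤ) : ℝ) := by
      push_cast
      nlinarith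
    exact_mod_cast this
  rcases hg with ⟨h1, h2, h3, h4⟩ | ⟨h1, h2, h3, h4⟩ | ⟨h1, h2, h3, h4⟩ | ⟨h1, h2, h3, h4⟩ | ⟨h1, h2, h3, h4⟩
  · simp only at h1 h2 h3 h4
    subst h1 h2
    rw [gen (2 ^ n) 0 0 (by
      show UU (2 ^ n) 0 0 = UU 0 0 0 * UU (2 ^ n) 0 0
      rw [UU_mul]; congr 1 <;> ring) h3]
    refine len_UU_le _ _ _ ?_
    rw [mul_zero, mul_zero, abs_zero, add_zero, add_zero]
    exact small_zpow hpow (hA h4)
  · simp only at h1 h2 h3 h4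
    subst h1 h2
    rw [gen 0 (2 ^ n) 0 (by
      show UU (2 ^ n) (2 ^ n) (2 ^ n * 2 ^ n) = UU (2 ^ n) 0 0 * UU 0 (2 ^ n) 0
      rw [UU_mul]; congr 1 <;> ring) h3]
    refine len_UU_le _ _ _ ?_
    rw [mul_zero, mul_zero, abs_zero, add_zero, zero_add]
    exact small_zpow hpow (hB h4)
  · simp only at h1 h2 h3 h4
    subst h1 h2
    rw [gen (-2 ^ n) 0 0 (by
      show UU 0 (2 ^ n) (2 ^ n * 2 ^ n) = UU (2 ^ n) (2 ^ n) (2 ^ n * 2 ^ n) * UU (-2 ^ n) 0 0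
      rw [UU_mul]; congr 1 <;> ring) h3]
    refine len_UU_le _ _ _ ?_
    rw [mul_zero, mul_zero, abs_zero, add_zero, add_zero]
    exact small_zpow hpow' (hA h4)
  · simp only at h1 h2 h3 h4
    subst h1 h2
    rw [gen 0 (-2 ^ n) 0 (by
      show UU 0 0 (2 ^ n * 2 ^ n) = UU 0 (2 ^ n) (2 ^ n * 2 ^ n) * UU 0 (-2 ^ n) 0
      rw [UU_mul]; congr 1 <;> ring) h3]
    refine len_UU_le _ _ _ ?_
    rw [mul_zero, mul_zero, abs_zero, add_zero, zero_add]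
    exact small_zpow hpow' (hB h4)
  · simp only at h1 h2 h3 h4
    subst h1 h2
    rw [gen 0 0 (2 ^ n * 2 ^ n) (by
      show UU 0 0 (2 ^ n * 2 ^ n) = UU 0 0 0 * UU 0 0 (2 ^ n * 2 ^ n)
      rw [UU_mul]; congr 1 <;> ring) h3]
    refine len_UU_le _ _ _ ?_
    rw [mul_zero, mul_zero, abs_zero, zero_add, zero_add]
    exact small_zpow hpow2 (hS h4)

lemma defect_tendsto (h : LimK ρ c C) (con : Con) :
    Tendsto (fun n : ℕ => defect con (rsc ρ n)) atTop (nhds 0) := by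
  rcases con with t | g
  · obtain ⟨⟨i, t, x, y⟩, h0, h1⟩ := t
    simp only at h0 h1
    have l1 := rsc_line h i x (mid t x y)
    have l2 := rsc_line h i (mid t x y) y
    have l3 := rsc_line h i x y
    have e1 : ((mid t x y).1 - x.1, (mid t x y).2 - x.2) = (t * (y.1 - x.1, y.2 - x.2).1, t * (y.1 - x.1, y.2 - x.2).2) := by
      simp only [mid]
      ext
      · simp only; ring
      · simp only; ring
    have e2 : (y.1 - (mid t x y).1, y.2 - (mid t x y).2) =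
        ((1 - t) * (y.1 - x.1, y.2 - x.2).1, (1 - t) * (y.1 - x.1, y.2 - x.2).2) := by
      simp only [mid]
      ext
      · simp only; ring
      · simp only; ring
    rw [e1, NN_smul h _ t h0] at l1
    rw [e2, NN_smul h _ (1 - t) (by linarith)] at l2
    have l4 := (l1.add l2).sub l3
    have e3 : t * NN h (y.1 - x.1, y.2 - x.2) + (1 - t) * NN h (y.1 - x.1, y.2 - x.2) -
        NN h (y.1 - x.1, y.2 - x.2) = 0 := by ring
    rw [e3] at l4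
    exact l4
  · obtain ⟨⟨p, q⟩, hg⟩ := g
    simp only at hg
    have hlim : Tendsto (fun n : ℕ => (C * 10) / (n : ℝ)) atTop (nhds 0) :=
      tendsto_const_div_atTop_nhds_zero_nat _
    refine squeeze_zero (fun n => cone_nonneg (rsc_cone h n) _ _) (fun n => ?_) hlim
    show (1 / (n : ℝ)) * ρ (pt n p) (pt n q) ≤ (C * 10) / (n : ℝ)
    rw [div_eq_inv_mul (C * 10) (n : ℝ), one_div]
    refine mul_le_mul_of_nonneg_left ?_ (by positivity)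
    refine (h.upper _ _ (pt_spec n p) (pt_spec n q)).trans (mul_le_mul_of_nonneg_left ?_ h.Cnn)
    linarith [glue_len n p q hg]

lemma near_bound (h : LimK ρ c C) {n : ℕ} (hn : 1 ≤ n) (i : Fin 5) (x : PP2) {ε : ℝ}
    (h1 : |x.1| ≤ ε) (h2 : |x.2| ≤ ε) : rsc ρ n (i, x) (i, (0, 0)) ≤ 4 * C * ε + (9 * C) / n := by
  have hnR : (0 : ℝ) < n := by exact_mod_cast hn
  unfold rsc
  rw [rho_pt h]
  have hp := psi_le h (⌊(n : ℝ) * ((0, 0) : PP2).1⌋ - ⌊(n : ℝ) * x.1⌋) (⌊(n : ℝ) * ((0, 0) : PP2).2⌋ - ⌊(n : ℝ) * x.2⌋)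
  have fl : ∀ y : ℝ, |y| ≤ ε → |((⌊(n : ℝ) * 0⌋ - ⌊(n : ℝ) * y⌋ : ℤ) : ℝ)| ≤ n * ε + 1 := by
    intro y hy
    have := floor_diff n y 0
    have e : |(n : ℝ) * (0 - y)| ≤ n * ε := by
      rw [abs_mul, abs_of_pos hnR, zero_sub, abs_neg]
      exact mul_le_mul_of_nonneg_left hy hnR.le
    rw [abs_le] at this e ⊢
    constructor <;> linarith [this.1, this.2, e.1, e.2]
  have f1 := fl x.1 h1
  have f2 := fl x.2 h2
  have hb : C * (5 + 2 * (|((⌊(n : ℝ) * ((0, 0) : PP2).1⌋ - ⌊(n : ℝ) * x.1⌋ : ℤ) : ℝ)| +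
      |((⌊(n : ℝ) * ((0, 0) : PP2).2⌋ - ⌊(n : ℝ) * x.2⌋ : ℤ) : ℝ)|)) ≤ C * (5 + 2 * ((n * ε + 1) + (n * ε + 1))) :=
    mul_le_mul_of_nonneg_left (by linarith) h.Cnn
  have hfin := hp.trans hb
  calc 1 / (n : ℝ) * psi ρ (⌊(n : ℝ) * ((0, 0) : PP2).1⌋ - ⌊(n : ℝ) * x.1⌋)
        (⌊(n : ℝ) * ((0, 0) : PP2).2⌋ - ⌊(n : ℝ) * x.2⌋)
      ≤ 1 / (n : ℝ) * (C * (5 + 2 * ((n * ε + 1) + (n * ε + 1)))) :=
        mul_le_mul_of_nonneg_left hfin (by positivity)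
    _ = 4 * C * ε + (9 * C) / n := by
        field_simp
        ring

lemma base_bound (h : LimK ρ c C) {n : ℕ} (hn : 1 ≤ n) :
    c - C / n ≤ rsc ρ n (0, (0, 0)) (4, (0, 0)) := by
  have hnR : (0 : ℝ) < n := by exact_mod_cast hn
  have hl := h.lower _ _ (pt_spec n (0, (0, 0))) (pt_spec n (4, (0, 0)))
  have e : (pt n (0, (0, 0)))⁻¹ * pt n (4, (0, 0)) = UU 0 0 (2 ^ n * 2 ^ n) := by
    unfold pt
    simp only [mul_zero, Int.floor_zero, AA_zero, mul_one]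
    show (UU 0 0 0)⁻¹ * UU 0 0 (2 ^ n * 2 ^ n) = _
    rw [UU_zero, inv_one, one_mul]
  rw [e] at hl
  have hlen : (n : ℝ) ≤ len (UU 0 0 (2 ^ n * 2 ^ n)) := by
    refine le_trans ?_ (log_nrm_le_len _)
    have h1 := abs_le_nrm ((UU 0 0 (2 ^ n * 2 ^ n) : G3) : Matrix (Fin 3) (Fin 3) ℝ) 0 2
    have h2 : ((UU 0 0 (2 ^ n * 2 ^ n) : G3) : Matrix (Fin 3) (Fin 3) ℝ) 0 2 = 2 ^ n * 2 ^ n := by
      simp [UU]
    rw [h2, abs_of_pos (by positivity)] at h1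
    have hpos : (0 : ℝ) < 2 ^ n * 2 ^ n := by positivity
    refine le_trans ?_ (Real.log_le_log hpos h1)
    have e2 : (2 : ℝ) ^ n * 2 ^ n = 2 ^ (n + n) := by rw [pow_add]
    rw [e2, Real.log_pow]
    have := Real.log_two_gt_d9
    push_cast
    nlinarith
  unfold rsc
  have h2 : c * n - C ≤ ρ (pt n (0, (0, 0))) (pt n (4, (0, 0))) := by
    have := mul_le_mul_of_nonneg_left hlen h.cpos.le
    linarith
  calc c - C / n = 1 / (n : ℝ) * (c * n - C) := by field_simp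
    _ ≤ _ := mul_le_mul_of_nonneg_left h2 (by positivity)

/-- **No kernel with these properties exists.** -/
theorem no_limK (h : LimK ρ c C) : False := by
  set ε := c / (40 * (C + 1)) with hε
  have hC := h.Cnn
  have hc := h.cpos
  have hε0 : 0 < ε := by positivity
  obtain ⟨u, hu⟩ := key_ineq hε0
  have hdef : Tendsto (fun n : ℕ => ∑ con ∈ u, defect con (rsc ρ n)) atTop (nhds 0) := by
    have := tendsto_finsetSum u (fun con _ => defect_tendsto h con)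
    simpa using this
  have hineq : ∀ᶠ n : ℕ in atTop, c ≤ 20 * C * ε + ((46 * C) / n + ∑ con ∈ u, defect con (rsc ρ n)) := by
    filter_upwards [eventually_ge_atTop 1] with n hn
    have hk := hu (rsc ρ n) (rsc_cone h n)
    have hb := base_bound h hn
    have he : |ε| ≤ ε := by rw [abs_of_pos hε0]
    have he' : |-ε| ≤ ε := by rw [abs_neg, abs_of_pos hε0]
    have n1 := near_bound h hn 0 (ε, ε) he he
    have n2 := near_bound h hn 0 (ε, -ε) he he'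
    have n3 := near_bound h hn 0 (-ε, ε) he' he
    have n4 := near_bound h hn 0 (-ε, -ε) he' he'
    have n5 := near_bound h hn 4 (-ε, -ε) he' he'
    unfold nearSum at hk
    have e1 : 46 * C / (n : ℝ) = 5 * ((9 * C) / n) + C / n := by ring
    rw [e1]
    linarith
  have hlim : Tendsto (fun n : ℕ => 20 * C * ε + ((46 * C) / (n : ℝ) + ∑ con ∈ u, defect con (rsc ρ n)))
      atTop (nhds (20 * C * ε + (0 + 0))) :=
    tendsto_const_nhds.add ((tendsto_const_div_atTop_nhds_zero_nat _).add hdef)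
  have hfin := ge_of_tendsto hlim hineq
  have : 20 * C * ε < c := by
    rw [hε]
    have h1 : 20 * C * (c / (40 * (C + 1))) = c * (20 * C) / (40 * (C + 1)) := by ring
    rw [h1, div_lt_iff₀ (by positivity)]
    nlinarith
  linarith

end

/-- no good kernel exists on `SL_3(ℤ)` -/
theorem no_good {D : Z3 → Z3 → ℝ} {c C : ℝ} (h : Good D c C) : False := by
  obtain ⟨ρ, h1, h2, h3, h4, h5, h6, h7⟩ := limit_kernel h
  have hC := h.C_nonneg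
  have hc := h.cpos
  have hlim : LimK ρ c (C * 3367 + (c * 3366 + C)) := by
    refine ⟨h1, hc, by positivity, ?_, ?_, h4, h5, inv_AA h6 h7⟩
    · intro p q hp hq
      refine (h2 p q hp hq).trans (mul_le_mul_of_nonneg_right ?_ ?_)
      · have : 0 ≤ c * 3366 + C := by positivity
        linarith
      · linarith [len_nonneg (p⁻¹ * q)]
    · intro p q hp hq
      have := h3 p q hp hq
      have : 0 ≤ C * 3367 := by positivity
      linarith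
  exact no_limK hlim

end Pool.Agent.Lib.MP_c058bc_gt
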