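import Mathlib

/-!
Counting lemma: how often is an arithmetic progression close to an integer.
-/

set_option autoImplicit false

namespace Pool.Agent.Lib.MP_c058bc_gt

/-- natural numbers in an open interval -/
lemma card_interval (s : Finset ℕ) (x r : ℝ) (hr : 0 ≤ r) (h : ∀ k ∈ s, |(k : ℝ) - x| < r) :
    (s.card : ℝ) ≤ 2 * r + 1 := by
  have hsub : s.map Nat.castEmbedding ⊆ Finset.Icc ⌈x - r⌉ ⌊x + r⌋ := by
    intro z hz
    rw [Finset.mem_map] at hz
    obtain ⟨k, hk, rfl⟩ := hz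
    have h1 := h k hk
    rw [abs_lt] at h1
    rw [Finset.mem_Icc]
    constructor
    · rw [Int.ceil_le]
      simp only [Nat.castEmbedding_apply, Int.cast_natCast]
      linarith
    · rw [Int.le_floor]
      simp only [Nat.castEmbedding_apply, Int.cast_natCast]
      linarith
  have h1 := Finset.card_le_card hsub
  rw [Finset.card_map, Int.card_Icc] at h1
  rcases le_or_gt 0 (⌊x + r⌋ + 1 - ⌈x - r⌉) with hpos | hneg
  · have h2 : ((s.card : ℤ) : ℝ) ≤ ((⌊x + r⌋ + 1 - ⌈x - r⌉ : ℤ) : ℝ) := by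
      have : (s.card : ℤ) ≤ ⌊x + r⌋ + 1 - ⌈x - r⌉ := by omega
      exact_mod_cast this
    push_cast at h2
    have h3 := Int.floor_le (x + r)
    have h4 := Int.le_ceil (x - r)
    linarith
  · have : s.card = 0 := by omega
    rw [this]
    push_cast
    linarith

open scoped Classical in
lemma card_near (N : ℕ) (hN : 0 < N) (v : ℤ) (hv : v ≠ 0) (c δ : ℝ) (hδ0 : 0 < δ) (hδ : δ ≤ 1 / 2)
    (hbig : |(v : ℝ)| ≤ δ * N) :
    (((Finset.range N).filter (fun k : ℕ => ∃ b : ℤ, |(b : ℝ) - (k : ℝ) / N * v - c| < δ)).card : ℝ) ≤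
      9 * δ * N := by
  classical
  have hNR : (0 : ℝ) < N := by exact_mod_cast hN
  have hvR : (v : ℝ) ≠ 0 := by exact_mod_cast hv
  have hv1 : (1 : ℝ) ≤ |(v : ℝ)| := by
    have : (1 : ℤ) ≤ |v| := Int.one_le_abs hv
    have h' : ((1 : ℤ) : ℝ) ≤ ((|v| : ℤ) : ℝ) := by exact_mod_cast this
    push_cast at h'
    exact h'
  set r := δ * N / |(v : ℝ)| with hr
  have hr0 : 0 ≤ r := by positivity
  set Bs := Finset.Icc ⌈c + min 0 (v : ℝ) - 1 / 2⌉ ⌊c + max 0 (v : ℝ) + 1 / 2⌋ with hBs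
  have hcardB : (Bs.card : ℝ) ≤ |(v : ℝ)| + 2 := by
    rw [hBs, Int.card_Icc]
    have h3 := Int.floor_le (c + max 0 (v : ℝ) + 1 / 2)
    have h4 := Int.le_ceil (c + min 0 (v : ℝ) - 1 / 2)
    have h5 : max 0 (v : ℝ) - min 0 (v : ℝ) = |(v : ℝ)| := by
      rw [max_sub_min_eq_abs]
      simp
    rcases le_or_gt 0 (⌊c + max 0 (v : ℝ) + 1 / 2⌋ + 1 - ⌈c + min 0 (v : ℝ) - 1 / 2⌉) with hpos | hneg
    · have h6 : ((((⌊c + max 0 (v : ℝ) + 1 / 2⌋ + 1 - ⌈c + min 0 (v : ℝ) - 1 / 2⌉).toNat : ℕ) : ℤ) : ℝ) =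
        ((⌊c + max 0 (v : ℝ) + 1 / 2⌋ + 1 - ⌈c + min 0 (v : ℝ) - 1 / 2⌉ : ℤ) : ℝ) := by
        rw [Int.toNat_of_nonneg hpos]
      rw [Int.cast_natCast] at h6
      rw [h6]
      push_cast
      linarith
    · rw [Int.toNat_of_nonpos hneg.le]
      push_cast
      linarith
  have hsub : ((Finset.range N).filter (fun k : ℕ => ∃ b : ℤ, |(b : ℝ) - (k : ℝ) / N * v - c| < δ)) ⊆
      Bs.biUnion (fun b => (Finset.range N).filter (fun k : ℕ => |(b : ℝ) - (k : ℝ) / N * v - c| < δ)) := by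
    intro k hk
    rw [Finset.mem_filter, Finset.mem_range] at hk
    obtain ⟨hkN, b, hb⟩ := hk
    rw [Finset.mem_biUnion]
    refine ⟨b, ?_, by rw [Finset.mem_filter, Finset.mem_range]; exact ⟨hkN, hb⟩⟩
    rw [hBs, Finset.mem_Icc]
    have ht0 : 0 ≤ (k : ℝ) / N := by positivity
    have ht1 : (k : ℝ) / N ≤ 1 := by
      rw [div_le_one hNR]
      exact_mod_cast hkN.le
    have h1 : min 0 (v : ℝ) ≤ (k : ℝ) / N * v := by
      rcases le_total 0 (v : ℝ) with h | h
      · rw [min_eq_left h]; positivity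
      · rw [min_eq_right h]; nlinarith
    have h2 : (k : ℝ) / N * v ≤ max 0 (v : ℝ) := by
      rcases le_total 0 (v : ℝ) with h | h
      · rw [max_eq_right h]; nlinarith
      · rw [max_eq_left h]; nlinarith
    rw [abs_lt] at hb
    constructor
    · rw [Int.ceil_le]; linarith
    · rw [Int.le_floor]; linarith
  have hfib : ∀ b ∈ Bs, (((Finset.range N).filter
      (fun k : ℕ => |(b : ℝ) - (k : ℝ) / N * v - c| < δ)).card : ℝ) ≤ 2 * r + 1 := by
    intro b _
    refine card_interval _ (((b : ℝ) - c) * N / v) r hr0 ?_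
    intro k hk
    rw [Finset.mem_filter] at hk
    have h1 := hk.2
    have e : (k : ℝ) - ((b : ℝ) - c) * N / v = -(((b : ℝ) - (k : ℝ) / N * v - c) * (N / v)) := by
      field_simp
      ring
    rw [e, abs_neg, abs_mul, abs_div, abs_of_pos hNR, hr]
    calc |(b : ℝ) - (k : ℝ) / N * v - c| * (N / |(v : ℝ)|) < δ * (N / |(v : ℝ)|) :=
          mul_lt_mul_of_pos_right h1 (by positivity)
      _ = δ * N / |(v : ℝ)| := by ring
  have hcard := Finset.card_le_card hsub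
  have hcard2 : ((Bs.biUnion (fun b => (Finset.range N).filter
      (fun k : ℕ => |(b : ℝ) - (k : ℝ) / N * v - c| < δ))).card : ℝ) ≤ Bs.card * (2 * r + 1) := by
    have h1 : ((Bs.biUnion (fun b => (Finset.range N).filter
      (fun k : ℕ => |(b : ℝ) - (k : ℝ) / N * v - c| < δ))).card : ℝ) ≤
      ((∑ b ∈ Bs, ((Finset.range N).filter
      (fun k : ℕ => |(b : ℝ) - (k : ℝ) / N * v - c| < δ)).card : ℕ) : ℝ) := by
      exact_mod_cast Finset.card_biUnion_le
    refine h1.trans ?_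
    push_cast
    refine (Finset.sum_le_sum hfib).trans ?_
    rw [Finset.sum_const, nsmul_eq_mul]
  have hcardR : (((Finset.range N).filter (fun k : ℕ => ∃ b : ℤ, |(b : ℝ) - (k : ℝ) / N * v - c| < δ)).card : ℝ) ≤
      ((Bs.biUnion (fun b => (Finset.range N).filter
      (fun k : ℕ => |(b : ℝ) - (k : ℝ) / N * v - c| < δ))).card : ℝ) := by exact_mod_cast hcard
  have hfin : (Bs.card : ℝ) * (2 * r + 1) ≤ (|(v : ℝ)| + 2) * (2 * r + 1) :=
    mul_le_mul_of_nonneg_right hcardB (by positivity)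
  have hlast : (|(v : ℝ)| + 2) * (2 * r + 1) ≤ 9 * δ * N := by
    have h1 : |(v : ℝ)| * r = δ * N := by
      rw [hr]
      field_simp
    nlinarith
  linarith

end Pool.Agent.Lib.MP_c058bc_gt
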