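import Pool.Agent.Lib.MP_c058bc_gt.Tau

/-!
The average of the thickness function over a fine grid in the unipotent group is bounded.
-/

set_option autoImplicit false

namespace Pool.Agent.Lib.MP_c058bc_gt

open Matrix

open scoped Classical in
/-- number of thin points for fixed first coordinate -/
lemma thin_count (a b : ℤ) (ha : a ≤ -1) (hb : b ≤ -1) (K : ℕ) (h1 : -a - 2 * b ≤ K)
    (h2 : -2 * a - b ≤ 2 * K) (x y0 : ℝ) (c : ℕ → ℝ) (j : ℕ) :
    ∑ k ∈ Finset.range (2 ^ K), ∑ l ∈ Finset.range (2 ^ (2 * K)),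
      (if Thick (UU x ((k : ℝ) / (2 ^ K : ℕ) + y0) ((l : ℝ) / (2 ^ (2 * K) : ℕ) + c k) * AA a b) j then (0 : ℝ) else 1) ≤
      162 * (1 / 8) ^ j * ((2 ^ K : ℕ) * (2 ^ (2 * K) : ℕ)) := by
  set N : ℕ := 2 ^ K with hN
  set N2 : ℕ := 2 ^ (2 * K) with hN2
  have hNpos : 0 < N := by positivity
  have hN2pos : 0 < N2 := by positivity
  have hNR : (0 : ℝ) < N := by exact_mod_cast hNpos
  have hN2R : (0 : ℝ) < N2 := by exact_mod_cast hN2pos
  have h20 : (2 : ℝ) ≠ 0 := by norm_num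
  set V : ℝ := 2 ^ (-(j : ℤ) - a - b) with hV
  set δ1 : ℝ := 2 ^ (a - j) with hδ1
  set δ2 : ℝ := 2 ^ (b - j) with hδ2
  have hV0 : 0 < V := by positivity
  have hδ10 : 0 < δ1 := by positivity
  have hδ20 : 0 < δ2 := by positivity
  have hprod : V * δ1 * δ2 = (1 / 8) ^ j := by
    rw [hV, hδ1, hδ2, ← zpow_add₀ h20, ← zpow_add₀ h20]
    have e : (-(j : ℤ) - a - b + (a - j) + (b - j)) = -((3 * j : ℕ) : ℤ) := by push_cast; ring
    rw [e, _root_.zpow_neg, zpow_natCast, pow_mul]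
    rw [one_div, inv_pow]
    norm_num
  have hhalf : (2 : ℝ) ^ (-1 : ℤ) = 1 / 2 := by norm_num
  have hδ1h : δ1 ≤ 1 / 2 := by
    rw [← hhalf, hδ1]
    exact zpow_le_zpow_right₀ (by norm_num) (by omega)
  have hδ2h : δ2 ≤ 1 / 2 := by
    rw [← hhalf, hδ2]
    exact zpow_le_zpow_right₀ (by norm_num) (by omega)
  have hVN : V ≤ δ2 * N := by
    have : (N : ℝ) = 2 ^ (K : ℤ) := by rw [hN, zpow_natCast]; push_cast; ring
    rw [this, hδ2, hV, ← zpow_add₀ h20]
    exact zpow_le_zpow_right₀ (by norm_num) (by omega)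
  have hVN2 : V ≤ δ1 * N2 := by
    have : (N2 : ℝ) = 2 ^ ((2 * K : ℕ) : ℤ) := by rw [hN2, zpow_natCast]; push_cast; ring
    rw [this, hδ1, hV, ← zpow_add₀ h20]
    exact zpow_le_zpow_right₀ (by norm_num) (by push_cast; omega)
  set Vs : Finset ℤ := (Finset.Icc (-⌊V⌋) ⌊V⌋).erase 0 with hVs
  have hVfloor : 0 ≤ ⌊V⌋ := Int.floor_nonneg.mpr hV0.le
  have hVcard : (Vs.card : ℝ) ≤ 2 * V := by
    have h3 : Vs.card = (2 * ⌊V⌋).toNat := by
      rw [hVs, Finset.card_erase_of_mem (by rw [Finset.mem_Icc]; omega), Int.card_Icc]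
      omega
    rw [h3]
    have h4 : (((2 * ⌊V⌋).toNat : ℤ) : ℝ) = ((2 * ⌊V⌋ : ℤ) : ℝ) := by
      rw [Int.toNat_of_nonneg (by omega)]
    rw [Int.cast_natCast] at h4
    rw [h4]
    push_cast
    linarith [Int.floor_le V]
  -- the set of good k
  let Kp : ℤ → ℕ → Prop := fun w k => ∃ u : ℤ, |(u : ℝ) - (k : ℝ) / N * w - y0 * w| < δ2
  -- a choice of the second coordinate
  let vv : ℤ → ℕ → ℤ := fun w k => if h : Kp w k then h.choose else 0
  let cc : ℤ → ℕ → ℝ := fun w k => x * vv w k - x * ((k : ℝ) / N + y0) * w + c k * w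
  let Lp : ℤ → ℕ → ℕ → Prop := fun w k l => ∃ u : ℤ, |(u : ℝ) - (l : ℝ) / N2 * w - cc w k| < δ1
  -- main inclusion
  have hincl : ∀ k l : ℕ, (if Thick (UU x ((k : ℝ) / N + y0) ((l : ℝ) / N2 + c k) * AA a b) j
      then (0 : ℝ) else 1) ≤ ∑ w ∈ Vs, (if Kp w k then (if Lp w k l then (1 : ℝ) else 0) else 0) := by
    intro k l
    have hnn : ∀ w ∈ Vs, (0 : ℝ) ≤ (if Kp w k then (if Lp w k l then (1 : ℝ) else 0) else 0) := by
      intro w _
      split_ifs <;> norm_num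
    by_cases ht : Thick (UU x ((k : ℝ) / N + y0) ((l : ℝ) / N2 + c k) * AA a b) j
    · rw [if_pos ht]
      exact Finset.sum_nonneg hnn
    · rw [if_neg ht]
      unfold Thick at ht
      push Not at ht
      obtain ⟨v, hv, hact⟩ := ht
      have a0 := hact 0
      have a1 := hact 1
      have a2 := hact 2
      obtain ⟨e0, e1, e2⟩ := act_UA x ((k : ℝ) / N + y0) ((l : ℝ) / N2 + c k) a b v
      rw [e0] at a0
      rw [e1] at a1
      rw [e2] at a2
      have hj : (1 / 2 : ℝ) ^ j = 2 ^ (-(j : ℤ)) := by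
        rw [_root_.zpow_neg, zpow_natCast]
        simp
      have scale : ∀ (m : ℤ) (t : ℝ), |2 ^ m * t| < (1 / 2 : ℝ) ^ j → |t| < 2 ^ (-m - j) := by
        intro m t h
        rw [abs_mul, abs_of_pos (by positivity : (0 : ℝ) < 2 ^ m), hj] at h
        have e : (2 : ℝ) ^ (-(j : ℤ)) = 2 ^ m * 2 ^ (-m - j) := by
          rw [← zpow_add₀ h20]
          congr 1
          ring
        rw [e] at h
        exact lt_of_mul_lt_mul_left h (by positivity)
      have b0 := scale _ _ a0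
      have b1 := scale _ _ a1
      have b2 := scale _ _ a2
      have one_le : ∀ w : ℤ, w ≠ 0 → (1 : ℝ) ≤ |(w : ℝ)| := by
        intro w hw
        have : (1 : ℤ) ≤ |w| := Int.one_le_abs hw
        have h' : ((1 : ℤ) : ℝ) ≤ ((|w| : ℤ) : ℝ) := by exact_mod_cast this
        push_cast at h'
        exact h'
      have hle1 : ∀ m : ℤ, m ≤ 0 → (2 : ℝ) ^ m ≤ 1 := by
        intro m hm
        have := zpow_le_zpow_right₀ (by norm_num : (1 : ℝ) ≤ 2) hm
        simpa using this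
      have hv2 : v 2 ≠ 0 := by
        intro c2
        rw [c2] at b1 b0
        by_cases c1 : v 1 = 0
        · rw [c1] at b0
          have c0 : v 0 ≠ 0 := by
            intro c0
            apply hv
            funext i
            fin_cases i
            · exact c0
            · exact c1
            · exact c2
          have h5 := one_le _ c0
          have h6 := hle1 (-(-a) - (j : ℤ)) (by omega)
          simp only [Int.cast_zero, mul_zero, sub_zero, add_zero] at b0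
          linarith
        · have h5 := one_le _ c1
          have h6 := hle1 (-(-b) - (j : ℤ)) (by omega)
          simp only [Int.cast_zero, mul_zero, sub_zero] at b1
          linarith
      -- v 2 is in Vs
      have hmem : v 2 ∈ Vs := by
        rw [hVs, Finset.mem_erase]
        refine ⟨hv2, ?_⟩
        have hb2 : |((v 2 : ℤ) : ℝ)| < V := by
          have : (-(a + b) - (j : ℤ)) = -(j : ℤ) - a - b := by ring
          rw [this] at b2
          exact b2
        have h7 : ((|v 2| : ℤ) : ℝ) ≤ V := by push_cast; exact hb2.le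
        have h8 : |v 2| ≤ ⌊V⌋ := Int.le_floor.mpr h7
        rw [Finset.mem_Icc]
        exact abs_le.mp h8
      have hKp : Kp (v 2) k := by
        refine ⟨v 1, ?_⟩
        have : (-(-b) - (j : ℤ)) = b - j := by ring
        rw [this] at b1
        have e : ((v 1 : ℤ) : ℝ) - (k : ℝ) / N * (v 2 : ℝ) - y0 * (v 2 : ℝ) =
          (v 1 : ℝ) - ((k : ℝ) / N + y0) * (v 2 : ℝ) := by ring
        rw [e]
        exact b1
      have hvv : vv (v 2) k = v 1 := by
        have h9 : vv (v 2) k = hKp.choose := dif_pos hKp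
        have h10 := hKp.choose_spec
        rw [← h9] at h10
        have : (-(-b) - (j : ℤ)) = b - j := by ring
        rw [this] at b1
        have e : (v 1 : ℝ) - ((k : ℝ) / N + y0) * (v 2 : ℝ) = 
          ((v 1 : ℤ) : ℝ) - (k : ℝ) / N * (v 2 : ℝ) - y0 * (v 2 : ℝ) := by ring
        rw [e] at b1
        have h11 : |((vv (v 2) k : ℤ) : ℝ) - (v 1 : ℝ)| < 1 := by
          have := abs_sub (((vv (v 2) k : ℤ) : ℝ) - (k : ℝ) / N * (v 2 : ℝ) - y0 * (v 2 : ℝ))
            (((v 1 : ℤ) : ℝ) - (k : ℝ) / N * (v 2 : ℝ) - y0 * (v 2 : ℝ))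
          have e' : (((vv (v 2) k : ℤ) : ℝ) - (k : ℝ) / N * (v 2 : ℝ) - y0 * (v 2 : ℝ)) -
            (((v 1 : ℤ) : ℝ) - (k : ℝ) / N * (v 2 : ℝ) - y0 * (v 2 : ℝ)) =
            ((vv (v 2) k : ℤ) : ℝ) - (v 1 : ℝ) := by ring
          rw [e'] at this
          linarith
        have h12 : |vv (v 2) k - v 1| < 1 := by exact_mod_cast h11
        have h13 := Int.abs_lt_one_iff.mp h12
        omega
      have hLp : Lp (v 2) k l := by
        refine ⟨v 0, ?_⟩
        have : (-(-a) - (j : ℤ)) = a - j := by ring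
        rw [this] at b0
        have e : ((v 0 : ℤ) : ℝ) - (l : ℝ) / N2 * (v 2 : ℝ) - cc (v 2) k =
          (v 0 : ℝ) - x * (v 1 : ℝ) + (x * ((k : ℝ) / N + y0) - ((l : ℝ) / N2 + c k)) * (v 2 : ℝ) := by
          simp only [cc, hvv]
          ring
        rw [e]
        exact b0
      have hterm : (1 : ℝ) = (if Kp (v 2) k then (if Lp (v 2) k l then (1 : ℝ) else 0) else 0) := by
        rw [if_pos hKp, if_pos hLp]
      exact hterm.le.trans (Finset.single_le_sum
        (f := fun w => (if Kp w k then (if Lp w k l then (1 : ℝ) else 0) else 0)) hnn hmem)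
  -- bound for the number of l
  have hw : ∀ w ∈ Vs, w ≠ 0 ∧ |(w : ℝ)| ≤ V := by
    intro w hw
    rw [hVs, Finset.mem_erase, Finset.mem_Icc] at hw
    refine ⟨hw.1, ?_⟩
    have h3 : |w| ≤ ⌊V⌋ := abs_le.mpr hw.2
    have h4 : ((|w| : ℤ) : ℝ) ≤ (⌊V⌋ : ℝ) := by exact_mod_cast h3
    push_cast at h4
    exact h4.trans (Int.floor_le V)
  have hL : ∀ w ∈ Vs, ∀ k, ∑ l ∈ Finset.range N2, (if Lp w k l then (1 : ℝ) else 0) ≤ 9 * δ1 * N2 := by
    intro w hwV k
    rw [Finset.sum_ite, Finset.sum_const_zero, add_zero, Finset.sum_const, nsmul_eq_mul, mul_one]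
    exact card_near N2 hN2pos w (hw w hwV).1 (cc w k) δ1 hδ10 hδ1h ((hw w hwV).2.trans hVN2)
  have hK : ∀ w ∈ Vs, ∑ k ∈ Finset.range N, (if Kp w k then (1 : ℝ) else 0) ≤ 9 * δ2 * N := by
    intro w hwV
    rw [Finset.sum_ite, Finset.sum_const_zero, add_zero, Finset.sum_const, nsmul_eq_mul, mul_one]
    exact card_near N hNpos w (hw w hwV).1 (y0 * w) δ2 hδ20 hδ2h ((hw w hwV).2.trans hVN)
  calc ∑ k ∈ Finset.range N, ∑ l ∈ Finset.range N2,
      (if Thick (UU x ((k : ℝ) / N + y0) ((l : ℝ) / N2 + c k) * AA a b) j then (0 : ℝ) else 1)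
      ≤ ∑ k ∈ Finset.range N, ∑ l ∈ Finset.range N2,
        ∑ w ∈ Vs, (if Kp w k then (if Lp w k l then (1 : ℝ) else 0) else 0) :=
        Finset.sum_le_sum fun k _ => Finset.sum_le_sum fun l _ => hincl k l
    _ = ∑ w ∈ Vs, ∑ k ∈ Finset.range N, ∑ l ∈ Finset.range N2,
        (if Kp w k then (if Lp w k l then (1 : ℝ) else 0) else 0) := by
        have e : ∀ k ∈ Finset.range N, (∑ l ∈ Finset.range N2, ∑ w ∈ Vs,
            (if Kp w k then (if Lp w k l then (1 : ℝ) else 0) else 0)) = ∑ w ∈ Vs,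
            ∑ l ∈ Finset.range N2, (if Kp w k then (if Lp w k l then (1 : ℝ) else 0) else 0) :=
          fun k _ => Finset.sum_comm
        rw [Finset.sum_congr rfl e, Finset.sum_comm]
    _ ≤ ∑ w ∈ Vs, ∑ k ∈ Finset.range N, (if Kp w k then (1 : ℝ) else 0) * (9 * δ1 * N2) := by
        refine Finset.sum_le_sum fun w hwV => Finset.sum_le_sum fun k _ => ?_
        by_cases hk : Kp w k
        · simp only [if_pos hk, one_mul]
          exact hL w hwV k
        · simp only [if_neg hk, zero_mul, Finset.sum_const_zero]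
          exact le_refl _
    _ ≤ ∑ w ∈ Vs, (9 * δ2 * N) * (9 * δ1 * N2) := by
        refine Finset.sum_le_sum fun w hwV => ?_
        rw [← Finset.sum_mul]
        exact mul_le_mul_of_nonneg_right (hK w hwV) (by positivity)
    _ ≤ (2 * V) * ((9 * δ2 * N) * (9 * δ1 * N2)) := by
        rw [Finset.sum_const, nsmul_eq_mul]
        exact mul_le_mul_of_nonneg_right hVcard (by positivity)
    _ = 162 * (V * δ1 * δ2) * (N * N2) := by ring
    _ = 162 * (1 / 8) ^ j * ((N : ℝ) * N2) := by rw [hprod]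

/-- the average of `tau` over the grid is bounded -/
theorem tau_sum (a b : ℤ) (ha : a ≤ -1) (hb : b ≤ -1) (K : ℕ) (h1 : -a - 2 * b ≤ K)
    (h2 : -2 * a - b ≤ 2 * K) (x y0 : ℝ) (c : ℕ → ℝ) :
    ∑ k ∈ Finset.range (2 ^ K), ∑ l ∈ Finset.range (2 ^ (2 * K)),
      (tau (UU x ((k : ℝ) / (2 ^ K : ℕ) + y0) ((l : ℝ) / (2 ^ (2 * K) : ℕ) + c k) * AA a b) : ℝ) ≤
      186 * ((2 ^ K : ℕ) * (2 ^ (2 * K) : ℕ)) := by
  classical
  set J := a.natAbs + b.natAbs with hJ
  have hone : ∀ k l : ℕ,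
      (tau (UU x ((k : ℝ) / (2 ^ K : ℕ) + y0) ((l : ℝ) / (2 ^ (2 * K) : ℕ) + c k) * AA a b) : ℝ) ≤
      ∑ j ∈ Finset.range J, (if Thick (UU x ((k : ℝ) / (2 ^ K : ℕ) + y0)
        ((l : ℝ) / (2 ^ (2 * K) : ℕ) + c k) * AA a b) j then (0 : ℝ) else 1) := by
    intro k l
    set g := UU x ((k : ℝ) / (2 ^ K : ℕ) + y0) ((l : ℝ) / (2 ^ (2 * K) : ℕ) + c k) * AA a b with hg
    have hle : tau g ≤ J := tau_UA_le _ _ _ a b
    have e : (tau g : ℝ) = ∑ j ∈ Finset.range (tau g), (1 : ℝ) := by simp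
    rw [e]
    calc ∑ j ∈ Finset.range (tau g), (1 : ℝ) ≤ ∑ j ∈ Finset.range (tau g), (if Thick g j then (0 : ℝ) else 1) := by
          refine Finset.sum_le_sum fun j hj => ?_
          rw [if_neg (not_thick_of_lt (Finset.mem_range.mp hj))]
      _ ≤ ∑ j ∈ Finset.range J, (if Thick g j then (0 : ℝ) else 1) := by
          refine Finset.sum_le_sum_of_subset_of_nonneg (Finset.range_subset_range.mpr hle) fun j _ _ => ?_
          split_ifs <;> norm_num
  calc ∑ k ∈ Finset.range (2 ^ K), ∑ l ∈ Finset.range (2 ^ (2 * K)),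
      (tau (UU x ((k : ℝ) / (2 ^ K : ℕ) + y0) ((l : ℝ) / (2 ^ (2 * K) : ℕ) + c k) * AA a b) : ℝ)
      ≤ ∑ k ∈ Finset.range (2 ^ K), ∑ l ∈ Finset.range (2 ^ (2 * K)),
        ∑ j ∈ Finset.range J, (if Thick (UU x ((k : ℝ) / (2 ^ K : ℕ) + y0)
        ((l : ℝ) / (2 ^ (2 * K) : ℕ) + c k) * AA a b) j then (0 : ℝ) else 1) :=
        Finset.sum_le_sum fun k _ => Finset.sum_le_sum fun l _ => hone k l
    _ = ∑ j ∈ Finset.range J, ∑ k ∈ Finset.range (2 ^ K), ∑ l ∈ Finset.range (2 ^ (2 * K)),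
        (if Thick (UU x ((k : ℝ) / (2 ^ K : ℕ) + y0)
        ((l : ℝ) / (2 ^ (2 * K) : ℕ) + c k) * AA a b) j then (0 : ℝ) else 1) := by
        rw [Finset.sum_congr rfl (fun k _ => Finset.sum_comm), Finset.sum_comm]
    _ ≤ ∑ j ∈ Finset.range J, (162 : ℝ) * (1 / 8) ^ j * ((2 ^ K : ℕ) * (2 ^ (2 * K) : ℕ)) :=
        Finset.sum_le_sum fun j _ => thin_count a b ha hb K h1 h2 x y0 c j
    _ = ((162 : ℝ) * ((2 ^ K : ℕ) * (2 ^ (2 * K) : ℕ))) * ∑ j ∈ Finset.range J, (1 / 8 : ℝ) ^ j := by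
        rw [Finset.mul_sum]
        refine Finset.sum_congr rfl fun j _ => by ring
    _ ≤ ((162 : ℝ) * ((2 ^ K : ℕ) * (2 ^ (2 * K) : ℕ))) * (8 / 7) := by
        refine mul_le_mul_of_nonneg_left ?_ (by positivity)
        have h := geom_sum_eq (x := (1 / 8 : ℝ)) (by norm_num) J
        rw [h]
        have : (0 : ℝ) < (1 / 8) ^ J := by positivity
        rw [div_le_iff_of_neg (by norm_num)]
        linarith
    _ ≤ (186 : ℝ) * ((2 ^ K : ℕ) * (2 ^ (2 * K) : ℕ)) := by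
        have : (0 : ℝ) ≤ ((2 ^ K : ℕ) * (2 ^ (2 * K) : ℕ)) := by positivity
        linarith

end Pool.Agent.Lib.MP_c058bc_gt
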