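import Pool.Agent.Lib.MP_c058bc_gt.Planar
import Pool.Agent.Lib.MP_c058bc_gt.Cone

/-!
The key inequality for kernels of `L¹` type on five copies of the plane.
-/

set_option autoImplicit false

namespace Pool.Agent.Lib.MP_c058bc_gt

open MeasureTheory Filter

/-- five planes -/
abbrev YY := Fin 5 × PP2

/-- pairs of points which should be close -/
def Glue (p q : YY) : Prop :=
  (p.1 = 0 ∧ q.1 = 1 ∧ p.2 = q.2 ∧ 1 ≤ ra p.2) ∨ (p.1 = 1 ∧ q.1 = 2 ∧ p.2 = q.2 ∧ 1 ≤ rb p.2) ∨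
  (p.1 = 2 ∧ q.1 = 3 ∧ p.2 = q.2 ∧ 1 ≤ ra p.2) ∨ (p.1 = 3 ∧ q.1 = 4 ∧ p.2 = q.2 ∧ 1 ≤ rb p.2) ∨
  (p.1 = 0 ∧ q.1 = 4 ∧ p.2 = q.2 ∧ 2 ≤ rs p.2)

/-- the constraints -/
abbrev Con := {t : Fin 5 × ℝ × PP2 × PP2 // 0 ≤ t.2.1 ∧ t.2.1 ≤ 1} ⊕ {g : YY × YY // Glue g.1 g.2}

/-- the defect of a constraint -/
noncomputable def defect (c : Con) (ρ : YY → YY → ℝ) : ℝ :=
  match c with
  | Sum.inl t => ρ (t.1.1, t.1.2.2.1) (t.1.1, mid t.1.2.1 t.1.2.2.1 t.1.2.2.2) +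
      ρ (t.1.1, mid t.1.2.1 t.1.2.2.1 t.1.2.2.2) (t.1.1, t.1.2.2.2) -
      ρ (t.1.1, t.1.2.2.1) (t.1.1, t.1.2.2.2)
  | Sum.inr g => ρ g.1.1 g.1.2

/-- satisfied constraints for a cut -/
def Sat (e : YY → Bool) (c : Con) : Prop :=
  match c with
  | Sum.inl t => e (t.1.1, t.1.2.2.1) = e (t.1.1, t.1.2.2.2) →
      e (t.1.1, mid t.1.2.1 t.1.2.2.1 t.1.2.2.2) = e (t.1.1, t.1.2.2.1)
  | Sum.inr g => e g.1.1 = e g.1.2

lemma cutK_nonneg {Y : Type} (e : Y → Bool) (p q : Y) : 0 ≤ cutK e p q := by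
  unfold cutK
  split_ifs <;> norm_num

lemma cutK_ne {Y : Type} {e : Y → Bool} {p q : Y} (h : e p ≠ e q) : cutK e p q = 1 := by
  unfold cutK
  rw [if_neg h]

lemma cutK_eq {Y : Type} {e : Y → Bool} {p q : Y} (h : e p = e q) : cutK e p q = 0 := by
  unfold cutK
  rw [if_pos h]

lemma cutK_triangle {Y : Type} (e : Y → Bool) (p q r : Y) : cutK e p r ≤ cutK e p q + cutK e q r := by
  by_cases h : e p = e r
  · rw [cutK_eq h]
    exact add_nonneg (cutK_nonneg _ _ _) (cutK_nonneg _ _ _)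
  · rw [cutK_ne h]
    by_cases h1 : e p = e q
    · have h2 : e q ≠ e r := fun h' => h (h1.trans h')
      rw [cutK_ne h2]
      linarith [cutK_nonneg e p q]
    · rw [cutK_ne h1]
      linarith [cutK_nonneg e q r]

lemma defect_nonneg (e : YY → Bool) (c : Con) : 0 ≤ defect c (cutK e) := by
  rcases c with t | g
  · simp only [defect]
    linarith [cutK_triangle e (t.1.1, t.1.2.2.1) (t.1.1, mid t.1.2.1 t.1.2.2.1 t.1.2.2.2) (t.1.1, t.1.2.2.2)]
  · exact cutK_nonneg _ _ _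

lemma one_le_defect {e : YY → Bool} {c : Con} (h : ¬ Sat e c) : 1 ≤ defect c (cutK e) := by
  rcases c with t | g
  · simp only [Sat, Classical.not_imp] at h
    obtain ⟨h1, h2⟩ := h
    simp only [defect]
    rw [cutK_eq h1, cutK_ne (fun h' => h2 h'.symm)]
    linarith [cutK_nonneg e (t.1.1, mid t.1.2.1 t.1.2.2.1 t.1.2.2.2) (t.1.1, t.1.2.2.2)]
  · simp only [Sat] at h
    simp only [defect]
    rw [cutK_ne h]

lemma isClosed_sat (c : Con) : IsClosed {e : YY → Bool | Sat e c} := by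
  rcases c with t | g
  · have : {e : YY → Bool | Sat e (Sum.inl t)} = (fun e : YY → Bool =>
        (e (t.1.1, t.1.2.2.1), e (t.1.1, t.1.2.2.2), e (t.1.1, mid t.1.2.1 t.1.2.2.1 t.1.2.2.2))) ⁻¹'
        {s : Bool × Bool × Bool | s.1 = s.2.1 → s.2.2 = s.1} := rfl
    rw [this]
    exact (isClosed_discrete _).preimage
      ((continuous_apply _).prodMk ((continuous_apply _).prodMk (continuous_apply _)))
  · have : {e : YY → Bool | Sat e (Sum.inr g)} = (fun e : YY → Bool => (e g.1.1, e g.1.2)) ⁻¹'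
        {s : Bool × Bool | s.1 = s.2} := rfl
    rw [this]
    exact (isClosed_discrete _).preimage ((continuous_apply _).prodMk (continuous_apply _))

/-- pairs near the two base points -/
def nearPairs (ε : ℝ) : List (YY × YY) :=
  [((0, (ε, ε)), (0, (0, 0))), ((0, (ε, -ε)), (0, (0, 0))), ((0, (-ε, ε)), (0, (0, 0))),
    ((0, (-ε, -ε)), (0, (0, 0))), ((4, (-ε, -ε)), (4, (0, 0)))]

/-- the near part of the key inequality -/
noncomputable def nearSum (ε : ℝ) (ρ : YY → YY → ℝ) : ℝ :=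
  ρ (0, (ε, ε)) (0, (0, 0)) + (ρ (0, (ε, -ε)) (0, (0, 0)) + (ρ (0, (-ε, ε)) (0, (0, 0)) +
    (ρ (0, (-ε, -ε)) (0, (0, 0)) + ρ (4, (-ε, -ε)) (4, (0, 0)))))

/-- cuts which separate the two base points but nothing near them -/
def bad (ε : ℝ) : Set (YY → Bool) :=
  {e | e (0, (0, 0)) ≠ e (4, (0, 0)) ∧ e (0, (ε, ε)) = e (0, (0, 0)) ∧ e (0, (ε, -ε)) = e (0, (0, 0)) ∧
    e (0, (-ε, ε)) = e (0, (0, 0)) ∧ e (0, (-ε, -ε)) = e (0, (0, 0)) ∧ e (4, (-ε, -ε)) = e (4, (0, 0))}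

lemma isClosed_eval2 (R : Bool → Bool → Prop) (p q : YY) : IsClosed {e : YY → Bool | R (e p) (e q)} := by
  have : {e : YY → Bool | R (e p) (e q)} = (fun e : YY → Bool => (e p, e q)) ⁻¹'
        {s : Bool × Bool | R s.1 s.2} := rfl
  rw [this]
  exact (isClosed_discrete _).preimage ((continuous_apply _).prodMk (continuous_apply _))

lemma isClosed_bad (ε : ℝ) : IsClosed (bad ε) := by
  unfold bad
  simp only [Set.ofPred_and]
  refine IsClosed.inter (isClosed_eval2 (fun a b => a ≠ b) _ _) ?_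
  refine IsClosed.inter (isClosed_eval2 (fun a b => a = b) _ _) ?_
  refine IsClosed.inter (isClosed_eval2 (fun a b => a = b) _ _) ?_
  refine IsClosed.inter (isClosed_eval2 (fun a b => a = b) _ _) ?_
  refine IsClosed.inter (isClosed_eval2 (fun a b => a = b) _ _) ?_
  exact isClosed_eval2 (fun a b => a = b) _ _

lemma sat_half {e : YY → Bool} (h : ∀ c, Sat e c) (i : Fin 5) : Half (fun x => e (i, x) = true) := by
  intro t x y h0 h1
  have hs := h (Sum.inl ⟨(i, t, x, y), h0, h1⟩)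
  simp only [Sat] at hs
  constructor
  · intro hx hy
    rw [hs (by rw [hx, hy]), hx]
  · intro hx hy
    rw [Bool.not_eq_true] at hx hy ⊢
    rw [hs (by rw [hx, hy]), hx]

lemma sat_glue {e : YY → Bool} (h : ∀ c, Sat e c) {p q : YY} (hg : Glue p q) : e p = e q :=
  h (Sum.inr ⟨(p, q), hg⟩)

lemma no_bad {ε : ℝ} (hε : 0 < ε) {e : YY → Bool} (h : ∀ c, Sat e c) (hb : e ∈ bad ε) : False := by
  obtain ⟨b0, b1, b2, b3, b4, b5⟩ := hb
  have key := chain_planar (E0 := fun x => e (0, x) = true) (E1 := fun x => e (1, x) = true)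
    (E2 := fun x => e (2, x) = true) (E3 := fun x => e (3, x) = true) (E4 := fun x => e (4, x) = true)
    (sat_half h 0) (sat_half h 1) (sat_half h 2) (sat_half h 3) (sat_half h 4)
    (fun x hx => by rw [sat_glue h (p := (0, x)) (q := (1, x)) (Or.inl ⟨rfl, rfl, rfl, hx⟩)])
    (fun x hx => by rw [sat_glue h (p := (1, x)) (q := (2, x)) (Or.inr (Or.inl ⟨rfl, rfl, rfl, hx⟩))])
    (fun x hx => by
      rw [sat_glue h (p := (2, x)) (q := (3, x)) (Or.inr (Or.inr (Or.inl ⟨rfl, rfl, rfl, hx⟩)))])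
    (fun x hx => by
      rw [sat_glue h (p := (3, x)) (q := (4, x)) (Or.inr (Or.inr (Or.inr (Or.inl ⟨rfl, rfl, rfl, hx⟩))))])
    (fun x hx => by
      rw [sat_glue h (p := (0, x)) (q := (4, x)) (Or.inr (Or.inr (Or.inr (Or.inr ⟨rfl, rfl, rfl, hx⟩))))])
    hε (by rw [b1]) (by rw [b2]) (by rw [b3]) (by rw [b4]) (by rw [b5])
  apply b0
  rcases h1 : e (0, (0, 0)) with _ | _ <;> rcases h2 : e (4, (0, 0)) with _ | _
  · rfl
  · rw [h1, h2] at key
    simp at key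
  · rw [h1, h2] at key
    simp at key
  · rfl

lemma exists_finite {ε : ℝ} (hε : 0 < ε) : ∃ u : Finset Con, ∀ e ∈ bad ε, ∃ c ∈ u, ¬ Sat e c := by
  have hK : IsCompact (bad ε) := (isClosed_bad ε).isCompact
  obtain ⟨u, hu⟩ := hK.elim_finite_subfamily_closed (fun c : Con => {e : YY → Bool | Sat e c})
    (fun c => isClosed_sat c) (by
      rw [Set.eq_empty_iff_forall_notMem]
      rintro e ⟨he1, he2⟩
      refine no_bad hε (fun c => ?_) he1
      exact Set.mem_iInter.mp he2 c)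
  refine ⟨u, fun e he => ?_⟩
  by_contra hcon
  push Not at hcon
  have : e ∈ bad ε ∩ ⋂ c ∈ u, {e : YY → Bool | Sat e c} := by
    refine ⟨he, ?_⟩
    simp only [Set.mem_iInter]
    exact hcon
  rw [hu] at this
  exact this

lemma FF.defect (c : Con) : FF (fun ρ : YY → YY → ℝ => defect c ρ) := by
  rcases c with t | g
  · have h := FF.add _ _ (FF.add _ _
      (FF.ev 1 (t.1.1, t.1.2.2.1) (t.1.1, mid t.1.2.1 t.1.2.2.1 t.1.2.2.2))
      (FF.ev 1 (t.1.1, mid t.1.2.1 t.1.2.2.1 t.1.2.2.2) (t.1.1, t.1.2.2.2)))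
      (FF.ev (-1) ((t.1.1, t.1.2.2.1) : YY) (t.1.1, t.1.2.2.2))
    have e : (fun ρ : YY → YY → ℝ => MP_c058bc_gt.defect (Sum.inl t) ρ) = fun ρ =>
        1 * ρ (t.1.1, t.1.2.2.1) (t.1.1, mid t.1.2.1 t.1.2.2.1 t.1.2.2.2) +
        1 * ρ (t.1.1, mid t.1.2.1 t.1.2.2.1 t.1.2.2.2) (t.1.1, t.1.2.2.2) +
        -1 * ρ (t.1.1, t.1.2.2.1) (t.1.1, t.1.2.2.2) := by
      funext ρ
      simp only [MP_c058bc_gt.defect]
      ring
    rw [e]
    exact h
  · have h := FF.ev 1 g.1.1 g.1.2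
    simpa [MP_c058bc_gt.defect] using h

/-- **Key inequality.** -/
theorem key_ineq {ε : ℝ} (hε : 0 < ε) : ∃ u : Finset Con, ∀ ρ : YY → YY → ℝ, Cone ρ →
    ρ (0, (0, 0)) (4, (0, 0)) ≤ nearSum ε ρ + ∑ c ∈ u, defect c ρ := by
  classical
  obtain ⟨u0, hu0⟩ := exists_finite hε
  -- make the finite set nonempty
  let c0 : Con := Sum.inl ⟨(0, 0, (0, 0), (0, 0)), le_refl _, zero_le_one⟩
  set u := insert c0 u0 with hu
  have hune : u.Nonempty := ⟨c0, Finset.mem_insert_self _ _⟩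
  refine ⟨u, fun ρ hρ => ?_⟩
  have hT : FF (fun ρ : YY → YY → ℝ => -1 * ρ (0, (0, 0)) (4, (0, 0)) +
      ((1 * ρ (0, (ε, ε)) (0, (0, 0)) + (1 * ρ (0, (ε, -ε)) (0, (0, 0)) +
      (1 * ρ (0, (-ε, ε)) (0, (0, 0)) +
        (1 * ρ (0, (-ε, -ε)) (0, (0, 0)) + 1 * ρ (4, (-ε, -ε)) (4, (0, 0)))))) +
        ∑ c ∈ u, defect c ρ)) := by
    refine FF.add _ _ (FF.ev _ _ _) (FF.add _ _ (FF.add _ _ (FF.ev _ _ _) (FF.add _ _ (FF.ev _ _ _)
      (FF.add _ _ (FF.ev _ _ _) (FF.add _ _ (FF.ev _ _ _) (FF.ev _ _ _))))) ?_)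
    exact FF.sum u hune _ fun c _ => FF.defect c
  have h := hρ _ hT fun e => ?_
  · unfold nearSum
    linarith
  · have hdef : ∀ c ∈ u, 0 ≤ defect c (cutK e) := fun c _ => defect_nonneg e c
    have hsum : 0 ≤ ∑ c ∈ u, defect c (cutK e) := Finset.sum_nonneg hdef
    have n1 := cutK_nonneg e (0, (ε, ε)) (0, (0, 0))
    have n2 := cutK_nonneg e (0, (ε, -ε)) (0, (0, 0))
    have n3 := cutK_nonneg e (0, (-ε, ε)) (0, (0, 0))
    have n4 := cutK_nonneg e (0, (-ε, -ε)) (0, (0, 0))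
    have n5 := cutK_nonneg e (4, (-ε, -ε)) (4, (0, 0))
    by_cases h0 : e (0, (0, 0)) = e (4, (0, 0))
    · rw [cutK_eq h0]
      linarith
    · rw [cutK_ne h0]
      by_cases h1 : e (0, (ε, ε)) = e (0, (0, 0))
      swap
      · rw [cutK_ne h1]; linarith
      by_cases h2 : e (0, (ε, -ε)) = e (0, (0, 0))
      swap
      · rw [cutK_ne h2]; linarith
      by_cases h3 : e (0, (-ε, ε)) = e (0, (0, 0))
      swap
      · rw [cutK_ne h3]; linarith
      by_cases h4 : e (0, (-ε, -ε)) = e (0, (0, 0))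
      swap
      · rw [cutK_ne h4]; linarith
      by_cases h5 : e (4, (-ε, -ε)) = e (4, (0, 0))
      swap
      · rw [cutK_ne h5]; linarith
      obtain ⟨c, hc, hcs⟩ := hu0 e ⟨h0, h1, h2, h3, h4, h5⟩
      have h6 := one_le_defect hcs
      have h7 : defect c (cutK e) ≤ ∑ c ∈ u, defect c (cutK e) :=
        Finset.single_le_sum hdef (Finset.mem_insert_of_mem hc)
      linarith

end Pool.Agent.Lib.MP_c058bc_gt
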