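import Pool.Agent.Lib.MP_c058bc_gt.Norm

/-!
Every length function on `SL_3(ℤ)` is bounded by an affine function of the logarithm of the size of
the matrix (the theorem of Lubotzky, Mozes and Raghunathan for `SL_3(ℤ)`).
-/

set_option autoImplicit false

namespace Pool.Agent.Lib.MP_c058bc_gt

open Matrix

/-- a length function on a group -/
structure IsLen {G : Type} [Group G] (w : G → ℝ) : Prop where
  nonneg : ∀ g, 0 ≤ w g
  mul_le : ∀ g h, w (g * h) ≤ w g + w h
  inv_eq : ∀ g, w g⁻¹ = w g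

def E12 (m : ℤ) : Z3 := ⟨!![1, m, 0; 0, 1, 0; 0, 0, 1], by simp [Matrix.det_fin_three]⟩
def E13 (m : ℤ) : Z3 := ⟨!![1, 0, m; 0, 1, 0; 0, 0, 1], by simp [Matrix.det_fin_three]⟩
def E23 (m : ℤ) : Z3 := ⟨!![1, 0, 0; 0, 1, m; 0, 0, 1], by simp [Matrix.det_fin_three]⟩
def E21 (m : ℤ) : Z3 := ⟨!![1, 0, 0; m, 1, 0; 0, 0, 1], by simp [Matrix.det_fin_three]⟩
def E31 (m : ℤ) : Z3 := ⟨!![1, 0, 0; 0, 1, 0; m, 0, 1], by simp [Matrix.det_fin_three]⟩
def E32 (m : ℤ) : Z3 := ⟨!![1, 0, 0; 0, 1, 0; 0, m, 1], by simp [Matrix.det_fin_three]⟩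

/-- translations `(a, b)` -/
def TT (a b : ℤ) : Z3 := ⟨!![1, 0, a; 0, 1, b; 0, 0, 1], by simp [Matrix.det_fin_three]⟩

/-- a hyperbolic element -/
def BB : Z3 := ⟨!![2, 1, 0; 1, 1, 0; 0, 0, 1], by simp [Matrix.det_fin_three]⟩

lemma TT_mul (a b c d : ℤ) : TT a b * TT c d = TT (a + c) (b + d) := by
  apply Subtype.ext
  rw [Matrix.SpecialLinearGroup.coe_mul]
  simp only [TT]
  ext i j
  fin_cases i <;> fin_cases j <;>
    simp [Matrix.mul_apply, Fin.sum_univ_three, add_comm]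

lemma TT_zero : TT 0 0 = 1 := by
  ext i j
  fin_cases i <;> fin_cases j <;> simp [TT]

lemma TT_inv (a b : ℤ) : (TT a b)⁻¹ = TT (-a) (-b) := by
  rw [inv_eq_iff_mul_eq_one, TT_mul]
  simp [TT_zero]

lemma BB_TT (a b : ℤ) : BB * TT a b * BB⁻¹ = TT (2 * a + b) (a + b) := by
  rw [mul_inv_eq_iff_eq_mul]
  apply Subtype.ext
  simp only [Matrix.SpecialLinearGroup.coe_mul]
  simp only [TT, BB]
  ext i j
  fin_cases i <;> fin_cases j <;>
    simp [Matrix.mul_apply, Fin.sum_univ_three]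

lemma BB_TT' (a b : ℤ) : BB⁻¹ * TT a b * BB = TT (a - b) (-a + 2 * b) := by
  rw [mul_assoc, inv_mul_eq_iff_eq_mul]
  apply Subtype.ext
  simp only [Matrix.SpecialLinearGroup.coe_mul]
  simp only [TT, BB]
  ext i j
  fin_cases i <;> fin_cases j <;>
    simp [Matrix.mul_apply, Fin.sum_univ_three] <;> ring

/-- first entries of the powers of the hyperbolic element -/
def pq : ℕ → ℤ × ℤ
  | 0 => (1, 0)
  | n + 1 => (2 * (pq n).1 + (pq n).2, (pq n).1 + (pq n).2)

/-- traces of the powers of the hyperbolic element -/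
def LL (n : ℕ) : ℤ := 2 * (pq n).1 - (pq n).2

lemma pq_bounds (n : ℕ) : 0 ≤ (pq n).2 ∧ 4 * (pq n).2 ≤ 3 * (pq n).1 ∧ 1 ≤ (pq n).1 := by
  induction n with
  | zero => simp [pq]
  | succ n ih =>
    obtain ⟨h1, h2, h3⟩ := ih
    simp only [pq]
    refine ⟨by linarith, by linarith, by linarith⟩

lemma LL_succ_le (n : ℕ) : LL (n + 1) ≤ 3 * LL n := by
  obtain ⟨h1, h2, h3⟩ := pq_bounds n
  simp only [LL, pq]
  linarith

lemma LL_succ_ge (n : ℕ) : 3 * LL n ≤ 2 * LL (n + 1) := by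
  obtain ⟨h1, h2, h3⟩ := pq_bounds n
  simp only [LL, pq]
  linarith

lemma LL_pos (n : ℕ) : 1 ≤ LL n := by
  obtain ⟨h1, h2, h3⟩ := pq_bounds n
  simp only [LL]
  linarith

lemma LL_grow (n : ℕ) : (3 / 2 : ℝ) ^ n ≤ (LL n : ℝ) := by
  induction n with
  | zero => simp [LL, pq]
  | succ n ih =>
    have h := LL_succ_ge n
    have h' : (3 : ℝ) * (LL n : ℝ) ≤ 2 * (LL (n + 1) : ℝ) := by exact_mod_cast h
    rw [pow_succ]
    linarith

lemma digits_exist (J : ℕ) : ∀ m : ℤ, 0 ≤ m → m < LL J →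
    ∃ (d : ℕ → ℤ) (r : ℤ), (∀ i, 0 ≤ d i ∧ d i ≤ 2) ∧ (0 ≤ r ∧ r ≤ 1) ∧
      m = r + ∑ i ∈ Finset.range J, d i * LL i := by
  induction J with
  | zero =>
    intro m h0 h1
    refine ⟨fun _ => 0, m, fun i => by simp, ⟨h0, ?_⟩, by simp⟩
    have : LL 0 = 2 := by simp [LL, pq]
    omega
  | succ J ih =>
    intro m h0 h1
    have hp := LL_pos J
    have hq0 : 0 ≤ m / LL J := Int.ediv_nonneg h0 (by linarith)
    have hq2 : m / LL J ≤ 2 := by
      have h3 := LL_succ_le J
      have : m / LL J < 3 := by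
        rw [Int.ediv_lt_iff_lt_mul (by linarith)]
        linarith
      omega
    obtain ⟨d, r, hd, hr, hm⟩ := ih (m % LL J) (Int.emod_nonneg _ (by linarith))
      (Int.emod_lt_of_pos _ (by linarith))
    refine ⟨fun i => if i = J then m / LL J else d i, r, ?_, hr, ?_⟩
    · intro i
      dsimp only
      split_ifs
      · exact ⟨hq0, hq2⟩
      · exact hd i
    · rw [Finset.sum_range_succ]
      simp only [if_true]
      have : ∑ i ∈ Finset.range J, (if i = J then m / LL J else d i) * LL i =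
          ∑ i ∈ Finset.range J, d i * LL i := by
        refine Finset.sum_congr rfl fun i hi => ?_
        rw [if_neg (by simp at hi; omega)]
      rw [this]
      have := Int.emod_add_mul_ediv m (LL J)
      linarith

section

variable {w : Z3 → ℝ}

lemma w_sum (hw : IsLen w) {C : ℝ} (hC : ∀ a : ℤ, 0 ≤ a → a ≤ 2 → w (TT a 0) + 2 * w BB ≤ C) (J : ℕ) :
    ∀ d : ℕ → ℤ, (∀ i, 0 ≤ d i ∧ d i ≤ 2) →
    w (TT (∑ i ∈ Finset.range J, d i * (pq i).1) (∑ i ∈ Finset.range J, d i * (pq i).2)) ≤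
      w 1 + J * C ∧
    w (TT (∑ i ∈ Finset.range J, d i * ((pq i).1 - (pq i).2))
      (∑ i ∈ Finset.range J, d i * (-(pq i).2))) ≤ w 1 + J * C := by
  induction J with
  | zero => intro d _; simp [TT_zero]
  | succ J ih =>
    intro d hd
    obtain ⟨h1, h2⟩ := ih (fun i => d (i + 1)) (fun i => hd (i + 1))
    constructor
    · set P := ∑ i ∈ Finset.range J, d (i + 1) * (pq i).1 with hP
      set Q := ∑ i ∈ Finset.range J, d (i + 1) * (pq i).2 with hQ
      have e1 : ∑ i ∈ Finset.range (J + 1), d i * (pq i).1 = d 0 + (2 * P + Q) := by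
        rw [Finset.sum_range_succ', hP, hQ, Finset.mul_sum, ← Finset.sum_add_distrib]
        simp only [pq]
        rw [add_comm]
        congr 1
        · ring
        · refine Finset.sum_congr rfl fun i _ => by ring
      have e2 : ∑ i ∈ Finset.range (J + 1), d i * (pq i).2 = 0 + (P + Q) := by
        rw [Finset.sum_range_succ', hP, hQ, ← Finset.sum_add_distrib]
        simp only [pq]
        rw [add_comm]
        congr 1
        · ring
        · refine Finset.sum_congr rfl fun i _ => by ring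
      rw [e1, e2, ← TT_mul, ← BB_TT]
      have a1 := hw.mul_le (TT (d 0) 0) (BB * TT P Q * BB⁻¹)
      have a2 := hw.mul_le (BB * TT P Q) BB⁻¹
      have a3 := hw.mul_le BB (TT P Q)
      have a4 := hw.inv_eq BB
      have a5 := hC (d 0) (hd 0).1 (hd 0).2
      push_cast
      linarith
    · set P := ∑ i ∈ Finset.range J, d (i + 1) * ((pq i).1 - (pq i).2) with hP
      set Q := ∑ i ∈ Finset.range J, d (i + 1) * (-(pq i).2) with hQ
      have e1 : ∑ i ∈ Finset.range (J + 1), d i * ((pq i).1 - (pq i).2) = d 0 + (P - Q) := by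
        rw [Finset.sum_range_succ', hP, hQ, ← Finset.sum_sub_distrib]
        simp only [pq]
        rw [add_comm]
        congr 1
        · ring
        · refine Finset.sum_congr rfl fun i _ => by ring
      have e2 : ∑ i ∈ Finset.range (J + 1), d i * (-(pq i).2) = 0 + (-P + 2 * Q) := by
        rw [Finset.sum_range_succ', hP, hQ, Finset.mul_sum, ← Finset.sum_neg_distrib,
          ← Finset.sum_add_distrib]
        simp only [pq]
        rw [add_comm]
        congr 1
        · ring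
        · refine Finset.sum_congr rfl fun i _ => by ring
      rw [e1, e2, ← TT_mul, ← BB_TT']
      have a1 := hw.mul_le (TT (d 0) 0) (BB⁻¹ * TT P Q * BB)
      have a2 := hw.mul_le (BB⁻¹ * TT P Q) BB
      have a3 := hw.mul_le BB⁻¹ (TT P Q)
      have a4 := hw.inv_eq BB
      have a5 := hC (d 0) (hd 0).1 (hd 0).2
      push_cast
      linarith

/-- logarithmic size of an integer -/
noncomputable def lg (m : ℤ) : ℝ := 1 + Real.log (1 + |(m : ℝ)|)

lemma lg_ge_one (m : ℤ) : 1 ≤ lg m := by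
  unfold lg
  have : 0 ≤ Real.log (1 + |(m : ℝ)|) := Real.log_nonneg (by linarith [abs_nonneg (m : ℝ)])
  linarith

lemma lg_neg (m : ℤ) : lg (-m) = lg m := by
  unfold lg
  push_cast
  rw [abs_neg]

lemma E13_eq (m : ℤ) : E13 m = TT m 0 := rfl

lemma w_E13_nonneg_int (hw : IsLen w) : ∃ C : ℝ, 0 ≤ C ∧ ∀ m : ℤ, 0 ≤ m → w (E13 m) ≤ C * lg m := by
  set C0 : ℝ := w (TT 0 0) + w (TT 1 0) + w (TT 2 0) + 2 * w BB with hC0
  have hC0' : ∀ a : ℤ, 0 ≤ a → a ≤ 2 → w (TT a 0) + 2 * w BB ≤ C0 := by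
    intro a h0 h2
    have n0 := hw.nonneg (TT 0 0)
    have n1 := hw.nonneg (TT 1 0)
    have n2 := hw.nonneg (TT 2 0)
    interval_cases a <;> rw [hC0] <;> linarith
  have hC0n : 0 ≤ C0 := by
    have n0 := hw.nonneg (TT 0 0)
    have n1 := hw.nonneg (TT 1 0)
    have n2 := hw.nonneg (TT 2 0)
    have n3 := hw.nonneg BB
    rw [hC0]; linarith
  have hl : 0 < Real.log (3 / 2) := Real.log_pos (by norm_num)
  refine ⟨(C0 + 2 * w 1 + 2 * C0) + 2 * C0 / Real.log (3 / 2), ?_, ?_⟩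
  · have := hw.nonneg 1
    positivity
  intro m hm
  -- choose J minimal with m < LL J
  have hex : ∃ J : ℕ, m < LL J := by
    obtain ⟨J, hJ⟩ := pow_unbounded_of_one_lt (m : ℝ) (show (1 : ℝ) < 3 / 2 by norm_num)
    refine ⟨J, ?_⟩
    have := hJ.trans_le (LL_grow J)
    exact_mod_cast this
  classical
  set J := Nat.find hex with hJdef
  have hJ : m < LL J := Nat.find_spec hex
  obtain ⟨d, r, hd, hr, hmeq⟩ := digits_exist J m hm hJ
  obtain ⟨s1, s2⟩ := w_sum hw hC0' J d hd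
  have hJle : (J : ℝ) ≤ 1 + Real.log (1 + |(m : ℝ)|) / Real.log (3 / 2) := by
    rcases Nat.eq_zero_or_pos J with h0 | hpos
    · rw [h0]
      have : 0 ≤ Real.log (1 + |(m : ℝ)|) := Real.log_nonneg (by linarith [abs_nonneg (m : ℝ)])
      have : 0 ≤ Real.log (1 + |(m : ℝ)|) / Real.log (3 / 2) := by positivity
      push_cast
      linarith
    · obtain ⟨k, hk⟩ : ∃ k, J = k + 1 := ⟨J - 1, by omega⟩
      have hnot : ¬ m < LL k := Nat.find_min hex (by omega)
      push Not at hnot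
      have h1 : (3 / 2 : ℝ) ^ k ≤ 1 + |(m : ℝ)| := by
        have h2 : ((LL k : ℤ) : ℝ) ≤ (m : ℝ) := by exact_mod_cast hnot
        have h3 := LL_grow k
        have h4 := le_abs_self (m : ℝ)
        linarith
      have h5 : (k : ℝ) * Real.log (3 / 2) ≤ Real.log (1 + |(m : ℝ)|) := by
        rw [← Real.log_pow]
        exact Real.log_le_log (by positivity) h1
      rw [hk]
      push_cast
      have h6 : (k : ℝ) ≤ Real.log (1 + |(m : ℝ)|) / Real.log (3 / 2) := by
        rw [le_div_iff₀ hl]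
        exact h5
      linarith
  have hsum : E13 m = TT r 0 * (TT (∑ i ∈ Finset.range J, d i * (pq i).1)
      (∑ i ∈ Finset.range J, d i * (pq i).2) * TT (∑ i ∈ Finset.range J, d i * ((pq i).1 - (pq i).2))
      (∑ i ∈ Finset.range J, d i * (-(pq i).2))) := by
    rw [TT_mul, TT_mul, E13_eq]
    congr 1
    · rw [hmeq, ← Finset.sum_add_distrib]
      congr 1
      refine Finset.sum_congr rfl fun i _ => ?_
      simp only [LL]
      ring
    · rw [← Finset.sum_add_distrib]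
      symm
      rw [zero_add]
      exact Finset.sum_eq_zero fun i _ => by ring
  rw [hsum]
  have b1 := hw.mul_le (TT r 0) (TT (∑ i ∈ Finset.range J, d i * (pq i).1)
      (∑ i ∈ Finset.range J, d i * (pq i).2) * TT (∑ i ∈ Finset.range J, d i * ((pq i).1 - (pq i).2))
      (∑ i ∈ Finset.range J, d i * (-(pq i).2)))
  have b2 := hw.mul_le (TT (∑ i ∈ Finset.range J, d i * (pq i).1)
      (∑ i ∈ Finset.range J, d i * (pq i).2)) (TT (∑ i ∈ Finset.range J, d i * ((pq i).1 - (pq i).2))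
      (∑ i ∈ Finset.range J, d i * (-(pq i).2)))
  have b3 := hC0' r hr.1 (by linarith [hr.2])
  have n3 := hw.nonneg BB
  have n1 := hw.nonneg 1
  have hlg := lg_ge_one m
  have hA : w (TT r 0 * (TT (∑ i ∈ Finset.range J, d i * (pq i).1)
      (∑ i ∈ Finset.range J, d i * (pq i).2) * TT (∑ i ∈ Finset.range J, d i * ((pq i).1 - (pq i).2))
      (∑ i ∈ Finset.range J, d i * (-(pq i).2)))) ≤ C0 + 2 * w 1 + 2 * (J * C0) := by linarith
  refine hA.trans ?_
  have hB : (J : ℝ) * C0 ≤ (1 + Real.log (1 + |(m : ℝ)|) / Real.log (3 / 2)) * C0 :=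
    mul_le_mul_of_nonneg_right hJle hC0n
  have hlog : Real.log (1 + |(m : ℝ)|) = lg m - 1 := by unfold lg; ring
  have hC : C0 + 2 * w 1 + 2 * (J * C0) ≤
      (C0 + 2 * w 1 + 2 * C0) + 2 * C0 / Real.log (3 / 2) * (lg m - 1) := by
    rw [hlog] at hB
    have : 2 * C0 / Real.log (3 / 2) * (lg m - 1) = 2 * ((lg m - 1) / Real.log (3 / 2) * C0) := by ring
    rw [this]
    linarith
  refine hC.trans ?_
  have hD : 0 ≤ 2 * C0 / Real.log (3 / 2) := by positivity
  nlinarith

lemma w_E13 (hw : IsLen w) : ∃ C : ℝ, 0 ≤ C ∧ ∀ m : ℤ, w (E13 m) ≤ C * lg m := by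
  obtain ⟨C, hC0, hC⟩ := w_E13_nonneg_int hw
  refine ⟨C, hC0, fun m => ?_⟩
  rcases le_total 0 m with h | h
  · exact hC m h
  · have h1 : E13 m = (E13 (-m))⁻¹ := by
      rw [E13_eq, E13_eq, TT_inv]
      simp
    rw [h1, hw.inv_eq, ← lg_neg m]
    exact hC _ (by linarith)

lemma w_comm4 (hw : IsLen w) (a b a' b' : Z3) : w (a * b * a' * b') ≤ w a + w b + w a' + w b' := by
  have h1 := hw.mul_le (a * b * a') b'
  have h2 := hw.mul_le (a * b) a'
  have h3 := hw.mul_le a b
  linarith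

lemma w_all (hw : IsLen w) : ∃ C : ℝ, 0 ≤ C ∧ ∀ m : ℤ, w (E13 m) ≤ C * lg m ∧ w (E12 m) ≤ C * lg m ∧
    w (E23 m) ≤ C * lg m ∧ w (E21 m) ≤ C * lg m ∧ w (E32 m) ≤ C * lg m := by
  obtain ⟨C, hC0, hC⟩ := w_E13 hw
  have e12 : ∀ m, E12 m = E13 m * E32 1 * E13 (-m) * E32 (-1) := by
    intro m
    apply Subtype.ext
    simp only [Matrix.SpecialLinearGroup.coe_mul]
    simp only [E12, E13, E32]
    ext i j
    fin_cases i <;> fin_cases j <;>
      simp [Matrix.mul_apply, Fin.sum_univ_three]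
  have e23 : ∀ m, E23 m = E21 1 * E13 m * E21 (-1) * E13 (-m) := by
    intro m
    apply Subtype.ext
    simp only [Matrix.SpecialLinearGroup.coe_mul]
    simp only [E21, E13, E23]
    ext i j
    fin_cases i <;> fin_cases j <;>
      simp [Matrix.mul_apply, Fin.sum_univ_three]
  have e21 : ∀ m, E21 m = E23 m * E31 1 * E23 (-m) * E31 (-1) := by
    intro m
    apply Subtype.ext
    simp only [Matrix.SpecialLinearGroup.coe_mul]
    simp only [E21, E31, E23]
    ext i j
    fin_cases i <;> fin_cases j <;>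
      simp [Matrix.mul_apply, Fin.sum_univ_three]
  have e32 : ∀ m, E32 m = E31 1 * E12 m * E31 (-1) * E12 (-m) := by
    intro m
    apply Subtype.ext
    simp only [Matrix.SpecialLinearGroup.coe_mul]
    simp only [E12, E31, E32]
    ext i j
    fin_cases i <;> fin_cases j <;>
      simp [Matrix.mul_apply, Fin.sum_univ_three]
  set K : ℝ := w (E32 1) + w (E32 (-1)) + w (E21 1) + w (E21 (-1)) + w (E31 1) + w (E31 (-1)) with hK
  have hK0 : 0 ≤ K := by
    have := hw.nonneg (E32 1)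
    have := hw.nonneg (E32 (-1))
    have := hw.nonneg (E21 1)
    have := hw.nonneg (E21 (-1))
    have := hw.nonneg (E31 1)
    have := hw.nonneg (E31 (-1))
    linarith
  have n1 := hw.nonneg (E32 1)
  have n2 := hw.nonneg (E32 (-1))
  have n3 := hw.nonneg (E21 1)
  have n4 := hw.nonneg (E21 (-1))
  have n5 := hw.nonneg (E31 1)
  have n6 := hw.nonneg (E31 (-1))
  refine ⟨4 * C + 10 * K, by positivity, fun m => ?_⟩
  have hl := lg_ge_one m
  have h13 : ∀ m, w (E13 m) ≤ C * lg m := hC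
  have h12 : ∀ m, w (E12 m) ≤ 2 * (C * lg m) + K := by
    intro m
    rw [e12 m]
    have := w_comm4 hw (E13 m) (E32 1) (E13 (-m)) (E32 (-1))
    have a1 := hC m
    have a2 := hC (-m)
    rw [lg_neg] at a2
    linarith
  have h23 : ∀ m, w (E23 m) ≤ 2 * (C * lg m) + K := by
    intro m
    rw [e23 m]
    have := w_comm4 hw (E21 1) (E13 m) (E21 (-1)) (E13 (-m))
    have a1 := hC m
    have a2 := hC (-m)
    rw [lg_neg] at a2
    linarith
  have h21 : ∀ m, w (E21 m) ≤ 4 * (C * lg m) + 3 * K := by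
    intro m
    rw [e21 m]
    have := w_comm4 hw (E23 m) (E31 1) (E23 (-m)) (E31 (-1))
    have a1 := h23 m
    have a2 := h23 (-m)
    rw [lg_neg] at a2
    linarith
  have h32 : ∀ m, w (E32 m) ≤ 4 * (C * lg m) + 3 * K := by
    intro m
    rw [e32 m]
    have := w_comm4 hw (E31 1) (E12 m) (E31 (-1)) (E12 (-m))
    have a1 := h12 m
    have a2 := h12 (-m)
    rw [lg_neg] at a2
    linarith
  have hCl : 0 ≤ C * lg m := by positivity
  have hKl : K ≤ K * lg m := by nlinarith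
  have e : (4 * C + 10 * K) * lg m = 4 * (C * lg m) + 10 * (K * lg m) := by ring
  rw [e]
  refine ⟨?_, ?_, ?_, ?_, ?_⟩
  · linarith [h13 m]
  · linarith [h12 m]
  · linarith [h23 m]
  · linarith [h21 m]
  · linarith [h32 m]

end

end Pool.Agent.Lib.MP_c058bc_gt
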