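import Pool.Agent.Lib.MP_c058bc_gt.LMR

/-!
Second part of the comparison of length functions on `SL_3(ℤ)`: Euclid's algorithm.
-/

set_option autoImplicit false

namespace Pool.Agent.Lib.MP_c058bc_gt

open Matrix

/-- `2 × 2` integer matrices of determinant one -/
abbrev Z2 := Matrix.SpecialLinearGroup (Fin 2) ℤ

/-- elementary matrix -/
def e12 (m : ℤ) : Z2 := ⟨!![1, m; 0, 1], by simp [Matrix.det_fin_two]⟩
/-- rotation -/
def rot : Z2 := ⟨!![0, 1; -1, 0], by simp [Matrix.det_fin_two]⟩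

lemma lg_nonneg (m : ℤ) : 0 ≤ lg m := by linarith [lg_ge_one m]

lemma e12_mulVec (m a c : ℤ) : (e12 m : Matrix (Fin 2) (Fin 2) ℤ) *ᵥ ![a, c] = ![a + m * c, c] := by
  ext i
  fin_cases i <;> simp [e12, Matrix.mulVec, dotProduct, Fin.sum_univ_two]

lemma rot_mulVec (a c : ℤ) : (rot : Matrix (Fin 2) (Fin 2) ℤ) *ᵥ ![a, c] = ![c, -a] := by
  ext i
  fin_cases i <;> simp [rot, Matrix.mulVec, dotProduct, Fin.sum_univ_two]

lemma euclid_ge {w : Z2 → ℝ} (hw : IsLen w) {K : ℝ} (hK : ∀ m, w (e12 m) ≤ K * lg m)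
    (n : ℕ) : ∀ a c : ℤ, c.natAbs ≤ n → c.natAbs ≤ a.natAbs →
      ∃ (M : Z2) (g : ℤ), (M : Matrix (Fin 2) (Fin 2) ℤ) *ᵥ ![a, c] = ![g, 0] ∧
        w M ≤ w 1 + (3 * (K + w rot)) * (Real.log (1 + |(a : ℝ)|) + Real.log (1 + |(c : ℝ)|)) := by
  have hK0 : 0 ≤ K := by
    have h1 := hK 0
    have h2 := hw.nonneg (e12 0)
    have h3 := lg_ge_one 0
    nlinarith
  have hR := hw.nonneg rot
  have hlog : ∀ a : ℤ, 0 ≤ Real.log (1 + |(a : ℝ)|) := fun a =>
    Real.log_nonneg (by linarith [abs_nonneg (a : ℝ)])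
  induction n with
  | zero =>
    intro a c hc _
    have : c = 0 := by omega
    subst this
    refine ⟨1, a, by simp, ?_⟩
    have := hlog a
    have := hlog 0
    have : 0 ≤ (3 * (K + w rot)) * (Real.log (1 + |(a : ℝ)|) + Real.log (1 + |((0 : ℤ) : ℝ)|)) := by
      positivity
    linarith
  | succ n ih =>
    intro a c hc hac
    by_cases hc0 : c = 0
    · subst hc0
      refine ⟨1, a, by simp, ?_⟩
      have := hlog a
      have := hlog 0
      have : 0 ≤ (3 * (K + w rot)) * (Real.log (1 + |(a : ℝ)|) + Real.log (1 + |((0 : ℤ) : ℝ)|)) := by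
        positivity
      linarith
    set q := a.tdiv c with hq
    set r := a.tmod c with hr
    have hqr : a = c * q + r := (Int.mul_tdiv_add_tmod a c).symm
    have hrabs : r.natAbs = a.natAbs % c.natAbs := Int.natAbs_tmod a c
    have hqabs : q.natAbs = a.natAbs / c.natAbs := Int.natAbs_tdiv a c
    have hcpos : 0 < c.natAbs := Int.natAbs_pos.mpr hc0
    have hrlt : r.natAbs < c.natAbs := by
      rw [hrabs]
      exact Nat.mod_lt _ hcpos
    obtain ⟨M, g, hM, hwM⟩ := ih c (-r) (by rw [Int.natAbs_neg]; omega) (by rw [Int.natAbs_neg]; omega)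
    refine ⟨M * (rot * e12 (-q)), g, ?_, ?_⟩
    · rw [Matrix.SpecialLinearGroup.coe_mul, Matrix.SpecialLinearGroup.coe_mul, ← Matrix.mulVec_mulVec,
        ← Matrix.mulVec_mulVec, e12_mulVec, rot_mulVec, ← hM]
      congr 2
      have : a + -q * c = r := by rw [hqr]; ring
      rw [this]
    · have h1 := hw.mul_le M (rot * e12 (-q))
      have h2 := hw.mul_le rot (e12 (-q))
      have h3 := hK (-q)
      rw [lg_neg] at h3
      -- key inequality
      have hmulN : (1 + q.natAbs) * (1 + r.natAbs) ≤ 1 + a.natAbs := by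
        have e := Nat.div_add_mod a.natAbs c.natAbs
        rw [← hqabs, ← hrabs] at e
        nlinarith
      have hq1 : 1 ≤ q.natAbs := by
        rw [hqabs]
        exact (Nat.one_le_div_iff hcpos).mpr hac
      have cast : ∀ z : ℤ, |(z : ℝ)| = (z.natAbs : ℝ) := by
        intro z
        rw [Nat.cast_natAbs]
        push_cast
        rfl
      have hmulR : (1 + |(q : ℝ)|) * (1 + |(r : ℝ)|) ≤ 1 + |(a : ℝ)| := by
        rw [cast, cast, cast]
        exact_mod_cast hmulN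
      have hq1R : (1 : ℝ) ≤ |(q : ℝ)| := by
        rw [cast]
        exact_mod_cast hq1
      have hlogmul : Real.log (1 + |(q : ℝ)|) + Real.log (1 + |(r : ℝ)|) ≤
          Real.log (1 + |(a : ℝ)|) := by
        rw [← Real.log_mul (by positivity) (by positivity)]
        exact Real.log_le_log (by positivity) hmulR
      have hlog2 : Real.log 2 ≤ Real.log (1 + |(q : ℝ)|) :=
        Real.log_le_log (by norm_num) (by linarith)
      have hl2 : (0.5 : ℝ) < Real.log 2 := by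
        have := Real.log_two_gt_d9
        linarith
      have h4 : lg q ≤ 3 * Real.log (1 + |(q : ℝ)|) := by
        unfold lg
        linarith
      have h5 : |((-r : ℤ) : ℝ)| = |(r : ℝ)| := by push_cast; rw [abs_neg]
      rw [h5] at hwM
      have h6 : w (M * (rot * e12 (-q))) ≤ w 1 + (3 * (K + w rot)) *
          (Real.log (1 + |(c : ℝ)|) + Real.log (1 + |(r : ℝ)|)) + w rot + K * lg q := by
        linarith
      refine h6.trans ?_
      have h7 : K * lg q ≤ K * (3 * Real.log (1 + |(q : ℝ)|)) := mul_le_mul_of_nonneg_left h4 hK0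
      have h8 : w rot ≤ w rot * (3 * Real.log (1 + |(q : ℝ)|)) := by
        nlinarith
      have h9 : (3 * (K + w rot)) * (Real.log (1 + |(q : ℝ)|) + Real.log (1 + |(r : ℝ)|)) ≤
          (3 * (K + w rot)) * Real.log (1 + |(a : ℝ)|) :=
        mul_le_mul_of_nonneg_left hlogmul (by positivity)
      nlinarith

lemma euclid {w : Z2 → ℝ} (hw : IsLen w) {K : ℝ} (hK : ∀ m, w (e12 m) ≤ K * lg m) :
    ∃ C : ℝ, 0 ≤ C ∧ ∀ a c : ℤ, ∃ (M : Z2) (g : ℤ),
      (M : Matrix (Fin 2) (Fin 2) ℤ) *ᵥ ![a, c] = ![g, 0] ∧ w M ≤ C * (lg a + lg c) := by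
  have hK0 : 0 ≤ K := by
    have h1 := hK 0
    have h2 := hw.nonneg (e12 0)
    have h3 := lg_ge_one 0
    nlinarith
  have hR := hw.nonneg rot
  have h1 := hw.nonneg 1
  refine ⟨w 1 + w rot + 3 * (K + w rot), by positivity, fun a c => ?_⟩
  have la := lg_ge_one a
  have lc := lg_ge_one c
  rcases le_total c.natAbs a.natAbs with h | h
  · obtain ⟨M, g, hM, hwM⟩ := euclid_ge hw hK c.natAbs a c le_rfl h
    refine ⟨M, g, hM, ?_⟩
    have e1 : Real.log (1 + |(a : ℝ)|) = lg a - 1 := by unfold lg; ring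
    have e2 : Real.log (1 + |(c : ℝ)|) = lg c - 1 := by unfold lg; ring
    rw [e1, e2] at hwM
    nlinarith
  · obtain ⟨M, g, hM, hwM⟩ := euclid_ge hw hK a.natAbs c (-a) (by simp) (by simpa using h)
    refine ⟨M * rot, g, ?_, ?_⟩
    · rw [Matrix.SpecialLinearGroup.coe_mul, ← Matrix.mulVec_mulVec, rot_mulVec, hM]
    have e1 : Real.log (1 + |((-a : ℤ) : ℝ)|) = lg a - 1 := by
      unfold lg
      push_cast
      rw [abs_neg]
      ring
    have e2 : Real.log (1 + |(c : ℝ)|) = lg c - 1 := by unfold lg; ring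
    rw [e1, e2] at hwM
    have := hw.mul_le M rot
    nlinarith

/-- upper left block -/
def blkAm (M : Z2) : Z3 := ⟨!![M 0 0, M 0 1, 0; M 1 0, M 1 1, 0; 0, 0, 1], by
    have h := M.det_coe
    rw [Matrix.det_fin_two] at h
    simp [Matrix.det_fin_three]
    linarith⟩

/-- upper left block -/
def blkA : Z2 →* Z3 where
  toFun := blkAm
  map_one' := by
    apply Subtype.ext
    simp only [blkAm]
    ext i j
    fin_cases i <;> fin_cases j <;> simp
  map_mul' M N := by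
    apply Subtype.ext
    rw [Matrix.SpecialLinearGroup.coe_mul]
    simp only [blkAm, Matrix.SpecialLinearGroup.coe_mul]
    ext i j
    fin_cases i <;> fin_cases j <;>
      simp [Matrix.mul_apply, Fin.sum_univ_three, Fin.sum_univ_two]

/-- lower right block -/
def blkBm (M : Z2) : Z3 := ⟨!![1, 0, 0; 0, M 0 0, M 0 1; 0, M 1 0, M 1 1], by
    have h := M.det_coe
    rw [Matrix.det_fin_two] at h
    simp [Matrix.det_fin_three]
    linarith⟩

/-- lower right block -/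
def blkB : Z2 →* Z3 where
  toFun := blkBm
  map_one' := by
    apply Subtype.ext
    simp only [blkBm]
    ext i j
    fin_cases i <;> fin_cases j <;> simp
  map_mul' M N := by
    apply Subtype.ext
    rw [Matrix.SpecialLinearGroup.coe_mul]
    simp only [blkBm, Matrix.SpecialLinearGroup.coe_mul]
    ext i j
    fin_cases i <;> fin_cases j <;>
      simp [Matrix.mul_apply, Fin.sum_univ_three, Fin.sum_univ_two]

lemma blkA_e12 (m : ℤ) : blkA (e12 m) = E12 m := by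
  apply Subtype.ext
  show ((blkAm (e12 m) : Z3) : Matrix (Fin 3) (Fin 3) ℤ) = _
  simp [blkAm, e12, E12]

lemma blkB_e12 (m : ℤ) : blkB (e12 m) = E23 m := by
  apply Subtype.ext
  show ((blkBm (e12 m) : Z3) : Matrix (Fin 3) (Fin 3) ℤ) = _
  simp [blkBm, e12, E23]

lemma IsLen.comp {G H : Type} [Group G] [Group H] {w : H → ℝ} (hw : IsLen w) (f : G →* H) :
    IsLen (fun g => w (f g)) where
  nonneg g := hw.nonneg _
  mul_le g h := by
    rw [map_mul]
    exact hw.mul_le _ _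
  inv_eq g := by
    rw [map_inv]
    exact hw.inv_eq _

lemma isLen_len : IsLen (fun γ : Z3 => len (toR γ)) where
  nonneg _ := len_nonneg _
  mul_le g h := by
    rw [map_mul]
    exact len_mul_le _ _
  inv_eq g := by
    rw [map_inv]
    exact len_inv _

lemma IsLen.add {G : Type} [Group G] {w w' : G → ℝ} (hw : IsLen w) (hw' : IsLen w') :
    IsLen (fun g => w g + w' g) where
  nonneg g := add_nonneg (hw.nonneg _) (hw'.nonneg _)
  mul_le g h := by
    have := hw.mul_le g h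
    have := hw'.mul_le g h
    linarith
  inv_eq g := by rw [hw.inv_eq, hw'.inv_eq]

lemma lg_entry_le (γ : Z3) (i j : Fin 3) : lg (γ i j) ≤ 2 + len (toR γ) := by
  unfold lg
  have h1 := abs_le_nrm ((toR γ : G3) : Matrix (Fin 3) (Fin 3) ℝ) i j
  rw [toR_apply] at h1
  have h2 := one_le_nrm (toR γ)
  have h3 : Real.log (1 + |((γ i j : ℤ) : ℝ)|) ≤
      Real.log (2 * nrm ((toR γ : G3) : Matrix (Fin 3) (Fin 3) ℝ)) := by
    refine Real.log_le_log (by positivity) (by linarith)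
  rw [Real.log_mul (by norm_num) (by positivity)] at h3
  have h4 := log_nrm_le_len (toR γ)
  have h5 : Real.log 2 ≤ 1 := by
    have := Real.log_two_lt_d9
    linarith
  linarith

lemma upper_eq (p q r : ℤ) (γ : Z3) (h : (γ : Matrix (Fin 3) (Fin 3) ℤ) = !![1, p, q; 0, 1, r; 0, 0, 1]) :
    γ = E23 r * E13 q * E12 p := by
  apply Subtype.ext
  rw [h]
  simp only [Matrix.SpecialLinearGroup.coe_mul]
  simp only [E12, E13, E23]
  ext i j
  fin_cases i <;> fin_cases j <;>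
    simp [Matrix.mul_apply, Fin.sum_univ_three]

lemma blkA_mul (M : Z2) (γ : Z3) (j : Fin 3) :
    (blkA M * γ) 0 j = M 0 0 * γ 0 j + M 0 1 * γ 1 j ∧
    (blkA M * γ) 1 j = M 1 0 * γ 0 j + M 1 1 * γ 1 j ∧ (blkA M * γ) 2 j = γ 2 j := by
  have h : ((blkA M * γ : Z3) : Matrix (Fin 3) (Fin 3) ℤ) = (blkAm M : Matrix (Fin 3) (Fin 3) ℤ) * γ := rfl
  rw [h]
  simp [blkAm, Matrix.mul_apply, Fin.sum_univ_three]

lemma blkB_mul (M : Z2) (γ : Z3) (j : Fin 3) :
    (blkB M * γ) 0 j = γ 0 j ∧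
    (blkB M * γ) 1 j = M 0 0 * γ 1 j + M 0 1 * γ 2 j ∧
    (blkB M * γ) 2 j = M 1 0 * γ 1 j + M 1 1 * γ 2 j := by
  have h : ((blkB M * γ : Z3) : Matrix (Fin 3) (Fin 3) ℤ) = (blkBm M : Matrix (Fin 3) (Fin 3) ℤ) * γ := rfl
  rw [h]
  simp [blkBm, Matrix.mul_apply, Fin.sum_univ_three]

lemma mulVec_two (M : Z2) (a c g : ℤ)
    (h : (M : Matrix (Fin 2) (Fin 2) ℤ) *ᵥ ![a, c] = ![g, 0]) :
    M 0 0 * a + M 0 1 * c = g ∧ M 1 0 * a + M 1 1 * c = 0 := by
  have h0 := congrFun h 0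
  have h1 := congrFun h 1
  simp [Matrix.mulVec, dotProduct, Fin.sum_univ_two] at h0 h1
  exact ⟨h0, h1⟩

/-- a length function which dominates `len` and is logarithmic on elementary matrices -/
structure GoodLen (W : Z3 → ℝ) : Prop where
  isLen : IsLen W
  len_le : ∀ γ, len (toR γ) ≤ W γ

lemma stepB {W : Z3 → ℝ} (hW : GoodLen W) : ∃ C : ℝ, 0 ≤ C ∧ ∀ (δ : Z3) (j : Fin 3), ∃ M : Z3,
    (∀ k, (M * δ) 0 k = δ 0 k) ∧ (M * δ) 2 j = 0 ∧
    (∀ k, δ 1 k = 0 → δ 2 k = 0 → (M * δ) 1 k = 0 ∧ (M * δ) 2 k = 0) ∧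
    W M ≤ C * (1 + len (toR δ)) := by
  obtain ⟨K, hK0, hK⟩ := w_all hW.isLen
  obtain ⟨C, hC0, hC⟩ := euclid (hW.isLen.comp blkB) (K := K)
    (fun m => by rw [blkB_e12]; exact (hK m).2.2.1)
  refine ⟨C * 4, by positivity, fun δ j => ?_⟩
  obtain ⟨M, g, hM, hwM⟩ := hC (δ 1 j) (δ 2 j)
  obtain ⟨hM1, hM2⟩ := mulVec_two M _ _ _ hM
  refine ⟨blkB M, fun k => (blkB_mul M δ k).1, ?_, ?_, ?_⟩
  · rw [(blkB_mul M δ j).2.2, hM2]
  · intro k h1 h2
    rw [(blkB_mul M δ k).2.1, (blkB_mul M δ k).2.2, h1, h2]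
    simp
  · have h1 := lg_entry_le δ 1 j
    have h2 := lg_entry_le δ 2 j
    have h3 := len_nonneg (toR δ)
    have h4 : C * (lg (δ 1 j) + lg (δ 2 j)) ≤ C * (4 * (1 + len (toR δ))) :=
      mul_le_mul_of_nonneg_left (by linarith) hC0
    linarith

lemma stepA {W : Z3 → ℝ} (hW : GoodLen W) : ∃ C : ℝ, 0 ≤ C ∧ ∀ (δ : Z3) (j : Fin 3), ∃ M : Z3,
    (∀ k, (M * δ) 2 k = δ 2 k) ∧ (M * δ) 1 j = 0 ∧
    W M ≤ C * (1 + len (toR δ)) := by
  obtain ⟨K, hK0, hK⟩ := w_all hW.isLen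
  obtain ⟨C, hC0, hC⟩ := euclid (hW.isLen.comp blkA) (K := K)
    (fun m => by rw [blkA_e12]; exact (hK m).2.1)
  refine ⟨C * 4, by positivity, fun δ j => ?_⟩
  obtain ⟨M, g, hM, hwM⟩ := hC (δ 0 j) (δ 1 j)
  obtain ⟨hM1, hM2⟩ := mulVec_two M _ _ _ hM
  refine ⟨blkA M, fun k => (blkA_mul M δ k).2.2, ?_, ?_⟩
  · rw [(blkA_mul M δ j).2.1, hM2]
  · have h1 := lg_entry_le δ 0 j
    have h2 := lg_entry_le δ 1 j
    have h3 := len_nonneg (toR δ)
    have h4 : C * (lg (δ 0 j) + lg (δ 1 j)) ≤ C * (4 * (1 + len (toR δ))) :=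
      mul_le_mul_of_nonneg_left (by linarith) hC0
    linarith

/-- diagonal sign matrix -/
def sA : Z3 := ⟨!![-1, 0, 0; 0, -1, 0; 0, 0, 1], by simp [Matrix.det_fin_three]⟩
/-- diagonal sign matrix -/
def sB : Z3 := ⟨!![1, 0, 0; 0, -1, 0; 0, 0, -1], by simp [Matrix.det_fin_three]⟩

lemma sA_mul (γ : Z3) (j : Fin 3) : (sA * γ) 0 j = - γ 0 j ∧ (sA * γ) 1 j = - γ 1 j ∧
    (sA * γ) 2 j = γ 2 j := by
  have h : ((sA * γ : Z3) : Matrix (Fin 3) (Fin 3) ℤ) = (sA : Matrix (Fin 3) (Fin 3) ℤ) * γ := rfl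
  rw [h]
  simp [sA, Matrix.mul_apply, Fin.sum_univ_three]

lemma sB_mul (γ : Z3) (j : Fin 3) : (sB * γ) 0 j = γ 0 j ∧ (sB * γ) 1 j = - γ 1 j ∧
    (sB * γ) 2 j = - γ 2 j := by
  have h : ((sB * γ : Z3) : Matrix (Fin 3) (Fin 3) ℤ) = (sB : Matrix (Fin 3) (Fin 3) ℤ) * γ := rfl
  rw [h]
  simp [sB, Matrix.mul_apply, Fin.sum_univ_three]

lemma det_entriesZ (g : Z3) :
    g 0 0 * g 1 1 * g 2 2 - g 0 0 * g 1 2 * g 2 1 - g 0 1 * g 1 0 * g 2 2 +
      g 0 1 * g 1 2 * g 2 0 + g 0 2 * g 1 0 * g 2 1 - g 0 2 * g 1 1 * g 2 0 = (1 : ℤ) := by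
  have h := g.det_coe
  rw [Matrix.det_fin_three] at h
  exact h

/-- one step of the comparison -/
lemma step_bound {W : Z3 → ℝ} (hW : GoodLen W) {C : ℝ} (M δ : Z3) (hM : W M ≤ C * (1 + len (toR δ))) :
    W δ ≤ C * (1 + len (toR δ)) + W (M * δ) ∧ 1 + len (toR (M * δ)) ≤ (1 + C) * (1 + len (toR δ)) := by
  constructor
  · have h1 := hW.isLen.mul_le M⁻¹ (M * δ)
    rw [inv_mul_cancel_left, hW.isLen.inv_eq] at h1
    linarith
  · rw [map_mul]
    have h1 := len_mul_le (toR M) (toR δ)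
    have h2 := hW.len_le M
    linarith

lemma lmr_good {W : Z3 → ℝ} (hW : GoodLen W) : ∃ C : ℝ, 0 ≤ C ∧ ∀ γ : Z3, W γ ≤ C * (1 + len (toR γ)) := by
  obtain ⟨K, hK0, hK⟩ := w_all hW.isLen
  obtain ⟨CB, hCB0, hB⟩ := stepB hW
  obtain ⟨CA, hCA0, hA⟩ := stepA hW
  set CS := W sA + W sB with hCS
  have hsA := hW.isLen.nonneg sA
  have hsB := hW.isLen.nonneg sB
  have hCS0 : 0 ≤ CS := by linarith
  -- upper triangular unipotent
  have hU : ∀ γ : Z3, γ 0 0 = 1 → γ 1 0 = 0 → γ 2 0 = 0 → γ 1 1 = 1 → γ 2 1 = 0 → γ 2 2 = 1 →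
      W γ ≤ (6 * K) * (1 + len (toR γ)) := by
    intro γ h00 h10 h20 h11 h21 h22
    have he : γ = E23 (γ 1 2) * E13 (γ 0 2) * E12 (γ 0 1) := by
      apply upper_eq
      ext i j
      fin_cases i <;> fin_cases j <;> simp [h00, h10, h20, h11, h21, h22]
    have hb : W γ ≤ K * lg (γ 1 2) + K * lg (γ 0 2) + K * lg (γ 0 1) := by
      have h1 := hW.isLen.mul_le (E23 (γ 1 2) * E13 (γ 0 2)) (E12 (γ 0 1))
      have h2 := hW.isLen.mul_le (E23 (γ 1 2)) (E13 (γ 0 2))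
      rw [← he] at h1
      have a1 := (hK (γ 1 2)).2.2.1
      have a2 := (hK (γ 0 2)).1
      have a3 := (hK (γ 0 1)).2.1
      linarith
    have l1 := lg_entry_le γ 1 2
    have l2 := lg_entry_le γ 0 2
    have l3 := lg_entry_le γ 0 1
    have l0 := len_nonneg (toR γ)
    have : K * (lg (γ 1 2) + lg (γ 0 2) + lg (γ 0 1)) ≤ K * (6 * (1 + len (toR γ))) :=
      mul_le_mul_of_nonneg_left (by linarith) hK0
    linarith
  -- first column and (1,1) entry reduced up to sign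
  have hS2 : ∀ γ : Z3, γ 0 0 = 1 → γ 1 0 = 0 → γ 2 0 = 0 → γ 2 1 = 0 →
      W γ ≤ (CS + 6 * K * (1 + CS)) * (1 + len (toR γ)) := by
    intro γ h00 h10 h20 h21
    have hd := det_entriesZ γ
    rw [h00, h10, h20, h21] at hd
    have hd' : γ 1 1 * γ 2 2 = 1 := by linarith
    have l0 := len_nonneg (toR γ)
    rcases Int.mul_eq_one_iff_eq_one_or_neg_one.mp hd' with ⟨h11, h22⟩ | ⟨h11, h22⟩
    · have := hU γ h00 h10 h20 h11 h21 h22
      have h1 : (6 * K) * (1 + len (toR γ)) ≤ (CS + 6 * K * (1 + CS)) * (1 + len (toR γ)) := by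
        refine mul_le_mul_of_nonneg_right ?_ (by linarith)
        nlinarith [mul_nonneg hK0 hCS0]
      linarith
    · have hs : W sB ≤ CS * (1 + len (toR γ)) := by nlinarith
      obtain ⟨b1, b2⟩ := step_bound hW sB γ hs
      have := hU (sB * γ) (by rw [(sB_mul γ 0).1, h00]) (by rw [(sB_mul γ 0).2.1, h10]; simp)
        (by rw [(sB_mul γ 0).2.2, h20]; simp) (by rw [(sB_mul γ 1).2.1, h11]; simp)
        (by rw [(sB_mul γ 1).2.2, h21]; simp) (by rw [(sB_mul γ 2).2.2, h22]; simp)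
      have h6 : (6 * K) * (1 + len (toR (sB * γ))) ≤ (6 * K) * ((1 + CS) * (1 + len (toR γ))) :=
        mul_le_mul_of_nonneg_left b2 (by positivity)
      nlinarith
  set K2 := CS + 6 * K * (1 + CS) with hK2
  have hK20 : 0 ≤ K2 := by positivity
  -- first column reduced
  have hS3 : ∀ γ : Z3, γ 0 0 = 1 → γ 1 0 = 0 → γ 2 0 = 0 →
      W γ ≤ (CB + K2 * (1 + CB)) * (1 + len (toR γ)) := by
    intro γ h00 h10 h20
    obtain ⟨M, hM0, hM2, hMk, hMW⟩ := hB γ 1
    obtain ⟨b1, b2⟩ := step_bound hW M γ hMW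
    have := hS2 (M * γ) (by rw [hM0, h00]) (hMk 0 h10 h20).1 (hMk 0 h10 h20).2 hM2
    have h6 : K2 * (1 + len (toR (M * γ))) ≤ K2 * ((1 + CB) * (1 + len (toR γ))) :=
      mul_le_mul_of_nonneg_left b2 hK20
    nlinarith
  set K3 := CB + K2 * (1 + CB) with hK3
  have hK30 : 0 ≤ K3 := by positivity
  -- first column reduced up to sign
  have hS4 : ∀ γ : Z3, γ 1 0 = 0 → γ 2 0 = 0 →
      W γ ≤ (CS + K3 * (1 + CS)) * (1 + len (toR γ)) := by
    intro γ h10 h20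
    have hd := det_entriesZ γ
    rw [h10, h20] at hd
    have hd' : γ 0 0 * (γ 1 1 * γ 2 2 - γ 1 2 * γ 2 1) = 1 := by linarith
    have l0 := len_nonneg (toR γ)
    rcases Int.mul_eq_one_iff_eq_one_or_neg_one.mp hd' with ⟨h00, _⟩ | ⟨h00, _⟩
    · have := hS3 γ h00 h10 h20
      have h1 : K3 * (1 + len (toR γ)) ≤ (CS + K3 * (1 + CS)) * (1 + len (toR γ)) := by
        refine mul_le_mul_of_nonneg_right ?_ (by linarith)
        nlinarith [mul_nonneg hK30 hCS0]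
      linarith
    · have hs : W sA ≤ CS * (1 + len (toR γ)) := by nlinarith
      obtain ⟨b1, b2⟩ := step_bound hW sA γ hs
      have := hS3 (sA * γ) (by rw [(sA_mul γ 0).1, h00]; simp) (by rw [(sA_mul γ 0).2.1, h10]; simp)
        (by rw [(sA_mul γ 0).2.2, h20])
      have h6 : K3 * (1 + len (toR (sA * γ))) ≤ K3 * ((1 + CS) * (1 + len (toR γ))) :=
        mul_le_mul_of_nonneg_left b2 (by positivity)
      nlinarith
  set K4 := CS + K3 * (1 + CS) with hK4
  have hK40 : 0 ≤ K4 := by positivity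
  have hS5 : ∀ γ : Z3, γ 2 0 = 0 → W γ ≤ (CA + K4 * (1 + CA)) * (1 + len (toR γ)) := by
    intro γ h20
    obtain ⟨M, hM2, hM1, hMW⟩ := hA γ 0
    obtain ⟨b1, b2⟩ := step_bound hW M γ hMW
    have := hS4 (M * γ) hM1 (by rw [hM2, h20])
    have h6 : K4 * (1 + len (toR (M * γ))) ≤ K4 * ((1 + CA) * (1 + len (toR γ))) :=
      mul_le_mul_of_nonneg_left b2 hK40
    nlinarith
  set K5 := CA + K4 * (1 + CA) with hK5
  have hK50 : 0 ≤ K5 := by positivity
  refine ⟨CB + K5 * (1 + CB), by positivity, fun γ => ?_⟩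
  obtain ⟨M, hM0, hM2, hMk, hMW⟩ := hB γ 0
  obtain ⟨b1, b2⟩ := step_bound hW M γ hMW
  have := hS5 (M * γ) hM2
  have h6 : K5 * (1 + len (toR (M * γ))) ≤ K5 * ((1 + CB) * (1 + len (toR γ))) :=
    mul_le_mul_of_nonneg_left b2 hK50
  nlinarith

/-- **Lubotzky-Mozes-Raghunathan for `SL_3(ℤ)`**: any length function is at most affine in the
logarithm of the size of the matrix. -/
theorem lmr {w : Z3 → ℝ} (hw : IsLen w) : ∃ C : ℝ, 0 ≤ C ∧ ∀ γ : Z3, w γ ≤ C * (1 + len (toR γ)) := by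
  have hW : GoodLen (fun γ => w γ + len (toR γ)) :=
    ⟨hw.add isLen_len, fun γ => by linarith [hw.nonneg γ]⟩
  obtain ⟨C, hC0, hC⟩ := lmr_good hW
  refine ⟨C, hC0, fun γ => ?_⟩
  have := hC γ
  have := len_nonneg (toR γ)
  linarith

end Pool.Agent.Lib.MP_c058bc_gt
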