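import Pool.Agent.Lib.MP_c058bc_gt.Avg

/-!
The limiting kernel on the upper triangular group.
-/

set_option autoImplicit false

namespace Pool.Agent.Lib.MP_c058bc_gt

open Matrix Filter

/-- a kernel on integer matrices comparable to the logarithm of the size -/
structure Good (D : Z3 → Z3 → ℝ) (c C : ℝ) : Prop where
  cone : Cone D
  cpos : 0 < c
  upper : ∀ γ δ, D γ δ ≤ C * (1 + len (toR (γ⁻¹ * δ)))
  lower : ∀ γ δ, c * len (toR (γ⁻¹ * δ)) - C ≤ D γ δ

lemma cone_nonneg {Y : Type} {ρ : Y → Y → ℝ} (h : Cone ρ) (p q : Y) : 0 ≤ ρ p q := by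
  have := h _ (FF.ev 1 p q) (fun e => by
    unfold cutK
    split_ifs <;> norm_num)
  linarith

lemma Good.C_nonneg {D : Z3 → Z3 → ℝ} {c C : ℝ} (h : Good D c C) : 0 ≤ C := by
  have h1 := cone_nonneg h.cone 1 1
  have h2 := h.upper 1 1
  have h3 := len_nonneg (toR (1⁻¹ * 1))
  by_contra hcon
  push Not at hcon
  nlinarith

lemma len_gam_le (g p q : G3) : len (toR ((gam (g * p))⁻¹ * gam (g * q))) ≤
    18 + len (p⁻¹ * q) + 9 * tau (g * p) + 9 * tau (g * q) := by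
  have h1 := gam_spec (g * p)
  have h2 := gam_spec (g * q)
  have e : toR ((gam (g * p))⁻¹ * gam (g * q)) =
      ((g * p)⁻¹ * toR (gam (g * p)))⁻¹ * (p⁻¹ * q) * ((g * q)⁻¹ * toR (gam (g * q))) := by
    rw [map_mul, map_inv]
    group
  rw [e]
  have h3 := len_mul_le (((g * p)⁻¹ * toR (gam (g * p)))⁻¹ * (p⁻¹ * q)) ((g * q)⁻¹ * toR (gam (g * q)))
  have h4 := len_mul_le (((g * p)⁻¹ * toR (gam (g * p)))⁻¹) (p⁻¹ * q)
  rw [len_inv] at h4
  linarith

lemma len_le_gam (g p q : G3) : len (p⁻¹ * q) ≤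
    len (toR ((gam (g * p))⁻¹ * gam (g * q))) + 18 + 9 * tau (g * p) + 9 * tau (g * q) := by
  have h1 := gam_spec (g * p)
  have h2 := gam_spec (g * q)
  have e : p⁻¹ * q = ((g * p)⁻¹ * toR (gam (g * p))) * toR ((gam (g * p))⁻¹ * gam (g * q)) *
      ((g * q)⁻¹ * toR (gam (g * q)))⁻¹ := by
    rw [map_mul, map_inv]
    group
  have h3 := len_mul_le (((g * p)⁻¹ * toR (gam (g * p))) * toR ((gam (g * p))⁻¹ * gam (g * q)))
    (((g * q)⁻¹ * toR (gam (g * q)))⁻¹)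
  have h4 := len_mul_le ((g * p)⁻¹ * toR (gam (g * p))) (toR ((gam (g * p))⁻¹ * gam (g * q)))
  rw [len_inv, ← e] at h3
  linarith

/-- the pulled back kernel for a fixed lattice -/
noncomputable def ker (D : Z3 → Z3 → ℝ) (p q g : G3) : ℝ := D (gam (g * p)) (gam (g * q))

lemma ker_le {D : Z3 → Z3 → ℝ} {c C : ℝ} (h : Good D c C) (p q g : G3) :
    ker D p q g ≤ C * (19 + len (p⁻¹ * q) + 9 * tau (g * p) + 9 * tau (g * q)) := by
  unfold ker
  refine (h.upper _ _).trans (mul_le_mul_of_nonneg_left ?_ h.C_nonneg)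
  linarith [len_gam_le g p q]

lemma ker_ge {D : Z3 → Z3 → ℝ} {c C : ℝ} (h : Good D c C) (p q g : G3) :
    c * len (p⁻¹ * q) - c * (18 + 9 * tau (g * p) + 9 * tau (g * q)) - C ≤ ker D p q g := by
  unfold ker
  refine le_trans ?_ (h.lower _ _)
  have := mul_le_mul_of_nonneg_left (len_le_gam g p q) h.cpos.le
  linarith

lemma ker_nonneg {D : Z3 → Z3 → ℝ} {c C : ℝ} (h : Good D c C) (p q g : G3) : 0 ≤ ker D p q g :=
  cone_nonneg h.cone _ _

/-- averaged kernel -/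
noncomputable def rho (D : Z3 → Z3 → ℝ) (B : ℕ) (p q : G3) : ℝ := avg B (ker D p q)

lemma rho_cone {D : Z3 → Z3 → ℝ} {c C : ℝ} (h : Good D c C) (B : ℕ) : Cone (rho D B) := by
  unfold rho avg inn
  refine Cone.smul (Cone.sum _ _ fun i _ => Cone.sum _ _ fun j _ => Cone.smul (Cone.sum _ _ fun i' _ =>
    Cone.sum _ _ fun k _ => Cone.sum _ _ fun l _ => ?_) (by positivity)) (by positivity)
  exact h.cone.comp (fun p => gam (UU _ _ _ * AA _ _ * p))

/-- exponents in the box -/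
def InBox (B : ℕ) (a b : ℤ) : Prop := -4 * (B : ℤ) ≤ a ∧ a ≤ -3 * B ∧ -2 * (B : ℤ) ≤ b ∧ b ≤ -B

lemma inn_affine (B : ℕ) (a b : ℤ) (u v : ℝ) (φ ψ : G3 → ℝ) :
    inn B a b (fun g => u + v * (φ g + ψ g)) = u + v * (inn B a b φ + inn B a b ψ) := by
  rw [inn_add B a b (fun _ => u) (fun g => v * (φ g + ψ g)), inn_const,
    inn_smul B a b v (fun g => φ g + ψ g), inn_add]

lemma inn_upper {D : Z3 → Z3 → ℝ} {c C : ℝ} (h : Good D c C) (B : ℕ) (a b : ℤ) (p q : G3) (T : ℝ)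
    (hp : inn B a b (fun g => (tau (g * p) : ℝ)) ≤ T) (hq : inn B a b (fun g => (tau (g * q) : ℝ)) ≤ T) :
    inn B a b (ker D p q) ≤ C * (19 + len (p⁻¹ * q) + 18 * T) := by
  have h1 : inn B a b (ker D p q) ≤ inn B a b (fun g => C * (19 + len (p⁻¹ * q)) +
      (C * 9) * ((tau (g * p) : ℝ) + (tau (g * q) : ℝ))) := by
    refine inn_mono B a b fun x y z => ?_
    refine (ker_le h p q _).trans (le_of_eq (by ring))
  rw [inn_affine B a b _ _ (fun g => (tau (g * p) : ℝ)) (fun g => (tau (g * q) : ℝ))] at h1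
  refine h1.trans ?_
  have h2 := mul_le_mul_of_nonneg_left (add_le_add hp hq) h.C_nonneg
  linarith

lemma inn_lower {D : Z3 → Z3 → ℝ} {c C : ℝ} (h : Good D c C) (B : ℕ) (a b : ℤ) (p q : G3) (T : ℝ)
    (hp : inn B a b (fun g => (tau (g * p) : ℝ)) ≤ T) (hq : inn B a b (fun g => (tau (g * q) : ℝ)) ≤ T) :
    c * len (p⁻¹ * q) - c * (18 + 18 * T) - C ≤ inn B a b (ker D p q) := by
  have h1 : inn B a b (fun g => (c * len (p⁻¹ * q) - c * 18 - C) +
      (-c * 9) * ((tau (g * p) : ℝ) + (tau (g * q) : ℝ))) ≤ inn B a b (ker D p q) := by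
    refine inn_mono B a b fun x y z => ?_
    refine le_trans (le_of_eq (by ring)) (ker_ge h p q _)
  rw [inn_affine B a b _ _ (fun g => (tau (g * p) : ℝ)) (fun g => (tau (g * q) : ℝ))] at h1
  have h2 := mul_le_mul_of_nonneg_left (add_le_add hp hq) h.cpos.le
  linarith

lemma inn_tau_general (B : ℕ) (hB : 1 ≤ B) (a b : ℤ) (hab : InBox B a b) (p : G3) (k : ℕ)
    (hk : nrm (p : Matrix (Fin 3) (Fin 3) ℝ) ≤ 2 ^ k) :
    inn B a b (fun g => (tau (g * p) : ℝ)) ≤ 186 + k := by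
  obtain ⟨h1, h2, h3, h4⟩ := hab
  have hB' : (1 : ℤ) ≤ B := by exact_mod_cast hB
  have hle : inn B a b (fun g => (tau (g * p) : ℝ)) ≤
      inn B a b (fun g => (tau (g * (UU 0 0 0 * AA 0 0)) : ℝ) + (k : ℝ)) := by
    refine inn_mono B a b fun x y z => ?_
    have e : UU x y z * AA a b * (UU 0 0 0 * AA 0 0) = UU x y z * AA a b := by
      rw [UU_zero, AA_zero]
      simp
    rw [e]
    exact_mod_cast tau_mul_le (UU x y z * AA a b) p hk
  rw [inn_add, inn_const] at hle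
  have := inn_tau B a b 0 0 0 0 0 (by omega) (by omega) (by omega) (by omega)
  linarith

lemma exists_kk (p : G3) : ∃ k : ℕ, nrm (p : Matrix (Fin 3) (Fin 3) ℝ) ≤ 2 ^ k := by
  obtain ⟨k, hk⟩ := pow_unbounded_of_one_lt (nrm (p : Matrix (Fin 3) (Fin 3) ℝ)) (show (1 : ℝ) < 2 by norm_num)
  exact ⟨k, hk.le⟩

/-- uniform bound of inner averages for general points -/
lemma inn_bound {D : Z3 → Z3 → ℝ} {c C : ℝ} (h : Good D c C) (p q : G3) :
    ∃ K : ℝ, 0 ≤ K ∧ ∀ B : ℕ, 1 ≤ B → ∀ a b : ℤ, InBox B a b → |inn B a b (ker D p q)| ≤ K := by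
  obtain ⟨k1, hk1⟩ := exists_kk p
  obtain ⟨k2, hk2⟩ := exists_kk q
  have hC := h.C_nonneg
  have hl := len_nonneg (p⁻¹ * q)
  refine ⟨C * (19 + len (p⁻¹ * q) + 18 * (186 + k1 + k2)), by positivity, ?_⟩
  intro B hB a b hab
  have t1 := inn_tau_general B hB a b hab p k1 hk1
  have t2 := inn_tau_general B hB a b hab q k2 hk2
  have n1 : (0 : ℝ) ≤ k1 := Nat.cast_nonneg _
  have n2 : (0 : ℝ) ≤ k2 := Nat.cast_nonneg _
  have hu := inn_upper h B a b p q (186 + k1 + k2) (by linarith) (by linarith)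
  have hn : 0 ≤ inn B a b (ker D p q) := by
    have := inn_mono B a b (φ := fun _ => 0) (ψ := ker D p q) (fun x y z => ker_nonneg h p q _)
    rwa [inn_const] at this
  rw [abs_of_nonneg hn]
  exact hu

lemma inBox_of_lt {B i j : ℕ} (hi : i < B) (hj : j < B) : InBox B (-4 * B + i) (-2 * B + j) := by
  have h1 : (i : ℤ) < B := by exact_mod_cast hi
  have h2 : (j : ℤ) < B := by exact_mod_cast hj
  refine ⟨by omega, by omega, by omega, by omega⟩

lemma avg_le {B : ℕ} (hB : 1 ≤ B) {φ : G3 → ℝ} {K : ℝ}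
    (h : ∀ i j : ℕ, i < B → j < B → inn B (-4 * B + i) (-2 * B + j) φ ≤ K) : avg B φ ≤ K := by
  have hBR : (0 : ℝ) < B := by exact_mod_cast hB
  unfold avg
  rw [one_div, inv_mul_le_iff₀ (by positivity)]
  calc ∑ i ∈ Finset.range B, ∑ j ∈ Finset.range B, inn B (-4 * B + i) (-2 * B + j) φ
      ≤ ∑ i ∈ Finset.range B, ∑ j ∈ Finset.range B, K :=
        Finset.sum_le_sum fun i hi => Finset.sum_le_sum fun j hj =>
          h i j (Finset.mem_range.mp hi) (Finset.mem_range.mp hj)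
    _ = B * B * K := by simp; ring

lemma le_avg {B : ℕ} (hB : 1 ≤ B) {φ : G3 → ℝ} {K : ℝ}
    (h : ∀ i j : ℕ, i < B → j < B → K ≤ inn B (-4 * B + i) (-2 * B + j) φ) : K ≤ avg B φ := by
  have hBR : (0 : ℝ) < B := by exact_mod_cast hB
  unfold avg
  rw [one_div, ← div_eq_inv_mul, le_div_iff₀ (by positivity)]
  calc K * (B * B) = ∑ i ∈ Finset.range B, ∑ j ∈ Finset.range B, K := by simp; ring
    _ ≤ ∑ i ∈ Finset.range B, ∑ j ∈ Finset.range B, inn B (-4 * B + i) (-2 * B + j) φ :=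
        Finset.sum_le_sum fun i hi => Finset.sum_le_sum fun j hj =>
          h i j (Finset.mem_range.mp hi) (Finset.mem_range.mp hj)

lemma rho_bound {D : Z3 → Z3 → ℝ} {c C : ℝ} (h : Good D c C) (p q : G3) :
    ∃ K : ℝ, ∀ B : ℕ, 1 ≤ B → |rho D B p q| ≤ K := by
  obtain ⟨K, hK0, hK⟩ := inn_bound h p q
  refine ⟨K, fun B hB => ?_⟩
  rw [abs_le]
  constructor
  · exact le_avg hB fun i j hi hj => (abs_le.mp (hK B hB _ _ (inBox_of_lt hi hj))).1
  · exact avg_le hB fun i j hi hj => (abs_le.mp (hK B hB _ _ (inBox_of_lt hi hj))).2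

/-- special points -/
def Spec (p : G3) : Prop := ∃ (x y z : ℝ) (s t : ℤ), p = UU x y z * AA s t

lemma inn_tau_spec {p : G3} (hp : Spec p) : ∃ B0 : ℕ, ∀ B : ℕ, B0 ≤ B → ∀ i j : ℕ, i < B → j < B →
    inn B (-4 * B + i) (-2 * B + j) (fun g => (tau (g * p) : ℝ)) ≤ 186 := by
  obtain ⟨x, y, z, s, t, rfl⟩ := hp
  refine ⟨2 * (s.natAbs + t.natAbs) + 1, fun B hB i j hi hj => ?_⟩
  exact inn_tau B _ _ x y z s t (by omega) (by omega) (by omega) (by omega)

lemma rho_upper {D : Z3 → Z3 → ℝ} {c C : ℝ} (h : Good D c C) {p q : G3} (hp : Spec p) (hq : Spec q) :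
    ∀ᶠ B : ℕ in atTop, rho D B p q ≤ C * 3367 * (1 + len (p⁻¹ * q)) := by
  obtain ⟨B1, h1⟩ := inn_tau_spec hp
  obtain ⟨B2, h2⟩ := inn_tau_spec hq
  filter_upwards [eventually_ge_atTop (B1 + B2 + 1)] with B hB
  refine avg_le (by omega) fun i j hi hj => ?_
  have := inn_upper h B _ _ p q 186 (h1 B (by omega) i j hi hj) (h2 B (by omega) i j hi hj)
  refine this.trans ?_
  have hl := len_nonneg (p⁻¹ * q)
  have hC := h.C_nonneg
  rw [mul_assoc]
  exact mul_le_mul_of_nonneg_left (by linarith) hC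

lemma rho_lower {D : Z3 → Z3 → ℝ} {c C : ℝ} (h : Good D c C) {p q : G3} (hp : Spec p) (hq : Spec q) :
    ∀ᶠ B : ℕ in atTop, c * len (p⁻¹ * q) - (c * 3366 + C) ≤ rho D B p q := by
  obtain ⟨B1, h1⟩ := inn_tau_spec hp
  obtain ⟨B2, h2⟩ := inn_tau_spec hq
  filter_upwards [eventually_ge_atTop (B1 + B2 + 1)] with B hB
  refine le_avg (by omega) fun i j hi hj => ?_
  have := inn_lower h B _ _ p q 186 (h1 B (by omega) i j hi hj) (h2 B (by omega) i j hi hj)
  linarith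

lemma avg_sub (B : ℕ) (φ ψ : G3 → ℝ) : avg B φ - avg B ψ =
    (1 / ((B : ℝ) * B)) * ∑ i ∈ Finset.range B, ∑ j ∈ Finset.range B,
      (inn B (-4 * B + i) (-2 * B + j) φ - inn B (-4 * B + i) (-2 * B + j) ψ) := by
  unfold avg
  rw [← mul_sub, ← Finset.sum_sub_distrib]
  refine congrArg (fun t : ℝ => (1 / ((B : ℝ) * B)) * t) ?_
  refine Finset.sum_congr rfl fun i _ => ?_
  rw [Finset.sum_sub_distrib]

lemma rho_mul (D : Z3 → Z3 → ℝ) (B : ℕ) (h p q : G3) :
    rho D B (h * p) (h * q) = avg B (fun g => ker D p q (g * h)) := by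
  unfold rho
  have e : ker D (h * p) (h * q) = fun g => ker D p q (g * h) := by
    funext g
    unfold ker
    rw [mul_assoc, mul_assoc]
  rw [e]

lemma abs_avg_sub_le {B : ℕ} (hB : 1 ≤ B) {φ ψ : G3 → ℝ} {K : ℝ}
    (h : ∀ i j : ℕ, i < B → j < B →
      |inn B (-4 * B + i) (-2 * B + j) φ - inn B (-4 * B + i) (-2 * B + j) ψ| ≤ K) :
    |avg B φ - avg B ψ| ≤ K := by
  have hBR : (0 : ℝ) < B := by exact_mod_cast hB
  rw [avg_sub, abs_mul, abs_of_pos (by positivity), one_div, inv_mul_le_iff₀ (by positivity)]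
  have h1 := abs_sum_le_card (Finset.range B) (fun i => ∑ j ∈ Finset.range B,
      (inn B (-4 * B + i) (-2 * B + j) φ - inn B (-4 * B + i) (-2 * B + j) ψ)) (B * K) (fun i hi => by
        have h2 := abs_sum_le_card (Finset.range B) (fun j =>
          (inn B (-4 * B + i) (-2 * B + j) φ - inn B (-4 * B + i) (-2 * B + j) ψ)) K
          (fun j hj => h i j (Finset.mem_range.mp hi) (Finset.mem_range.mp hj))
        rwa [Finset.card_range] at h2)
  rw [Finset.card_range] at h1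
  refine h1.trans (le_of_eq ?_)
  ring

lemma sup_bound {D : Z3 → Z3 → ℝ} {c C : ℝ} (h : Good D c C) (p q : G3) :
    ∃ K : ℝ, 0 ≤ K ∧ ∀ (B : ℕ) (a b : ℤ), 1 ≤ B → InBox B a b → ∀ x y z : ℝ,
      |ker D p q (UU x y z * AA a b)| ≤ K * B := by
  obtain ⟨k1, hk1⟩ := exists_kk p
  obtain ⟨k2, hk2⟩ := exists_kk q
  have hC := h.C_nonneg
  have hl := len_nonneg (p⁻¹ * q)
  refine ⟨C * (19 + len (p⁻¹ * q) + 9 * (6 + k1) + 9 * (6 + k2)), by positivity, ?_⟩
  intro B a b hB hab x y z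
  obtain ⟨b1, b2, b3, b4⟩ := hab
  rw [abs_of_nonneg (ker_nonneg h p q _)]
  refine (ker_le h p q _).trans ?_
  have eassoc : C * (19 + len (p⁻¹ * q) + 9 * (6 + k1) + 9 * (6 + k2)) * B =
    C * ((19 + len (p⁻¹ * q) + 9 * (6 + k1) + 9 * (6 + k2)) * B) := _root_.mul_assoc _ _ _
  rw [eassoc]
  refine mul_le_mul_of_nonneg_left ?_ hC
  have t0 := tau_UA_le x y z a b
  have t1 := tau_mul_le (UU x y z * AA a b) p hk1
  have t2 := tau_mul_le (UU x y z * AA a b) q hk2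
  have t3 : tau (UU x y z * AA a b * p) ≤ (6 + k1) * B := by
    have : a.natAbs + b.natAbs ≤ 6 * B := by omega
    nlinarith
  have t4 : tau (UU x y z * AA a b * q) ≤ (6 + k2) * B := by
    have : a.natAbs + b.natAbs ≤ 6 * B := by omega
    nlinarith
  have t5 : ((tau (UU x y z * AA a b * p) : ℕ) : ℝ) ≤ (6 + k1) * B := by exact_mod_cast t3
  have t6 : ((tau (UU x y z * AA a b * q) : ℕ) : ℝ) ≤ (6 + k2) * B := by exact_mod_cast t4
  have hBR : (1 : ℝ) ≤ B := by exact_mod_cast hB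
  nlinarith

lemma tendsto_aux (K : ℝ) (n : ℕ) : Tendsto (fun B : ℕ => 4 * (2 : ℝ) ^ (-(B : ℤ) + n) * (K * B)) atTop (nhds 0) := by
  have h := tendsto_pow_const_div_const_pow_of_one_lt 1 (show (1 : ℝ) < 2 by norm_num)
  have h2 := h.const_mul (4 * 2 ^ n * K)
  rw [mul_zero] at h2
  refine h2.congr fun B => ?_
  rw [zpow_add₀ (by norm_num), _root_.zpow_neg, zpow_natCast, zpow_natCast, pow_one]
  field_simp

lemma rho_inv_X {D : Z3 → Z3 → ℝ} {c C : ℝ} (h : Good D c C) (p q : G3) (n : ℕ) :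
    Tendsto (fun B : ℕ => rho D B (UU (2 ^ n) 0 0 * p) (UU (2 ^ n) 0 0 * q) - rho D B p q) atTop (nhds 0) := by
  obtain ⟨K, hK0, hK⟩ := sup_bound h p q
  refine squeeze_zero_norm' ?_ (tendsto_aux K n)
  filter_upwards [eventually_ge_atTop 1] with B hB
  rw [Real.norm_eq_abs, rho_mul]
  refine abs_avg_sub_le hB fun i j hi hj => ?_
  have hbox := inBox_of_lt hi hj
  have hsh := inn_shift_X B (-4 * B + i) (-2 * B + j) n (by omega) (ker D p q) (K * B)
    (fun x y z => hK B _ _ hB hbox x y z)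
  refine hsh.trans ?_
  have h1 : (2 : ℝ) ^ (-4 * (B : ℤ) + i - (-2 * B + j) + n) ≤ 2 ^ (-(B : ℤ) + n) :=
    zpow_le_zpow_right₀ (by norm_num) (by omega)
  have hBR : (0 : ℝ) ≤ K * B := by positivity
  have h2 : (0 : ℝ) < 2 ^ (-4 * (B : ℤ) + i - (-2 * B + j) + n) := by positivity
  have h3 : (2 : ℝ) * 2 ^ (-4 * (B : ℤ) + i - (-2 * B + j) + n) ≤ 4 * 2 ^ (-(B : ℤ) + n) := by linarith
  exact mul_le_mul_of_nonneg_right h3 hBR

lemma rho_inv_Y {D : Z3 → Z3 → ℝ} {c C : ℝ} (h : Good D c C) (p q : G3) (n : ℕ) :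
    Tendsto (fun B : ℕ => rho D B (UU 0 (2 ^ n) 0 * p) (UU 0 (2 ^ n) 0 * q) - rho D B p q) atTop (nhds 0) := by
  obtain ⟨K, hK0, hK⟩ := sup_bound h p q
  refine squeeze_zero_norm' ?_ (tendsto_aux K n)
  filter_upwards [eventually_ge_atTop 1] with B hB
  rw [Real.norm_eq_abs, rho_mul]
  refine abs_avg_sub_le hB fun i j hi hj => ?_
  have hbox := inBox_of_lt hi hj
  have hsh := inn_shift_Y B (-4 * B + i) (-2 * B + j) n (by omega) (ker D p q) (K * B)
    (fun x y z => hK B _ _ hB hbox x y z)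
  refine hsh.trans ?_
  have h1 : (2 : ℝ) ^ (-4 * (B : ℤ) + i + 2 * (-2 * B + j) + n) ≤ 2 ^ (-(B : ℤ) + n) :=
    zpow_le_zpow_right₀ (by norm_num) (by omega)
  have hBR : (0 : ℝ) ≤ K * B := by positivity
  exact mul_le_mul_of_nonneg_right (by linarith) hBR

lemma rho_inv_A1 {D : Z3 → Z3 → ℝ} {c C : ℝ} (h : Good D c C) (p q : G3) :
    Tendsto (fun B : ℕ => rho D B (AA 1 0 * p) (AA 1 0 * q) - rho D B p q) atTop (nhds 0) := by
  obtain ⟨K, hK0, hK⟩ := inn_bound h p q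
  have hlim : Tendsto (fun B : ℕ => (2 * K) / (B : ℝ)) atTop (nhds 0) :=
    tendsto_const_div_atTop_nhds_zero_nat _
  refine squeeze_zero_norm' ?_ hlim
  filter_upwards [eventually_ge_atTop 1] with B hB
  have hBR : (0 : ℝ) < B := by exact_mod_cast hB
  rw [Real.norm_eq_abs, rho_mul]
  unfold rho
  rw [avg_sub, abs_mul, abs_of_pos (by positivity), one_div, inv_mul_le_iff₀ (by positivity)]
  rw [Finset.sum_comm]
  have hcol : ∀ j ∈ Finset.range B, |∑ i ∈ Finset.range B,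
      (inn B (-4 * B + i) (-2 * B + j) (fun g => ker D p q (g * AA 1 0)) -
        inn B (-4 * B + i) (-2 * B + j) (ker D p q))| ≤ 2 * K := by
    intro j hj
    have hj' := Finset.mem_range.mp hj
    have e : ∀ i : ℕ, inn B (-4 * B + i) (-2 * B + j) (fun g => ker D p q (g * AA 1 0)) =
        inn B (-4 * B + ((i + 1 : ℕ) : ℤ)) (-2 * B + j) (ker D p q) := by
      intro i
      rw [inn_shift_A]
      have e1 : -4 * (B : ℤ) + i + 1 = -4 * B + ((i + 1 : ℕ) : ℤ) := by push_cast; ring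
      rw [e1, add_zero]
    simp only [e]
    rw [Finset.sum_range_sub (fun i : ℕ => inn B (-4 * B + (i : ℤ)) (-2 * B + j) (ker D p q))]
    have k1 := hK B hB (-4 * B + (B : ℤ)) (-2 * B + j) ⟨by omega, by omega, by omega, by omega⟩
    have k2 := hK B hB (-4 * B + ((0 : ℕ) : ℤ)) (-2 * B + j) ⟨by omega, by omega, by omega, by omega⟩
    have := abs_sub (inn B (-4 * B + (B : ℤ)) (-2 * B + j) (ker D p q))
      (inn B (-4 * B + ((0 : ℕ) : ℤ)) (-2 * B + j) (ker D p q))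
    linarith
  have h1 := abs_sum_le_card (Finset.range B) _ _ hcol
  rw [Finset.card_range] at h1
  refine h1.trans (le_of_eq ?_)
  field_simp

lemma rho_inv_A2 {D : Z3 → Z3 → ℝ} {c C : ℝ} (h : Good D c C) (p q : G3) :
    Tendsto (fun B : ℕ => rho D B (AA 0 1 * p) (AA 0 1 * q) - rho D B p q) atTop (nhds 0) := by
  obtain ⟨K, hK0, hK⟩ := inn_bound h p q
  have hlim : Tendsto (fun B : ℕ => (2 * K) / (B : ℝ)) atTop (nhds 0) :=
    tendsto_const_div_atTop_nhds_zero_nat _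
  refine squeeze_zero_norm' ?_ hlim
  filter_upwards [eventually_ge_atTop 1] with B hB
  have hBR : (0 : ℝ) < B := by exact_mod_cast hB
  rw [Real.norm_eq_abs, rho_mul]
  unfold rho
  rw [avg_sub, abs_mul, abs_of_pos (by positivity), one_div, inv_mul_le_iff₀ (by positivity)]
  have hcol : ∀ i ∈ Finset.range B, |∑ j ∈ Finset.range B,
      (inn B (-4 * B + i) (-2 * B + j) (fun g => ker D p q (g * AA 0 1)) -
        inn B (-4 * B + i) (-2 * B + j) (ker D p q))| ≤ 2 * K := by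
    intro i hi
    have hi' := Finset.mem_range.mp hi
    have e : ∀ j : ℕ, inn B (-4 * B + i) (-2 * B + j) (fun g => ker D p q (g * AA 0 1)) =
        inn B (-4 * B + i) (-2 * B + ((j + 1 : ℕ) : ℤ)) (ker D p q) := by
      intro j
      rw [inn_shift_A]
      have e1 : -2 * (B : ℤ) + j + 1 = -2 * B + ((j + 1 : ℕ) : ℤ) := by push_cast; ring
      rw [e1, add_zero]
    simp only [e]
    rw [Finset.sum_range_sub (fun j : ℕ => inn B (-4 * B + i) (-2 * B + (j : ℤ)) (ker D p q))]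
    have k1 := hK B hB (-4 * B + i) (-2 * B + (B : ℤ)) ⟨by omega, by omega, by omega, by omega⟩
    have k2 := hK B hB (-4 * B + i) (-2 * B + ((0 : ℕ) : ℤ)) ⟨by omega, by omega, by omega, by omega⟩
    have := abs_sub (inn B (-4 * B + i) (-2 * B + (B : ℤ)) (ker D p q))
      (inn B (-4 * B + i) (-2 * B + ((0 : ℕ) : ℤ)) (ker D p q))
    linarith
  have h1 := abs_sum_le_card (Finset.range B) _ _ hcol
  rw [Finset.card_range] at h1
  refine h1.trans (le_of_eq ?_)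
  field_simp

lemma exists_ulim (u : ℕ → ℝ) (K : ℝ) (h : ∀ B, 1 ≤ B → |u B| ≤ K) :
    ∃ L, Tendsto u (hyperfilter ℕ : Filter ℕ) (nhds L) := by
  have hmem : Set.Icc (-K) K ∈ ((hyperfilter ℕ).map u : Filter ℝ) := by
    rw [Ultrafilter.coe_map, mem_map]
    have : ∀ᶠ B in atTop, u B ∈ Set.Icc (-K) K := by
      filter_upwards [eventually_ge_atTop 1] with B hB
      exact abs_le.mp (h B hB)
    exact Nat.hyperfilter_le_atTop this
  obtain ⟨L, _, hL⟩ := isCompact_Icc.ultrafilter_le_nhds ((hyperfilter ℕ).map u) (le_principal_iff.mpr hmem)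
  exact ⟨L, hL⟩

/-- **The limit kernel**. -/
theorem limit_kernel {D : Z3 → Z3 → ℝ} {c C : ℝ} (h : Good D c C) :
    ∃ ρ : G3 → G3 → ℝ, Cone ρ ∧
      (∀ p q, Spec p → Spec q → ρ p q ≤ C * 3367 * (1 + len (p⁻¹ * q))) ∧
      (∀ p q, Spec p → Spec q → c * len (p⁻¹ * q) - (c * 3366 + C) ≤ ρ p q) ∧
      (∀ n p q, ρ (UU (2 ^ n) 0 0 * p) (UU (2 ^ n) 0 0 * q) = ρ p q) ∧
      (∀ n p q, ρ (UU 0 (2 ^ n) 0 * p) (UU 0 (2 ^ n) 0 * q) = ρ p q) ∧
      (∀ p q, ρ (AA 1 0 * p) (AA 1 0 * q) = ρ p q) ∧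
      (∀ p q, ρ (AA 0 1 * p) (AA 0 1 * q) = ρ p q) := by
  have hex : ∀ p q : G3, ∃ L, Tendsto (fun B => rho D B p q) (hyperfilter ℕ : Filter ℕ) (nhds L) := by
    intro p q
    obtain ⟨K, hK⟩ := rho_bound h p q
    exact exists_ulim _ K hK
  choose ρ hρ using hex
  have hinv : ∀ (g p q : G3), Tendsto (fun B : ℕ => rho D B (g * p) (g * q) - rho D B p q) atTop (nhds 0) →
      ρ (g * p) (g * q) = ρ p q := by
    intro g p q ht
    have h1 := (hρ (g * p) (g * q)).sub (hρ p q)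
    have h2 := ht.mono_left Nat.hyperfilter_le_atTop
    have h3 := tendsto_nhds_unique h1 h2
    linarith
  refine ⟨ρ, ?_, ?_, ?_, ?_, ?_, ?_, ?_⟩
  · exact Cone.of_tendsto (Eventually.of_forall fun B => rho_cone h B) hρ
  · intro p q hp hq
    exact le_of_tendsto (hρ p q) (Nat.hyperfilter_le_atTop (rho_upper h hp hq))
  · intro p q hp hq
    exact ge_of_tendsto (hρ p q) (Nat.hyperfilter_le_atTop (rho_lower h hp hq))
  · exact fun n p q => hinv _ p q (rho_inv_X h p q n)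
  · exact fun n p q => hinv _ p q (rho_inv_Y h p q n)
  · exact fun p q => hinv _ p q (rho_inv_A1 h p q)
  · exact fun p q => hinv _ p q (rho_inv_A2 h p q)

end Pool.Agent.Lib.MP_c058bc_gt
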