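import Mathlib

/-!
Sizes of matrices in `SL_3(ℝ)`: the entrywise sum norm `nrm` and the symmetric length `len`.
-/

set_option autoImplicit false

namespace Pool.Agent.Lib.MP_c058bc_gt

open Matrix

/-- real `3 × 3` matrices of determinant one -/
abbrev G3 := Matrix.SpecialLinearGroup (Fin 3) ℝ
/-- integer `3 × 3` matrices of determinant one -/
abbrev Z3 := Matrix.SpecialLinearGroup (Fin 3) ℤ

/-- entrywise sum norm -/
noncomputable def nrm (g : Matrix (Fin 3) (Fin 3) ℝ) : ℝ := ∑ i, ∑ j, |g i j|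

lemma nrm_nonneg (g : Matrix (Fin 3) (Fin 3) ℝ) : 0 ≤ nrm g := by
  unfold nrm; positivity

lemma abs_le_nrm (g : Matrix (Fin 3) (Fin 3) ℝ) (i j : Fin 3) : |g i j| ≤ nrm g := by
  unfold nrm
  calc |g i j| ≤ ∑ j, |g i j| :=
        Finset.single_le_sum (f := fun j => |g i j|) (fun _ _ => abs_nonneg _) (Finset.mem_univ j)
    _ ≤ ∑ i, ∑ j, |g i j| :=
        Finset.single_le_sum (f := fun i => ∑ j, |g i j|)
          (fun _ _ => Finset.sum_nonneg fun _ _ => abs_nonneg _) (Finset.mem_univ i)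

lemma nrm_mul_le (g h : Matrix (Fin 3) (Fin 3) ℝ) : nrm (g * h) ≤ nrm g * nrm h := by
  unfold nrm
  have h1 : ∀ i j, |(g * h) i j| ≤ ∑ k, |g i k| * |h k j| := by
    intro i j
    rw [Matrix.mul_apply]
    refine (Finset.abs_sum_le_sum_abs _ _).trans (le_of_eq ?_)
    exact Finset.sum_congr rfl fun k _ => abs_mul _ _
  calc ∑ i, ∑ j, |(g * h) i j| ≤ ∑ i, ∑ j, ∑ k, |g i k| * |h k j| :=
        Finset.sum_le_sum fun i _ => Finset.sum_le_sum fun j _ => h1 i j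
    _ ≤ ∑ i, ∑ k, |g i k| * ∑ i, ∑ j, |h i j| := by
        refine Finset.sum_le_sum fun i _ => ?_
        rw [Finset.sum_comm]
        refine Finset.sum_le_sum fun k _ => ?_
        rw [← Finset.mul_sum]
        refine mul_le_mul_of_nonneg_left ?_ (abs_nonneg _)
        exact Finset.single_le_sum (f := fun k => ∑ j, |h k j|)
          (fun _ _ => Finset.sum_nonneg fun _ _ => abs_nonneg _) (Finset.mem_univ k)
    _ = (∑ i, ∑ j, |g i j|) * ∑ i, ∑ j, |h i j| := by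
        rw [Finset.sum_mul]
        refine Finset.sum_congr rfl fun i _ => ?_
        rw [Finset.sum_mul]

lemma det_entries (g : G3) :
    g 0 0 * g 1 1 * g 2 2 - g 0 0 * g 1 2 * g 2 1 - g 0 1 * g 1 0 * g 2 2 +
      g 0 1 * g 1 2 * g 2 0 + g 0 2 * g 1 0 * g 2 1 - g 0 2 * g 1 1 * g 2 0 = (1 : ℝ) := by
  have h := g.det_coe
  rw [Matrix.det_fin_three] at h
  exact h

lemma one_le_nrm (g : G3) : 1 ≤ nrm (g : Matrix (Fin 3) (Fin 3) ℝ) := by
  set N := nrm (g : Matrix (Fin 3) (Fin 3) ℝ) with hN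
  have hN' : N = ∑ i, ∑ j, |g i j| := rfl
  simp only [Fin.sum_univ_three] at hN'
  have h := det_entries g
  have key : (1 : ℝ) ≤ (|g 0 0| + |g 0 1| + |g 0 2|) * (|g 1 0| + |g 1 1| + |g 1 2|) *
      (|g 2 0| + |g 2 1| + |g 2 2|) := by
    have e : (1 : ℝ) ≤ |g 0 0 * g 1 1 * g 2 2| + |g 0 0 * g 1 2 * g 2 1| + |g 0 1 * g 1 0 * g 2 2| +
      |g 0 1 * g 1 2 * g 2 0| + |g 0 2 * g 1 0 * g 2 1| + |g 0 2 * g 1 1 * g 2 0| := by
      have a1 := le_abs_self (g 0 0 * g 1 1 * g 2 2)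
      have a2 := neg_abs_le (g 0 0 * g 1 2 * g 2 1)
      have a3 := neg_abs_le (g 0 1 * g 1 0 * g 2 2)
      have a4 := le_abs_self (g 0 1 * g 1 2 * g 2 0)
      have a5 := le_abs_self (g 0 2 * g 1 0 * g 2 1)
      have a6 := neg_abs_le (g 0 2 * g 1 1 * g 2 0)
      linarith
    refine e.trans ?_
    simp only [abs_mul]
    have hp : ∀ i j k l m n : Fin 3, 0 ≤ |g i j| * |g k l| * |g m n| := fun i j k l m n => by positivity
    nlinarith [hp 0 0 1 0 2 0, hp 0 0 1 0 2 1, hp 0 0 1 0 2 2, hp 0 0 1 1 2 0, hp 0 0 1 1 2 1,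
      hp 0 0 1 2 2 0, hp 0 0 1 2 2 2, hp 0 1 1 0 2 0, hp 0 1 1 0 2 1, hp 0 1 1 1 2 0, hp 0 1 1 1 2 1,
      hp 0 1 1 1 2 2, hp 0 1 1 2 2 1, hp 0 1 1 2 2 2, hp 0 2 1 0 2 0, hp 0 2 1 0 2 2, hp 0 2 1 1 2 1,
      hp 0 2 1 1 2 2, hp 0 2 1 2 2 0, hp 0 2 1 2 2 1, hp 0 2 1 2 2 2]
  have hN0 : 0 ≤ N := nrm_nonneg _
  by_contra hlt
  push Not at hlt
  have p : ∀ i j : Fin 3, 0 ≤ |g i j| := fun i j => abs_nonneg _
  have r1 : |g 0 0| + |g 0 1| + |g 0 2| ≤ N := by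
    linarith [p 1 0, p 1 1, p 1 2, p 2 0, p 2 1, p 2 2]
  have r2 : |g 1 0| + |g 1 1| + |g 1 2| ≤ N := by
    linarith [p 0 0, p 0 1, p 0 2, p 2 0, p 2 1, p 2 2]
  have r3 : |g 2 0| + |g 2 1| + |g 2 2| ≤ N := by
    linarith [p 1 0, p 1 1, p 1 2, p 0 0, p 0 1, p 0 2]
  have q : (|g 0 0| + |g 0 1| + |g 0 2|) * (|g 1 0| + |g 1 1| + |g 1 2|) *
      (|g 2 0| + |g 2 1| + |g 2 2|) ≤ N * N * N := by
    gcongr
  have : N * N * N < 1 := by
    have h1 : N * N ≤ 1 := by nlinarith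
    nlinarith
  linarith

lemma nrm_pos (g : G3) : 0 < nrm (g : Matrix (Fin 3) (Fin 3) ℝ) :=
  lt_of_lt_of_le one_pos (one_le_nrm g)

lemma nrm_inv_le (g : G3) :
    nrm ((g⁻¹ : G3) : Matrix (Fin 3) (Fin 3) ℝ) ≤ nrm (g : Matrix (Fin 3) (Fin 3) ℝ) ^ 2 := by
  have h1 : nrm ((g⁻¹ : G3) : Matrix (Fin 3) (Fin 3) ℝ) ≤
      (|g 1 1| * |g 2 2| + |g 1 2| * |g 2 1|) + (|g 0 1| * |g 2 2| + |g 0 2| * |g 2 1|) +
      (|g 0 1| * |g 1 2| + |g 0 2| * |g 1 1|) + (|g 1 0| * |g 2 2| + |g 1 2| * |g 2 0|) +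
      (|g 0 0| * |g 2 2| + |g 0 2| * |g 2 0|) + (|g 0 0| * |g 1 2| + |g 0 2| * |g 1 0|) +
      (|g 1 0| * |g 2 1| + |g 1 1| * |g 2 0|) + (|g 0 0| * |g 2 1| + |g 0 1| * |g 2 0|) +
      (|g 0 0| * |g 1 1| + |g 0 1| * |g 1 0|) := by
    unfold nrm
    rw [Matrix.SpecialLinearGroup.coe_inv, Matrix.adjugate_fin_three]
    simp only [Fin.sum_univ_three, Matrix.of_apply, Matrix.cons_val', Matrix.cons_val_zero,
      Matrix.cons_val_one, Matrix.cons_val, Matrix.cons_val_fin_one]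
    have k1 : ∀ a b c d : ℝ, |a * b - c * d| ≤ |a| * |b| + |c| * |d| := by
      intro a b c d
      rw [← abs_mul, ← abs_mul]
      exact abs_sub _ _
    have k2 : ∀ a b c d : ℝ, |-(a * b) + c * d| ≤ |a| * |b| + |c| * |d| := by
      intro a b c d
      rw [← abs_mul, ← abs_mul, ← abs_neg (a * b)]
      exact abs_add_le _ _
    have e1 := k1 (g 1 1) (g 2 2) (g 1 2) (g 2 1)
    have e2 := k2 (g 0 1) (g 2 2) (g 0 2) (g 2 1)
    have e3 := k1 (g 0 1) (g 1 2) (g 0 2) (g 1 1)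
    have e4 := k2 (g 1 0) (g 2 2) (g 1 2) (g 2 0)
    have e5 := k1 (g 0 0) (g 2 2) (g 0 2) (g 2 0)
    have e6 := k2 (g 0 0) (g 1 2) (g 0 2) (g 1 0)
    have e7 := k1 (g 1 0) (g 2 1) (g 1 1) (g 2 0)
    have e8 := k2 (g 0 0) (g 2 1) (g 0 1) (g 2 0)
    have e9 := k1 (g 0 0) (g 1 1) (g 0 1) (g 1 0)
    linarith
  refine h1.trans ?_
  unfold nrm
  simp only [Fin.sum_univ_three]
  have p : ∀ i j : Fin 3, 0 ≤ |g i j| := fun i j => abs_nonneg _
  have p00 := p 0 0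
  have p01 := p 0 1
  have p02 := p 0 2
  have p10 := p 1 0
  have p11 := p 1 1
  have p12 := p 1 2
  have p20 := p 2 0
  have p21 := p 2 1
  have p22 := p 2 2
  generalize |g 0 0| = a00 at *
  generalize |g 0 1| = a01 at *
  generalize |g 0 2| = a02 at *
  generalize |g 1 0| = a10 at *
  generalize |g 1 1| = a11 at *
  generalize |g 1 2| = a12 at *
  generalize |g 2 0| = a20 at *
  generalize |g 2 1| = a21 at *
  generalize |g 2 2| = a22 at *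
  rw [← sub_nonneg]
  ring_nf
  positivity

/-- the symmetric length function on `SL_3(ℝ)` -/
noncomputable def len (g : G3) : ℝ :=
  Real.log (nrm (g : Matrix (Fin 3) (Fin 3) ℝ)) + Real.log (nrm ((g⁻¹ : G3) : Matrix (Fin 3) (Fin 3) ℝ))

lemma log_nrm_nonneg (g : G3) : 0 ≤ Real.log (nrm (g : Matrix (Fin 3) (Fin 3) ℝ)) :=
  Real.log_nonneg (one_le_nrm g)

lemma len_nonneg (g : G3) : 0 ≤ len g :=
  add_nonneg (log_nrm_nonneg g) (log_nrm_nonneg g⁻¹)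

lemma len_inv (g : G3) : len g⁻¹ = len g := by
  unfold len
  rw [inv_inv, add_comm]

lemma log_nrm_mul_le (g h : G3) :
    Real.log (nrm ((g * h : G3) : Matrix (Fin 3) (Fin 3) ℝ)) ≤
      Real.log (nrm (g : Matrix (Fin 3) (Fin 3) ℝ)) + Real.log (nrm (h : Matrix (Fin 3) (Fin 3) ℝ)) := by
  rw [← Real.log_mul (nrm_pos g).ne' (nrm_pos h).ne']
  refine Real.log_le_log (nrm_pos _) ?_
  rw [Matrix.SpecialLinearGroup.coe_mul]
  exact nrm_mul_le _ _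

lemma len_mul_le (g h : G3) : len (g * h) ≤ len g + len h := by
  unfold len
  rw [_root_.mul_inv_rev]
  have h1 := log_nrm_mul_le g h
  have h2 := log_nrm_mul_le h⁻¹ g⁻¹
  linarith

lemma log_nrm_le_len (g : G3) : Real.log (nrm (g : Matrix (Fin 3) (Fin 3) ℝ)) ≤ len g := by
  unfold len
  linarith [log_nrm_nonneg g⁻¹]

lemma len_le (g : G3) : len g ≤ 3 * Real.log (nrm (g : Matrix (Fin 3) (Fin 3) ℝ)) := by
  unfold len
  have h1 : Real.log (nrm ((g⁻¹ : G3) : Matrix (Fin 3) (Fin 3) ℝ)) ≤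
      Real.log (nrm (g : Matrix (Fin 3) (Fin 3) ℝ) ^ 2) :=
    Real.log_le_log (nrm_pos _) (nrm_inv_le g)
  rw [Real.log_pow] at h1
  push_cast at h1
  linarith

/-- the inclusion of integer matrices in real matrices -/
noncomputable def toR : Z3 →* G3 := Matrix.SpecialLinearGroup.map (Int.castRingHom ℝ)

@[simp] lemma toR_apply (γ : Z3) (i j : Fin 3) :
    ((toR γ : G3) : Matrix (Fin 3) (Fin 3) ℝ) i j = ((γ i j : ℤ) : ℝ) := rfl

end Pool.Agent.Lib.MP_c058bc_gt
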