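import Mathlib

/-!
Planar geometry of half planes glued along a chain of five planes.
-/

set_option autoImplicit false

namespace Pool.Agent.Lib.MP_c058bc_gt

/-- the plane -/
abbrev PP2 := ℝ × ℝ

/-- first simple root -/
def ra (x : PP2) : ℝ := x.1 - x.2
/-- second simple root -/
def rb (x : PP2) : ℝ := x.1 + 2 * x.2
/-- highest root -/
def rs (x : PP2) : ℝ := 2 * x.1 + x.2

/-- the point dividing a segment -/
def mid (t : ℝ) (x y : PP2) : PP2 := ((1 - t) * x.1 + t * y.1, (1 - t) * x.2 + t * y.2)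

/-- a set which is convex with convex complement, phrased with points of segments -/
def Half (E : PP2 → Prop) : Prop :=
  ∀ (t : ℝ) (x y : PP2), 0 ≤ t → t ≤ 1 → (E x → E y → E (mid t x y)) ∧ (¬ E x → ¬ E y → ¬ E (mid t x y))

lemma Half.not {E : PP2 → Prop} (h : Half E) : Half (fun x => ¬ E x) := by
  intro t x y h0 h1
  obtain ⟨a, b⟩ := h t x y h0 h1
  exact ⟨b, fun hx hy => by push Not at hx hy ⊢; exact a hx hy⟩

/-- the property that the boundary of the set is parallel to the wall of the highest root -/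
def Par (E : PP2 → Prop) : Prop := (∀ x, 2 < rs x → E x) ∧ (∀ x, rs x < 0 → ¬ E x)

lemma Par.step {E E' : PP2 → Prop} (f : PP2 → ℝ) (hE' : Half E')
    (hf : ∀ t x y, f (mid t x y) = (1 - t) * f x + t * f y)
    (hex : ∀ s T : ℝ, ∃ y, rs y = s ∧ f y = T)
    (hglue : ∀ x, 1 ≤ f x → (E x ↔ E' x)) (hP : Par E) : Par E' := by
  have hrs : ∀ t x y, rs (mid t x y) = (1 - t) * rs x + t * rs y := by
    intro t x y
    simp only [rs, mid]
    ring
  obtain ⟨hP1, hP2⟩ := hP
  constructor
  · intro x hx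
    by_contra hcon
    rcases le_or_gt 1 (f x) with h1 | h1
    · exact hcon ((hglue x h1).mp (hP1 x hx))
    · set l := (rs x - 2) / (2 * (rs x + 1)) with hl
      have hden : 0 < 2 * (rs x + 1) := by linarith
      have hl0 : 0 < l := div_pos (by linarith) hden
      have hl1 : l ≤ 1 := by
        rw [hl, div_le_one hden]
        linarith
      set T := f x + (1 - f x) / l with hT
      have hT1 : 1 ≤ T := by
        have : 1 - f x ≤ (1 - f x) / l := by
          rw [le_div_iff₀ hl0]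
          nlinarith
        linarith
      obtain ⟨y, hy1, hy2⟩ := hex (-1) T
      have hyE : ¬ E y := hP2 y (by rw [hy1]; norm_num)
      have hyE' : ¬ E' y := fun h => hyE ((hglue y (by rw [hy2]; exact hT1)).mpr h)
      have hz := (hE' l x y hl0.le hl1).2 hcon hyE'
      have hfz : f (mid l x y) = 1 := by
        rw [hf, hy2, hT]
        field_simp
        ring
      have hsz : 2 < rs (mid l x y) := by
        rw [hrs, hy1]
        have : l * (rs x + 1) = (rs x - 2) / 2 := by
          rw [hl]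
          field_simp
        nlinarith
      exact hz ((hglue _ (by rw [hfz])).mp (hP1 _ hsz))
  · intro x hx hcon
    rcases le_or_gt 1 (f x) with h1 | h1
    · exact hP2 x hx ((hglue x h1).mpr hcon)
    · set l := (- rs x) / (2 * (3 - rs x)) with hl
      have hden : 0 < 2 * (3 - rs x) := by linarith
      have hl0 : 0 < l := div_pos (by linarith) hden
      have hl1 : l ≤ 1 := by
        rw [hl, div_le_one hden]
        linarith
      set T := f x + (1 - f x) / l with hT
      have hT1 : 1 ≤ T := by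
        have : 1 - f x ≤ (1 - f x) / l := by
          rw [le_div_iff₀ hl0]
          nlinarith
        linarith
      obtain ⟨y, hy1, hy2⟩ := hex 3 T
      have hyE : E y := hP1 y (by rw [hy1]; norm_num)
      have hyE' : E' y := (hglue y (by rw [hy2]; exact hT1)).mp hyE
      have hz := (hE' l x y hl0.le hl1).1 hcon hyE'
      have hfz : f (mid l x y) = 1 := by
        rw [hf, hy2, hT]
        field_simp
        ring
      have hsz : rs (mid l x y) < 0 := by
        rw [hrs, hy1]
        have hne : (3 - rs x) ≠ 0 := by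
          have : 0 < 3 - rs x := by linarith
          exact this.ne'
        have : l * (3 - rs x) = (- rs x) / 2 := by
          rw [hl]
          field_simp
        nlinarith
      exact hP2 _ hsz ((hglue _ (by rw [hfz])).mpr hz)

lemma ra_mid (t : ℝ) (x y : PP2) : ra (mid t x y) = (1 - t) * ra x + t * ra y := by
  simp only [ra, mid]; ring
lemma rb_mid (t : ℝ) (x y : PP2) : rb (mid t x y) = (1 - t) * rb x + t * rb y := by
  simp only [rb, mid]; ring
lemma ra_ex (s T : ℝ) : ∃ y, rs y = s ∧ ra y = T :=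
  ⟨((s + T) / 3, (s - 2 * T) / 3), by simp only [rs]; ring, by simp only [ra]; ring⟩
lemma rb_ex (s T : ℝ) : ∃ y, rs y = s ∧ rb y = T :=
  ⟨((2 * s - T) / 3, (2 * T - s) / 3), by simp only [rs]; ring, by simp only [rb]; ring⟩

/-- if the far half plane is in the set and the origin is not, then the boundary is parallel -/
lemma Par.of_far {E : PP2 → Prop} (hE : Half E) (h0 : ¬ E (0, 0)) (hD : ∀ x, 2 ≤ rs x → E x) : Par E := by
  refine ⟨fun x hx => hD x hx.le, fun x hx hxE => h0 ?_⟩
  set s := 2 / (- rs x) with hs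
  have hs0 : 0 < s := div_pos (by norm_num) (by linarith)
  have hy : E (-(s * x.1), -(s * x.2)) := by
    apply hD
    simp only [rs] at hx hs ⊢
    have hne : (-(2 * x.1 + x.2)) ≠ 0 := by
      have : 0 < -(2 * x.1 + x.2) := by linarith
      exact this.ne'
    have : s * (-(2 * x.1 + x.2)) = 2 := by
      rw [hs]
      exact div_mul_cancel₀ _ hne
    linarith
  have hz := (hE (1 / (1 + s)) x _ (by positivity) (by rw [div_le_one (by positivity)]; linarith)).1 hxE hy
  have e : mid (1 / (1 + s)) x (-(s * x.1), -(s * x.2)) = (0, 0) := by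
    simp only [mid]
    have : (1 + s) ≠ 0 := by positivity
    ext
    · simp only
      field_simp
      ring
    · simp only
      field_simp
      ring
  rwa [e] at hz

/-- points of the square of side `2 e` -/
lemma in_square {E : PP2 → Prop} (hE : Half E) {e : ℝ} (he : 0 < e)
    (h1 : ¬ E (e, e)) (h2 : ¬ E (e, -e)) (h3 : ¬ E (-e, e)) (h4 : ¬ E (-e, -e)) (b : PP2)
    (hb1 : |b.1| ≤ e) (hb2 : |b.2| ≤ e) : ¬ E b := by
  obtain ⟨b1, b2⟩ := b
  simp only at hb1 hb2
  rw [abs_le] at hb1 hb2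
  set t := (b1 + e) / (2 * e) with ht
  set u := (b2 + e) / (2 * e) with hu
  have ht0 : 0 ≤ t := div_nonneg (by linarith) (by linarith)
  have ht1 : t ≤ 1 := by rw [ht, div_le_one (by linarith)]; linarith
  have hu0 : 0 ≤ u := div_nonneg (by linarith) (by linarith)
  have hu1 : u ≤ 1 := by rw [hu, div_le_one (by linarith)]; linarith
  have hx : (1 - t) * (-e) + t * e = b1 := by rw [ht]; field_simp; ring
  have hy : (1 - u) * (-e) + u * e = b2 := by rw [hu]; field_simp; ring
  have a1 := (hE t (-e, e) (e, e) ht0 ht1).2 h3 h1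
  have a2 := (hE t (-e, -e) (e, -e) ht0 ht1).2 h4 h2
  have e1 : mid t (-e, e) (e, e) = (b1, e) := by
    simp only [mid]
    ext
    · simp only; exact hx
    · simp only; ring
  have e2 : mid t (-e, -e) (e, -e) = (b1, -e) := by
    simp only [mid]
    ext
    · simp only; exact hx
    · simp only; ring
  rw [e1] at a1
  rw [e2] at a2
  have a3 := (hE u (b1, -e) (b1, e) hu0 hu1).2 a2 a1
  have e3 : mid u (b1, -e) (b1, e) = (b1, b2) := by
    simp only [mid]
    ext
    · simp only; ring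
    · simp only; exact hy
  rwa [e3] at a3

/-- local propagation inside the far half plane -/
lemma far_local {E E' : PP2 → Prop} (hE : Half E) (hE' : Half E') {e : ℝ}
    (hsq : ∀ b : PP2, |b.1| ≤ e → |b.2| ≤ e → ¬ E b) (h0 : E' (0, 0))
    (hglue : ∀ x, 2 ≤ rs x → (E x ↔ E' x)) (x y : PP2) (hy : 2 ≤ rs y)
    (hxE : E x) (h1 : |x.1 - y.1| ≤ e / 2) (h2 : |x.2 - y.2| ≤ e / 2) : E y := by
  -- b = 2 (x - y)
  have hb : ¬ E (2 * (x.1 - y.1), 2 * (x.2 - y.2)) := by
    apply hsq
    · simp only [abs_mul, abs_two]; linarith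
    · simp only [abs_mul, abs_two]; linarith
  have h2y : E (2 * y.1, 2 * y.2) := by
    by_contra hcon
    have := (hE (1 / 2) _ _ (by norm_num) (by norm_num)).2 hb hcon
    apply this
    have e1 : mid (1 / 2) (2 * (x.1 - y.1), 2 * (x.2 - y.2)) (2 * y.1, 2 * y.2) = x := by
      simp only [mid]
      ext
      · simp only; ring
      · simp only; ring
    rw [e1]
    exact hxE
  have h2y' : E' (2 * y.1, 2 * y.2) := by
    refine (hglue _ ?_).mp h2y
    simp only [rs] at hy ⊢
    linarith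
  have hy' := (hE' (1 / 2) _ _ (by norm_num) (by norm_num)).1 h0 h2y'
  have e2 : mid (1 / 2) ((0, 0) : PP2) (2 * y.1, 2 * y.2) = y := by
    simp only [mid]
    ext
    · simp only; ring
    · simp only; ring
  rw [e2] at hy'
  exact (hglue y hy).mpr hy'

/-- global propagation inside the far half plane -/
lemma far_global {E E' : PP2 → Prop} (hE : Half E) (hE' : Half E') {e : ℝ} (he : 0 < e)
    (hsq : ∀ b : PP2, |b.1| ≤ e → |b.2| ≤ e → ¬ E b) (h0 : E' (0, 0))
    (hglue : ∀ x, 2 ≤ rs x → (E x ↔ E' x)) (x y : PP2) (hx : 2 ≤ rs x) (hy : 2 ≤ rs y)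
    (hxE : E x) : E y := by
  obtain ⟨N, hN⟩ := exists_nat_gt (2 * (|y.1 - x.1| + |y.2 - x.2|) / e)
  have hN0 : (0 : ℝ) < N := lt_of_le_of_lt (by positivity) hN
  rw [div_lt_iff₀ he] at hN
  have hstep : ∀ k : ℕ, k ≤ N → E (mid ((k : ℝ) / N) x y) := by
    intro k
    induction k with
    | zero =>
      intro _
      have : mid (((0 : ℕ) : ℝ) / N) x y = x := by
        simp [mid]
      rw [this]
      exact hxE
    | succ k ih =>
      intro hk
      have hrs : ∀ t : ℝ, 0 ≤ t → t ≤ 1 → 2 ≤ rs (mid t x y) := by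
        intro t ht0 ht1
        have : rs (mid t x y) = (1 - t) * rs x + t * rs y := by
          simp only [rs, mid]; ring
        rw [this]
        nlinarith
      have hk' : ((k : ℝ) + 1) ≤ N := by exact_mod_cast hk
      have q2 : (((k + 1 : ℕ) : ℝ)) / N ≤ 1 := by rw [div_le_one hN0]; push_cast; linarith
      refine far_local hE hE' hsq h0 hglue (mid ((k : ℝ) / N) x y) _
        (hrs _ (by positivity) q2) (ih (by omega)) ?_ ?_
      · have : (mid ((k : ℝ) / N) x y).1 - (mid (((k + 1 : ℕ) : ℝ) / N) x y).1 = -((y.1 - x.1) / N) := by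
          simp only [mid]
          push_cast
          field_simp
          ring
        rw [this, abs_neg, abs_div, abs_of_pos hN0, div_le_iff₀ hN0]
        nlinarith [abs_nonneg (y.2 - x.2)]
      · have : (mid ((k : ℝ) / N) x y).2 - (mid (((k + 1 : ℕ) : ℝ) / N) x y).2 = -((y.2 - x.2) / N) := by
          simp only [mid]
          push_cast
          field_simp
          ring
        rw [this, abs_neg, abs_div, abs_of_pos hN0, div_le_iff₀ hN0]
        nlinarith [abs_nonneg (y.1 - x.1)]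
  have h1 := hstep N le_rfl
  have : mid ((N : ℝ) / N) x y = y := by
    rw [div_self hN0.ne']
    simp [mid]
  rwa [this] at h1

/-- the one sided version of the main planar lemma -/
lemma chain_aux {E0 E1 E2 E3 E4 : PP2 → Prop} (h0 : Half E0) (h1 : Half E1) (h2 : Half E2) (h3 : Half E3)
    (h4 : Half E4)
    (g01 : ∀ x, 1 ≤ ra x → (E0 x ↔ E1 x)) (g12 : ∀ x, 1 ≤ rb x → (E1 x ↔ E2 x))
    (g23 : ∀ x, 1 ≤ ra x → (E2 x ↔ E3 x)) (g34 : ∀ x, 1 ≤ rb x → (E3 x ↔ E4 x))
    (g04 : ∀ x, 2 ≤ rs x → (E0 x ↔ E4 x)) {e : ℝ} (he : 0 < e)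
    (n0 : ¬ E0 (0, 0)) (n1 : ¬ E0 (e, e)) (n2 : ¬ E0 (e, -e)) (n3 : ¬ E0 (-e, e)) (n4 : ¬ E0 (-e, -e))
    (p0 : E4 (0, 0)) (p4 : E4 (-e, -e)) : False := by
  have hsq : ∀ b : PP2, |b.1| ≤ e → |b.2| ≤ e → ¬ E0 b := fun b hb1 hb2 =>
    in_square h0 he n1 n2 n3 n4 b hb1 hb2
  have hneg : rs (-e, -e) < 0 := by simp only [rs]; linarith
  by_cases hfar : ∃ x, 2 ≤ rs x ∧ E0 x
  · obtain ⟨x, hx, hxE⟩ := hfar
    have hD : ∀ y, 2 ≤ rs y → E0 y := fun y hy => far_global h0 h4 he hsq p0 g04 x y hx hy hxE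
    have P0 : Par E0 := Par.of_far h0 n0 hD
    have P1 : Par E1 := P0.step ra h1 ra_mid ra_ex g01
    have P2 : Par E2 := P1.step rb h2 rb_mid rb_ex g12
    have P3 : Par E3 := P2.step ra h3 ra_mid ra_ex g23
    have P4 : Par E4 := P3.step rb h4 rb_mid rb_ex g34
    exact P4.2 _ hneg p4
  · push Not at hfar
    have hD : ∀ y, 2 ≤ rs y → ¬ E4 y := fun y hy h => hfar y hy ((g04 y hy).mpr h)
    have P4 : Par (fun x => ¬ E4 x) := Par.of_far h4.not (by push Not; exact p0) hD
    have P3 : Par (fun x => ¬ E3 x) := P4.step rb h3.not rb_mid rb_ex (fun x hx => not_congr (g34 x hx).symm)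
    have P2 : Par (fun x => ¬ E2 x) := P3.step ra h2.not ra_mid ra_ex (fun x hx => not_congr (g23 x hx).symm)
    have P1 : Par (fun x => ¬ E1 x) := P2.step rb h1.not rb_mid rb_ex (fun x hx => not_congr (g12 x hx).symm)
    have P0 : Par (fun x => ¬ E0 x) := P1.step ra h0.not ra_mid ra_ex (fun x hx => not_congr (g01 x hx).symm)
    exact P0.2 _ hneg n4

/-- **Main planar lemma**. -/
theorem chain_planar {E0 E1 E2 E3 E4 : PP2 → Prop} (h0 : Half E0) (h1 : Half E1) (h2 : Half E2)
    (h3 : Half E3) (h4 : Half E4)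
    (g01 : ∀ x, 1 ≤ ra x → (E0 x ↔ E1 x)) (g12 : ∀ x, 1 ≤ rb x → (E1 x ↔ E2 x))
    (g23 : ∀ x, 1 ≤ ra x → (E2 x ↔ E3 x)) (g34 : ∀ x, 1 ≤ rb x → (E3 x ↔ E4 x))
    (g04 : ∀ x, 2 ≤ rs x → (E0 x ↔ E4 x)) {e : ℝ} (he : 0 < e)
    (n1 : E0 (e, e) ↔ E0 (0, 0)) (n2 : E0 (e, -e) ↔ E0 (0, 0)) (n3 : E0 (-e, e) ↔ E0 (0, 0))
    (n4 : E0 (-e, -e) ↔ E0 (0, 0)) (p4 : E4 (-e, -e) ↔ E4 (0, 0)) : E0 (0, 0) ↔ E4 (0, 0) := by
  by_contra hcon
  by_cases c0 : E0 (0, 0)
  · have c4 : ¬ E4 (0, 0) := fun h => hcon ⟨fun _ => h, fun _ => c0⟩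
    refine chain_aux h0.not h1.not h2.not h3.not h4.not (fun x hx => not_congr (g01 x hx))
      (fun x hx => not_congr (g12 x hx)) (fun x hx => not_congr (g23 x hx))
      (fun x hx => not_congr (g34 x hx)) (fun x hx => not_congr (g04 x hx)) he ?_ ?_ ?_ ?_ ?_ ?_ ?_
    · exact not_not.mpr c0
    · exact not_not.mpr (n1.mpr c0)
    · exact not_not.mpr (n2.mpr c0)
    · exact not_not.mpr (n3.mpr c0)
    · exact not_not.mpr (n4.mpr c0)
    · exact c4
    · exact fun h => c4 (p4.mp h)
  · have c4 : E4 (0, 0) := by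
      by_contra h
      exact hcon ⟨fun h' => absurd h' c0, fun h' => absurd h' h⟩
    exact chain_aux h0 h1 h2 h3 h4 g01 g12 g23 g34 g04 he c0 (fun h => c0 (n1.mp h)) (fun h => c0 (n2.mp h))
      (fun h => c0 (n3.mp h)) (fun h => c0 (n4.mp h)) c4 (p4.mpr c4)

end Pool.Agent.Lib.MP_c058bc_gt
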