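import Pool.Agent.Lib.MP_c058bc_gt.LMR2

/-!
Reduction of lattices in dimension three: if all nonzero vectors of the unimodular lattice `L ℤ³` have
size at least `ε`, then some basis `L γ` has length at most `9 (1 + log (1/ε))`.
-/

set_option autoImplicit false

namespace Pool.Agent.Lib.MP_c058bc_gt

open Matrix

/-- Gram matrix entries -/
noncomputable def gr (M : Matrix (Fin 3) (Fin 3) ℝ) (j k : Fin 3) : ℝ := ∑ i, M i j * M i k

/-- squared length of the first column -/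
noncomputable def d1 (M : Matrix (Fin 3) (Fin 3) ℝ) : ℝ := gr M 0 0
/-- squared area spanned by the first two columns -/
noncomputable def d2 (M : Matrix (Fin 3) (Fin 3) ℝ) : ℝ := gr M 0 0 * gr M 1 1 - gr M 0 1 ^ 2

lemma mulR_apply (M : G3) (γ : Z3) (i j : Fin 3) :
    ((M * toR γ : G3) : Matrix (Fin 3) (Fin 3) ℝ) i j =
      M i 0 * (γ 0 j : ℝ) + M i 1 * (γ 1 j : ℝ) + M i 2 * (γ 2 j : ℝ) := by
  rw [Matrix.SpecialLinearGroup.coe_mul, Matrix.mul_apply, Fin.sum_univ_three]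
  simp

/-- swap the first two columns after a translation -/
def S1 (m : ℤ) : Z3 := ⟨!![-m, -1, 0; 1, 0, 0; 0, 0, 1], by simp [Matrix.det_fin_three]⟩
/-- swap the last two columns after a translation -/
def S2 (m : ℤ) : Z3 := ⟨!![1, 0, 0; 0, -m, -1; 0, 1, 0], by simp [Matrix.det_fin_three]⟩

lemma d1_S1 (M : G3) (m : ℤ) :
    d1 ((M * toR (S1 m) : G3) : Matrix (Fin 3) (Fin 3) ℝ) = gr M 1 1 - 2 * m * gr M 0 1 + m ^ 2 * gr M 0 0 := by
  unfold d1 gr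
  simp only [mulR_apply, Fin.sum_univ_three]
  simp [S1]
  ring

lemma d2_S1 (M : G3) (m : ℤ) :
    d2 ((M * toR (S1 m) : G3) : Matrix (Fin 3) (Fin 3) ℝ) = d2 M := by
  unfold d2 gr
  simp only [mulR_apply, Fin.sum_univ_three]
  simp [S1]
  ring

lemma d1_S2 (M : G3) (m : ℤ) :
    d1 ((M * toR (S2 m) : G3) : Matrix (Fin 3) (Fin 3) ℝ) = d1 M := by
  unfold d1 gr
  simp only [mulR_apply, Fin.sum_univ_three]
  simp [S2]

lemma d2_S2 (M : G3) (m : ℤ) :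
    d2 ((M * toR (S2 m) : G3) : Matrix (Fin 3) (Fin 3) ℝ) =
      d2 M * m ^ 2 - 2 * (gr M 0 0 * gr M 1 2 - gr M 0 1 * gr M 0 2) * m +
        (gr M 0 0 * gr M 2 2 - gr M 0 2 ^ 2) := by
  unfold d2 gr
  simp only [mulR_apply, Fin.sum_univ_three]
  simp [S2]
  ring

lemma gram_identity (M : G3) :
    (gr M 0 0 * gr M 1 1 - gr M 0 1 ^ 2) * (gr M 0 0 * gr M 2 2 - gr M 0 2 ^ 2) -
      (gr M 0 0 * gr M 1 2 - gr M 0 1 * gr M 0 2) ^ 2 = gr M 0 0 := by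
  have h := det_entries M
  have e : (gr M 0 0 * gr M 1 1 - gr M 0 1 ^ 2) * (gr M 0 0 * gr M 2 2 - gr M 0 2 ^ 2) -
      (gr M 0 0 * gr M 1 2 - gr M 0 1 * gr M 0 2) ^ 2 = gr M 0 0 *
      (M 0 0 * M 1 1 * M 2 2 - M 0 0 * M 1 2 * M 2 1 - M 0 1 * M 1 0 * M 2 2 +
      M 0 1 * M 1 2 * M 2 0 + M 0 2 * M 1 0 * M 2 1 - M 0 2 * M 1 1 * M 2 0) ^ 2 := by
    unfold gr
    simp only [Fin.sum_univ_three]
    ring
  rw [e, h]
  ring

/-- the second invariant is the squared length of the last row of the inverse -/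
lemma d2_eq_inv (M : G3) :
    d2 (M : Matrix (Fin 3) (Fin 3) ℝ) =
      ((M⁻¹ : G3) : Matrix (Fin 3) (Fin 3) ℝ) 2 0 ^ 2 + ((M⁻¹ : G3) : Matrix (Fin 3) (Fin 3) ℝ) 2 1 ^ 2 +
      ((M⁻¹ : G3) : Matrix (Fin 3) (Fin 3) ℝ) 2 2 ^ 2 := by
  rw [Matrix.SpecialLinearGroup.coe_inv, Matrix.adjugate_fin_three]
  unfold d2 gr
  simp [Fin.sum_univ_three]
  ring

lemma exists_col_ne (γ : Z3) (j : Fin 3) : (fun i => γ i j) ≠ 0 := by
  intro h
  have hd := det_entriesZ γ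
  have h0 : ∀ i, γ i j = 0 := fun i => congrFun h i
  fin_cases j
  · have a := h0 0
    have b := h0 1
    have c := h0 2
    simp only [Fin.zero_eta] at a b c
    rw [a, b, c] at hd
    simp at hd
  · have a := h0 0
    have b := h0 1
    have c := h0 2
    simp only [Fin.mk_one] at a b c
    rw [a, b, c] at hd
    simp at hd
  · have a := h0 0
    have b := h0 1
    have c := h0 2
    simp only [Fin.reduceFinMk] at a b c
    rw [a, b, c] at hd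
    simp at hd

lemma exists_row_ne (γ : Z3) (i : Fin 3) : (fun j => γ i j) ≠ 0 := by
  intro h
  have hd := det_entriesZ γ
  have h0 : ∀ j, γ i j = 0 := fun j => congrFun h j
  fin_cases i
  · have a := h0 0
    have b := h0 1
    have c := h0 2
    simp only [Fin.zero_eta] at a b c
    rw [a, b, c] at hd
    simp at hd
  · have a := h0 0
    have b := h0 1
    have c := h0 2
    simp only [Fin.mk_one] at a b c
    rw [a, b, c] at hd
    simp at hd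
  · have a := h0 0
    have b := h0 1
    have c := h0 2
    simp only [Fin.reduceFinMk] at a b c
    rw [a, b, c] at hd
    simp at hd

lemma sq_sum_ge {a b c t : ℝ} (ht : 0 ≤ t) (h : t ≤ |a| ∨ t ≤ |b| ∨ t ≤ |c|) : t ^ 2 ≤ a ^ 2 + b ^ 2 + c ^ 2 := by
  rcases h with h | h | h
  · have : t ^ 2 ≤ a ^ 2 := by rw [← sq_abs a]; exact pow_le_pow_left₀ ht h 2
    nlinarith [sq_nonneg b, sq_nonneg c]
  · have : t ^ 2 ≤ b ^ 2 := by rw [← sq_abs b]; exact pow_le_pow_left₀ ht h 2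
    nlinarith [sq_nonneg a, sq_nonneg c]
  · have : t ^ 2 ≤ c ^ 2 := by rw [← sq_abs c]; exact pow_le_pow_left₀ ht h 2
    nlinarith [sq_nonneg b, sq_nonneg a]

/-- lower bound for the second invariant in terms of the size of `L` -/
lemma d2_lower (L : G3) (γ : Z3) :
    (1 / (3 * nrm (L : Matrix (Fin 3) (Fin 3) ℝ))) ^ 2 ≤
      d2 ((L * toR γ : G3) : Matrix (Fin 3) (Fin 3) ℝ) := by
  rw [d2_eq_inv]
  set R := ((L * toR γ)⁻¹ : G3) with hR
  have hL := nrm_pos L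
  apply sq_sum_ge (by positivity)
  -- R * L = γ⁻¹
  have hmul : R * L = toR γ⁻¹ := by
    rw [hR, _root_.mul_inv_rev, map_inv, mul_assoc, inv_mul_cancel, mul_one]
  by_contra hcon
  push Not at hcon
  obtain ⟨c0, c1, c2⟩ := hcon
  have hne := exists_row_ne γ⁻¹ 2
  apply hne
  funext j
  have hent : ((R * L : G3) : Matrix (Fin 3) (Fin 3) ℝ) 2 j =
      R 2 0 * L 0 j + R 2 1 * L 1 j + R 2 2 * L 2 j := by
    rw [Matrix.SpecialLinearGroup.coe_mul, Matrix.mul_apply, Fin.sum_univ_three]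
  rw [hmul, toR_apply] at hent
  have a0 := abs_le_nrm (L : Matrix (Fin 3) (Fin 3) ℝ) 0 j
  have a1 := abs_le_nrm (L : Matrix (Fin 3) (Fin 3) ℝ) 1 j
  have a2 := abs_le_nrm (L : Matrix (Fin 3) (Fin 3) ℝ) 2 j
  have hlt : |((γ⁻¹ 2 j : ℤ) : ℝ)| < 1 := by
    rw [hent]
    have b : ∀ x y : ℝ, |x| < 1 / (3 * nrm (L : Matrix (Fin 3) (Fin 3) ℝ)) →
        |y| ≤ nrm (L : Matrix (Fin 3) (Fin 3) ℝ) → |x * y| < 1 / 3 := by
      intro x y hx hy
      rw [abs_mul]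
      calc |x| * |y| ≤ |x| * nrm (L : Matrix (Fin 3) (Fin 3) ℝ) :=
            mul_le_mul_of_nonneg_left hy (abs_nonneg _)
        _ < 1 / (3 * nrm (L : Matrix (Fin 3) (Fin 3) ℝ)) * nrm (L : Matrix (Fin 3) (Fin 3) ℝ) :=
            mul_lt_mul_of_pos_right hx hL
        _ = 1 / 3 := by field_simp
    have t := abs_add_three (R 2 0 * L 0 j) (R 2 1 * L 1 j) (R 2 2 * L 2 j)
    have := b _ _ c0 a0
    have := b _ _ c1 a1
    have := b _ _ c2 a2
    linarith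
  have : |γ⁻¹ 2 j| < 1 := by exact_mod_cast hlt
  show γ⁻¹ 2 j = 0
  exact Int.abs_lt_one_iff.mp this

lemma d1_lower (L : G3) {ε : ℝ} (hε0 : 0 < ε)
    (h : ∀ v : Fin 3 → ℤ, v ≠ 0 → ∃ i, ε ≤ |L i 0 * (v 0 : ℝ) + L i 1 * (v 1 : ℝ) + L i 2 * (v 2 : ℝ)|)
    (γ : Z3) : ε ^ 2 ≤ d1 ((L * toR γ : G3) : Matrix (Fin 3) (Fin 3) ℝ) := by
  obtain ⟨i, hi⟩ := h (fun i => γ i 0) (exists_col_ne γ 0)
  unfold d1 gr
  rw [Fin.sum_univ_three]
  have key : ε ^ 2 ≤ (((L * toR γ : G3) : Matrix (Fin 3) (Fin 3) ℝ) 0 0) ^ 2 +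
      (((L * toR γ : G3) : Matrix (Fin 3) (Fin 3) ℝ) 1 0) ^ 2 +
      (((L * toR γ : G3) : Matrix (Fin 3) (Fin 3) ℝ) 2 0) ^ 2 := by
    apply sq_sum_ge hε0.le
    simp only [mulR_apply]
    fin_cases i
    · left; exact hi
    · right; left; exact hi
    · right; right; exact hi
  nlinarith

lemma round_bound (A B : ℝ) (hA : 0 < A) (C : ℝ) : ∃ m : ℤ, A * m ^ 2 - 2 * B * m + C ≤ A / 4 + (A * C - B ^ 2) / A := by
  refine ⟨round (B / A), ?_⟩
  have h := abs_sub_round (B / A)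
  have h2 : (B / A - round (B / A)) ^ 2 ≤ 1 / 4 := by
    have := sq_le_sq' (by linarith [neg_abs_le (B / A - round (B / A))] : -(1 / 2) ≤ B / A - round (B / A))
      (by linarith [le_abs_self (B / A - round (B / A))])
    linarith
  have e : A * (round (B / A) : ℝ) ^ 2 - 2 * B * (round (B / A) : ℝ) + C =
      A * (B / A - round (B / A)) ^ 2 + (A * C - B ^ 2) / A := by
    field_simp
    ring
  rw [e]
  nlinarith

lemma E12_col (M : G3) (m : ℤ) (i : Fin 3) :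
    ((M * toR (E12 m) : G3) : Matrix (Fin 3) (Fin 3) ℝ) i 0 = M i 0 ∧
    ((M * toR (E12 m) : G3) : Matrix (Fin 3) (Fin 3) ℝ) i 1 = m * M i 0 + M i 1 ∧
    ((M * toR (E12 m) : G3) : Matrix (Fin 3) (Fin 3) ℝ) i 2 = M i 2 := by
  simp only [mulR_apply]
  simp [E12]
  ring

lemma E13_col (M : G3) (m : ℤ) (i : Fin 3) :
    ((M * toR (E13 m) : G3) : Matrix (Fin 3) (Fin 3) ℝ) i 0 = M i 0 ∧
    ((M * toR (E13 m) : G3) : Matrix (Fin 3) (Fin 3) ℝ) i 1 = M i 1 ∧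
    ((M * toR (E13 m) : G3) : Matrix (Fin 3) (Fin 3) ℝ) i 2 = m * M i 0 + M i 2 := by
  simp only [mulR_apply]
  simp [E13]
  ring

lemma E23_col (M : G3) (m : ℤ) (i : Fin 3) :
    ((M * toR (E23 m) : G3) : Matrix (Fin 3) (Fin 3) ℝ) i 0 = M i 0 ∧
    ((M * toR (E23 m) : G3) : Matrix (Fin 3) (Fin 3) ℝ) i 1 = M i 1 ∧
    ((M * toR (E23 m) : G3) : Matrix (Fin 3) (Fin 3) ℝ) i 2 = m * M i 1 + M i 2 := by
  simp only [mulR_apply]
  simp [E23]
  ring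

lemma gr_self_nonneg (M : Matrix (Fin 3) (Fin 3) ℝ) (j : Fin 3) : 0 ≤ gr M j j := by
  unfold gr
  exact Finset.sum_nonneg fun i _ => mul_self_nonneg _

lemma entry_sq_le (M : Matrix (Fin 3) (Fin 3) ℝ) (i j : Fin 3) : M i j ^ 2 ≤ gr M j j := by
  unfold gr
  rw [sq]
  exact Finset.single_le_sum (f := fun i => M i j * M i j) (fun i _ => mul_self_nonneg _) (Finset.mem_univ i)

/-- after the reduction all Gram diagonal entries are bounded -/
theorem reduction_gram (L : G3) {ε : ℝ} (hε0 : 0 < ε) (hε1 : ε ≤ 1)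
    (h : ∀ v : Fin 3 → ℤ, v ≠ 0 → ∃ i, ε ≤ |L i 0 * (v 0 : ℝ) + L i 1 * (v 1 : ℝ) + L i 2 * (v 2 : ℝ)|) :
    ∃ γ : Z3, ∀ j, gr ((L * toR γ : G3) : Matrix (Fin 3) (Fin 3) ℝ) j j ≤ 4 / ε ^ 6 := by
  classical
  set D : Z3 → ℝ := fun γ => d1 ((L * toR γ : G3) : Matrix (Fin 3) (Fin 3) ℝ) *
    d2 ((L * toR γ : G3) : Matrix (Fin 3) (Fin 3) ℝ) with hD
  have hd1 := d1_lower L hε0 h
  have hd2 := d2_lower L
  set c := (1 / (3 * nrm (L : Matrix (Fin 3) (Fin 3) ℝ))) ^ 2 with hc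
  have hc0 : 0 < c := by
    have := nrm_pos L
    positivity
  have hDl : ∀ γ, ε ^ 2 * c ≤ D γ := fun γ =>
    mul_le_mul (hd1 γ) (hd2 γ) hc0.le ((by positivity : (0 : ℝ) ≤ ε ^ 2).trans (hd1 γ))
  set m := sInf (Set.range D) with hm
  have hbdd : BddBelow (Set.range D) := ⟨ε ^ 2 * c, by rintro _ ⟨γ, rfl⟩; exact hDl γ⟩
  have hne : (Set.range D).Nonempty := Set.range_nonempty D
  have hmpos : 0 < m := lt_of_lt_of_le (show 0 < ε ^ 2 * c by positivity)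
    (le_csInf hne (by rintro _ ⟨γ, rfl⟩; exact hDl γ))
  obtain ⟨_, ⟨γ, rfl⟩, hγ⟩ := exists_lt_of_csInf_lt hne (show m < 10 / 9 * m by linarith)
  have hmin : ∀ γ', 9 / 10 * D γ ≤ D γ' := by
    intro γ'
    have : m ≤ D γ' := csInf_le hbdd ⟨γ', rfl⟩
    linarith
  set M := L * toR γ with hM
  set a := gr (M : Matrix (Fin 3) (Fin 3) ℝ) 0 0 with ha
  set A := d2 (M : Matrix (Fin 3) (Fin 3) ℝ) with hA
  have ha0 : ε ^ 2 ≤ a := hd1 γ
  have hapos : 0 < a := lt_of_lt_of_le (by positivity) ha0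
  have hApos : 0 < A := lt_of_lt_of_le hc0 (hd2 γ)
  have hAdef : A = a * gr (M : Matrix (Fin 3) (Fin 3) ℝ) 1 1 - gr (M : Matrix (Fin 3) (Fin 3) ℝ) 0 1 ^ 2 := rfl
  -- first condition
  have hc1 : 9 / 10 * a ≤ a / 4 + A / a := by
    obtain ⟨n, hn⟩ := round_bound a (gr (M : Matrix (Fin 3) (Fin 3) ℝ) 0 1) hapos
      (gr (M : Matrix (Fin 3) (Fin 3) ℝ) 1 1)
    have h1 := hmin (γ * S1 n)
    have h2 : D (γ * S1 n) = (gr (M : Matrix (Fin 3) (Fin 3) ℝ) 1 1 -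
        2 * n * gr (M : Matrix (Fin 3) (Fin 3) ℝ) 0 1 + n ^ 2 * gr (M : Matrix (Fin 3) (Fin 3) ℝ) 0 0) * A := by
      rw [hD]
      simp only [map_mul]
      rw [← mul_assoc, ← hM, d1_S1, d2_S1]
    have h3 : D γ = a * A := rfl
    rw [h2, h3] at h1
    have h4 : 9 / 10 * a ≤ gr (M : Matrix (Fin 3) (Fin 3) ℝ) 1 1 -
        2 * n * gr (M : Matrix (Fin 3) (Fin 3) ℝ) 0 1 + n ^ 2 * gr (M : Matrix (Fin 3) (Fin 3) ℝ) 0 0 := by
      by_contra hcon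
      push Not at hcon
      have := mul_lt_mul_of_pos_right hcon hApos
      linarith
    rw [← hAdef] at hn
    rw [← ha] at h4
    linarith
  have hc2 : 9 / 10 * A ≤ A / 4 + a / A := by
    obtain ⟨n, hn⟩ := round_bound A (gr (M : Matrix (Fin 3) (Fin 3) ℝ) 0 0 * gr (M : Matrix (Fin 3) (Fin 3) ℝ) 1 2 -
      gr (M : Matrix (Fin 3) (Fin 3) ℝ) 0 1 * gr (M : Matrix (Fin 3) (Fin 3) ℝ) 0 2) hApos
      (gr (M : Matrix (Fin 3) (Fin 3) ℝ) 0 0 * gr (M : Matrix (Fin 3) (Fin 3) ℝ) 2 2 -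
        gr (M : Matrix (Fin 3) (Fin 3) ℝ) 0 2 ^ 2)
    have h1 := hmin (γ * S2 n)
    have h2 : D (γ * S2 n) = a * (A * n ^ 2 - 2 * (gr (M : Matrix (Fin 3) (Fin 3) ℝ) 0 0 *
        gr (M : Matrix (Fin 3) (Fin 3) ℝ) 1 2 -
        gr (M : Matrix (Fin 3) (Fin 3) ℝ) 0 1 * gr (M : Matrix (Fin 3) (Fin 3) ℝ) 0 2) * n +
        (gr (M : Matrix (Fin 3) (Fin 3) ℝ) 0 0 * gr (M : Matrix (Fin 3) (Fin 3) ℝ) 2 2 -
        gr (M : Matrix (Fin 3) (Fin 3) ℝ) 0 2 ^ 2)) := by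
      rw [hD]
      simp only [map_mul]
      rw [← mul_assoc, ← hM, d1_S2, d2_S2]
      rfl
    have h3 : D γ = a * A := rfl
    rw [h2, h3] at h1
    have hid := gram_identity M
    have hid' : A * (gr (M : Matrix (Fin 3) (Fin 3) ℝ) 0 0 * gr (M : Matrix (Fin 3) (Fin 3) ℝ) 2 2 -
        gr (M : Matrix (Fin 3) (Fin 3) ℝ) 0 2 ^ 2) - (gr (M : Matrix (Fin 3) (Fin 3) ℝ) 0 0 *
        gr (M : Matrix (Fin 3) (Fin 3) ℝ) 1 2 -
        gr (M : Matrix (Fin 3) (Fin 3) ℝ) 0 1 * gr (M : Matrix (Fin 3) (Fin 3) ℝ) 0 2) ^ 2 = a := hid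
    rw [hid'] at hn
    by_contra hcon
    push Not at hcon
    have h5 := mul_lt_mul_of_pos_left (lt_of_le_of_lt hn hcon) hapos
    linarith
  have hk1 : 65 / 100 * a ^ 2 ≤ A := by
    have : 65 / 100 * a ≤ A / a := by linarith
    rw [le_div_iff₀ hapos] at this
    nlinarith
  have hk2 : 65 / 100 * A ^ 2 ≤ a := by
    have : 65 / 100 * A ≤ a / A := by linarith
    rw [le_div_iff₀ hApos] at this
    nlinarith
  -- consequences
  have ha2 : a ≤ 2 := by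
    by_contra hcon
    push Not at hcon
    have h1 : 65 / 100 * 4 ≤ A := by nlinarith
    have h2 : 65 / 100 * (65 / 100 * a ^ 2) ^ 2 ≤ a := by
      have : (65 / 100 * a ^ 2) ^ 2 ≤ A ^ 2 := pow_le_pow_left₀ (by positivity) hk1 2
      linarith
    have h3 : a ^ 4 ≤ 4 * a := by nlinarith [sq_nonneg (a ^ 2)]
    have h4 : a ^ 3 ≤ 4 := by
      have : a * a ^ 3 ≤ a * 4 := by nlinarith
      exact le_of_mul_le_mul_left this hapos
    have h5 : (2 : ℝ) ^ 3 < a ^ 3 := pow_lt_pow_left₀ hcon (by norm_num) (by norm_num)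
    norm_num at h5
    linarith
  have hA2 : A ≤ 2 := by
    by_contra hcon
    push Not at hcon
    nlinarith
  have hAlow : 65 / 100 * ε ^ 4 ≤ A := by
    have : ε ^ 4 ≤ a ^ 2 := by
      have := pow_le_pow_left₀ (by positivity : (0 : ℝ) ≤ ε ^ 2) ha0 2
      nlinarith
    linarith
  -- size reduction of the second column
  obtain ⟨n1, hn1⟩ := round_bound a (gr (M : Matrix (Fin 3) (Fin 3) ℝ) 0 1) hapos
      (gr (M : Matrix (Fin 3) (Fin 3) ℝ) 1 1)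
  rw [← hAdef] at hn1
  set M1 := M * toR (E12 (-n1)) with hM1
  have g00 : gr (M1 : Matrix (Fin 3) (Fin 3) ℝ) 0 0 = a := by
    rw [ha, hM1]
    unfold gr
    simp only [(E12_col M (-n1) _).1]
  have g11 : gr (M1 : Matrix (Fin 3) (Fin 3) ℝ) 1 1 ≤ a / 4 + A / a := by
    refine le_trans (le_of_eq ?_) hn1
    rw [hM1, ha]
    unfold gr
    simp only [(E12_col M (-n1) _).2.1, Fin.sum_univ_three]
    push_cast
    ring
  have hA1 : d2 (M1 : Matrix (Fin 3) (Fin 3) ℝ) = A := by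
    rw [hM1, hA]
    unfold d2 gr
    simp only [(E12_col M (-n1) _).1, (E12_col M (-n1) _).2.1, Fin.sum_univ_three]
    push_cast
    ring
  -- size reduction of the third column against the second
  obtain ⟨n2, hn2⟩ := round_bound A (gr (M1 : Matrix (Fin 3) (Fin 3) ℝ) 0 0 *
      gr (M1 : Matrix (Fin 3) (Fin 3) ℝ) 1 2 -
      gr (M1 : Matrix (Fin 3) (Fin 3) ℝ) 0 1 * gr (M1 : Matrix (Fin 3) (Fin 3) ℝ) 0 2) hApos
      (gr (M1 : Matrix (Fin 3) (Fin 3) ℝ) 0 0 * gr (M1 : Matrix (Fin 3) (Fin 3) ℝ) 2 2 -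
        gr (M1 : Matrix (Fin 3) (Fin 3) ℝ) 0 2 ^ 2)
  have hid1 := gram_identity M1
  have hid1' : A * (gr (M1 : Matrix (Fin 3) (Fin 3) ℝ) 0 0 * gr (M1 : Matrix (Fin 3) (Fin 3) ℝ) 2 2 -
        gr (M1 : Matrix (Fin 3) (Fin 3) ℝ) 0 2 ^ 2) - (gr (M1 : Matrix (Fin 3) (Fin 3) ℝ) 0 0 *
        gr (M1 : Matrix (Fin 3) (Fin 3) ℝ) 1 2 -
        gr (M1 : Matrix (Fin 3) (Fin 3) ℝ) 0 1 * gr (M1 : Matrix (Fin 3) (Fin 3) ℝ) 0 2) ^ 2 =
        gr (M1 : Matrix (Fin 3) (Fin 3) ℝ) 0 0 := by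
    rw [← hA1]
    exact hid1
  rw [hid1', g00] at hn2
  set M2 := M1 * toR (E23 (-n2)) with hM2
  have k00 : gr (M2 : Matrix (Fin 3) (Fin 3) ℝ) 0 0 = a := by
    rw [← g00, hM2]
    unfold gr
    simp only [(E23_col M1 (-n2) _).1]
  have k11 : gr (M2 : Matrix (Fin 3) (Fin 3) ℝ) 1 1 ≤ a / 4 + A / a := by
    refine le_trans (le_of_eq ?_) g11
    rw [hM2]
    unfold gr
    simp only [(E23_col M1 (-n2) _).2.1]
  have kC : gr (M2 : Matrix (Fin 3) (Fin 3) ℝ) 0 0 * gr (M2 : Matrix (Fin 3) (Fin 3) ℝ) 2 2 -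
        gr (M2 : Matrix (Fin 3) (Fin 3) ℝ) 0 2 ^ 2 ≤ A / 4 + a / A := by
    refine le_trans (le_of_eq ?_) hn2
    rw [← g00, ← hA1, hM2]
    unfold d2 gr
    simp only [(E23_col M1 (-n2) _).1, (E23_col M1 (-n2) _).2.2, Fin.sum_univ_three]
    push_cast
    ring
  -- size reduction of the third column against the first
  obtain ⟨n3, hn3⟩ := round_bound a (gr (M2 : Matrix (Fin 3) (Fin 3) ℝ) 0 2) hapos
      (gr (M2 : Matrix (Fin 3) (Fin 3) ℝ) 2 2)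
  set M3 := M2 * toR (E13 (-n3)) with hM3
  have l00 : gr (M3 : Matrix (Fin 3) (Fin 3) ℝ) 0 0 = a := by
    rw [← k00, hM3]
    unfold gr
    simp only [(E13_col M2 (-n3) _).1]
  have l11 : gr (M3 : Matrix (Fin 3) (Fin 3) ℝ) 1 1 ≤ a / 4 + A / a := by
    refine le_trans (le_of_eq ?_) k11
    rw [hM3]
    unfold gr
    simp only [(E13_col M2 (-n3) _).2.1]
  have l22 : gr (M3 : Matrix (Fin 3) (Fin 3) ℝ) 2 2 ≤ a / 4 + (A / 4 + a / A) / a := by
    have e : gr (M3 : Matrix (Fin 3) (Fin 3) ℝ) 2 2 = a * n3 ^ 2 -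
        2 * gr (M2 : Matrix (Fin 3) (Fin 3) ℝ) 0 2 * n3 + gr (M2 : Matrix (Fin 3) (Fin 3) ℝ) 2 2 := by
      rw [← k00, hM3]
      unfold gr
      simp only [(E13_col M2 (-n3) _).2.2, Fin.sum_univ_three]
      push_cast
      ring
    rw [e]
    refine hn3.trans ?_
    rw [k00] at kC
    have := div_le_div_of_nonneg_right kC hapos.le
    linarith
  refine ⟨γ * (E12 (-n1) * (E23 (-n2) * E13 (-n3))), ?_⟩
  have hfin : L * toR (γ * (E12 (-n1) * (E23 (-n2) * E13 (-n3)))) = M3 := by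
    rw [hM3, hM2, hM1, hM]
    simp only [map_mul, mul_assoc]
  rw [hfin]
  have hε6 : ε ^ 6 ≤ 1 := pow_le_one₀ hε0.le hε1
  have hone : (1 : ℝ) ≤ 1 / ε ^ 6 := by
    rw [le_div_iff₀ (by positivity)]
    linarith
  have hAa : A / a ≤ 2 * (1 / ε ^ 6) := by
    have h1 : A / a ≤ 2 / ε ^ 2 := div_le_div₀ (by norm_num) hA2 (by positivity) ha0
    have h2 : (2 : ℝ) / ε ^ 2 ≤ 2 / ε ^ 6 := by
      apply div_le_div_of_nonneg_left (by norm_num) (by positivity)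
      exact pow_le_pow_of_le_one hε0.le hε1 (by norm_num)
    calc A / a ≤ 2 / ε ^ 2 := h1
      _ ≤ 2 / ε ^ 6 := h2
      _ = 2 * (1 / ε ^ 6) := by ring
  have hquart : (A / 4) / a ≤ 1 / 2 * (1 / ε ^ 6) := by
    have : (A / 4) / a = (A / a) / 4 := by ring
    rw [this]
    linarith
  have hinv : (a / A) / a ≤ 2 * (1 / ε ^ 6) := by
    have e : (a / A) / a = 1 / A := by field_simp
    rw [e]
    have h1 : 1 / A ≤ 1 / (65 / 100 * ε ^ 4) := one_div_le_one_div_of_le (by positivity) hAlow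
    have h2 : 1 / (65 / 100 * ε ^ 4) = 100 / 65 * (1 / ε ^ 4) := by
      field_simp
    have h3 : 1 / ε ^ 4 ≤ 1 / ε ^ 6 := by
      apply one_div_le_one_div_of_le (by positivity)
      exact pow_le_pow_of_le_one hε0.le hε1 (by norm_num)
    have h4 : 0 ≤ 1 / ε ^ 4 := by positivity
    linarith
  have hfour : 4 / ε ^ 6 = 4 * (1 / ε ^ 6) := by ring
  rw [hfour]
  intro j
  fin_cases j
  · show gr (M3 : Matrix (Fin 3) (Fin 3) ℝ) 0 0 ≤ _
    rw [l00]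
    linarith
  · show gr (M3 : Matrix (Fin 3) (Fin 3) ℝ) 1 1 ≤ _
    linarith
  · show gr (M3 : Matrix (Fin 3) (Fin 3) ℝ) 2 2 ≤ _
    have : (A / 4 + a / A) / a = (A / 4) / a + (a / A) / a := by ring
    rw [this] at l22
    linarith

/-- **Reduction**: a unimodular lattice without short vectors has a short basis. -/
theorem reduction (L : G3) {ε : ℝ} (hε0 : 0 < ε) (hε1 : ε ≤ 1)
    (h : ∀ v : Fin 3 → ℤ, v ≠ 0 → ∃ i, ε ≤ |L i 0 * (v 0 : ℝ) + L i 1 * (v 1 : ℝ) + L i 2 * (v 2 : ℝ)|) :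
    ∃ γ : Z3, len (L * toR γ) ≤ 9 * (1 + Real.log (1 / ε)) := by
  obtain ⟨γ, hγ⟩ := reduction_gram L hε0 hε1 h
  refine ⟨γ, ?_⟩
  have hent : ∀ i j, |((L * toR γ : G3) : Matrix (Fin 3) (Fin 3) ℝ) i j| ≤ 2 / ε ^ 3 := by
    intro i j
    have h1 := (entry_sq_le ((L * toR γ : G3) : Matrix (Fin 3) (Fin 3) ℝ) i j).trans (hγ j)
    apply abs_le_of_sq_le_sq _ (by positivity)
    calc _ ≤ 4 / ε ^ 6 := h1
      _ = (2 / ε ^ 3) ^ 2 := by field_simp; norm_num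
  have hn : nrm ((L * toR γ : G3) : Matrix (Fin 3) (Fin 3) ℝ) ≤ 18 * (1 / ε) ^ 3 := by
    unfold nrm
    calc ∑ i, ∑ j, |((L * toR γ : G3) : Matrix (Fin 3) (Fin 3) ℝ) i j| ≤
        ∑ i : Fin 3, ∑ j : Fin 3, 2 / ε ^ 3 := Finset.sum_le_sum fun i _ => Finset.sum_le_sum fun j _ => hent i j
      _ = 18 * (1 / ε) ^ 3 := by simp; ring
  have h1 := len_le (L * toR γ)
  have h2 : Real.log (nrm ((L * toR γ : G3) : Matrix (Fin 3) (Fin 3) ℝ)) ≤
      Real.log 18 + 3 * Real.log (1 / ε) := by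
    refine (Real.log_le_log (nrm_pos _) hn).trans ?_
    rw [Real.log_mul (by norm_num) (by positivity), Real.log_pow]
    norm_num
  have h3 : Real.log 18 ≤ 3 := by
    rw [Real.log_le_iff_le_exp (by norm_num)]
    have := Real.exp_one_gt_d9
    have e : Real.exp 3 = Real.exp 1 ^ 3 := by rw [← Real.exp_nat_mul]; norm_num
    rw [e]
    have : (2.7 : ℝ) ^ 3 ≤ Real.exp 1 ^ 3 := pow_le_pow_left₀ (by norm_num) (by linarith) 3
    norm_num at this ⊢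
    linarith
  linarith

end Pool.Agent.Lib.MP_c058bc_gt
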