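import Pool.Agent.Lib.MP_c058bc_gt.LimitKernel
import Pool.Agent.Lib.MP_c058bc_gt.KeyIneq

/-!
Scaling limit and contradiction.
-/

set_option autoImplicit false

namespace Pool.Agent.Lib.MP_c058bc_gt

open Matrix Filter

lemma cone_self {Y : Type} {ρ : Y → Y → ℝ} (h : Cone ρ) (p : Y) : ρ p p = 0 := by
  have h1 := cone_nonneg h p p
  have h2 := h _ (FF.ev (-1) p p) (fun e => by
    unfold cutK
    rw [if_pos rfl]
    norm_num)
  linarith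

lemma cone_symm {Y : Type} {ρ : Y → Y → ℝ} (h : Cone ρ) (p q : Y) : ρ p q = ρ q p := by
  have key : ∀ p q : Y, ρ p q ≤ ρ q p := by
    intro p q
    have := h _ (FF.add _ _ (FF.ev 1 q p) (FF.ev (-1) p q)) (fun e => by
      unfold cutK
      by_cases he : e p = e q
      · rw [if_pos he.symm, if_pos he]; norm_num
      · rw [if_neg (fun h => he h.symm), if_neg he]; norm_num)
    linarith
  exact le_antisymm (key p q) (key q p)

lemma cone_triangle {Y : Type} {ρ : Y → Y → ℝ} (h : Cone ρ) (p q r : Y) : ρ p r ≤ ρ p q + ρ q r := by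
  have := h _ (FF.add _ _ (FF.ev (-1) p r) (FF.add _ _ (FF.ev 1 p q) (FF.ev 1 q r))) (fun e => by
    have := cutK_triangle e p q r
    linarith)
  linarith

/-- invariance under left multiplication by one element -/
def Inv (ρ : G3 → G3 → ℝ) (g : G3) : Prop := ∀ p q, ρ (g * p) (g * q) = ρ p q

lemma Inv.mul {ρ : G3 → G3 → ℝ} {g h : G3} (hg : Inv ρ g) (hh : Inv ρ h) : Inv ρ (g * h) := by
  intro p q
  rw [mul_assoc, mul_assoc, hg, hh]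

lemma Inv.inv {ρ : G3 → G3 → ℝ} {g : G3} (hg : Inv ρ g) : Inv ρ g⁻¹ := by
  intro p q
  have := hg (g⁻¹ * p) (g⁻¹ * q)
  rw [mul_inv_cancel_left, mul_inv_cancel_left] at this
  exact this.symm

lemma Inv.one {ρ : G3 → G3 → ℝ} : Inv ρ 1 := by
  intro p q
  rw [one_mul, one_mul]

lemma inv_AA {ρ : G3 → G3 → ℝ} (h1 : Inv ρ (AA 1 0)) (h2 : Inv ρ (AA 0 1)) (a b : ℤ) : Inv ρ (AA a b) := by
  have n1 : ∀ k : ℕ, Inv ρ (AA (k : ℤ) 0) := by
    intro k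
    induction k with
    | zero =>
      have : AA ((0 : ℕ) : ℤ) 0 = 1 := AA_zero
      rw [this]
      exact Inv.one
    | succ k ih =>
      have : AA ((k + 1 : ℕ) : ℤ) 0 = AA (k : ℤ) 0 * AA 1 0 := by
        rw [AA_mul]
        push_cast
        rfl
      rw [this]
      exact ih.mul h1
  have n2 : ∀ k : ℕ, Inv ρ (AA 0 (k : ℤ)) := by
    intro k
    induction k with
    | zero =>
      have : AA 0 ((0 : ℕ) : ℤ) = 1 := AA_zero
      rw [this]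
      exact Inv.one
    | succ k ih =>
      have : AA 0 ((k + 1 : ℕ) : ℤ) = AA 0 (k : ℤ) * AA 0 1 := by
        rw [AA_mul]
        push_cast
        rfl
      rw [this]
      exact ih.mul h2
  have z1 : Inv ρ (AA a 0) := by
    obtain ⟨k, rfl | rfl⟩ := a.eq_nat_or_neg
    · exact n1 k
    · have : AA (-(k : ℤ)) 0 = (AA (k : ℤ) 0)⁻¹ := by rw [AA_inv, neg_zero]
      rw [this]
      exact (n1 k).inv
  have z2 : Inv ρ (AA 0 b) := by
    obtain ⟨k, rfl | rfl⟩ := b.eq_nat_or_neg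
    · exact n2 k
    · have : AA 0 (-(k : ℤ)) = (AA 0 (k : ℤ))⁻¹ := by rw [AA_inv, neg_zero]
      rw [this]
      exact (n2 k).inv
  have : AA a b = AA a 0 * AA 0 b := by rw [AA_mul, add_zero, zero_add]
  rw [this]
  exact z1.mul z2

lemma zpow_two_le (a : ℤ) : (2 : ℝ) ^ a ≤ 2 ^ a.natAbs := by
  rw [← zpow_natCast]
  exact zpow_le_zpow_right₀ (by norm_num) (by omega)

lemma len_AA (a b : ℤ) : len (AA a b) ≤ 4 + 2 * (|(a : ℝ)| + |(b : ℝ)|) := by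
  have hn : ∀ a b : ℤ, nrm ((AA a b : G3) : Matrix (Fin 3) (Fin 3) ℝ) ≤ 3 * 2 ^ (a.natAbs + b.natAbs) := by
    intro a b
    unfold nrm
    simp only [AA]
    simp [Fin.sum_univ_three]
    have h1 := zpow_two_le a
    have h2 := zpow_two_le b
    have h3 := zpow_two_le (-a - b)
    have h4 : (2 : ℝ) ^ a.natAbs ≤ 2 ^ (a.natAbs + b.natAbs) := pow_le_pow_right₀ (by norm_num) (by omega)
    have h5 : (2 : ℝ) ^ b.natAbs ≤ 2 ^ (a.natAbs + b.natAbs) := pow_le_pow_right₀ (by norm_num) (by omega)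
    have h6 : (2 : ℝ) ^ (-a - b).natAbs ≤ 2 ^ (a.natAbs + b.natAbs) :=
      pow_le_pow_right₀ (by norm_num) (by omega)
    linarith
  have hl : ∀ a b : ℤ, Real.log (nrm ((AA a b : G3) : Matrix (Fin 3) (Fin 3) ℝ)) ≤
      2 + (|(a : ℝ)| + |(b : ℝ)|) := by
    intro a b
    refine (Real.log_le_log (nrm_pos _) (hn a b)).trans ?_
    rw [Real.log_mul (by norm_num) (by positivity), Real.log_pow]
    have h1 : Real.log 3 ≤ 2 := by
      rw [Real.log_le_iff_le_exp (by norm_num)]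
      have := Real.add_one_le_exp (2 : ℝ)
      linarith
    have h2 := Real.log_two_lt_d9
    have h3 : ((a.natAbs + b.natAbs : ℕ) : ℝ) = |(a : ℝ)| + |(b : ℝ)| := by
      push_cast
      simp only [Nat.cast_natAbs, Int.cast_abs]
    rw [h3]
    have h4 : 0 ≤ |(a : ℝ)| + |(b : ℝ)| := by positivity
    have h5 := Real.log_two_gt_d9
    nlinarith
  unfold len
  rw [AA_inv]
  have h1 := hl a b
  have h2 := hl (-a) (-b)
  push_cast at h2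
  rw [abs_neg, abs_neg] at h2
  linarith

lemma len_UU_le (x y z : ℝ) (h : |x| + |y| + |z| ≤ 8) : len (UU x y z) ≤ 9 := by
  refine (len_le _).trans ?_
  have hn : nrm ((UU x y z : G3) : Matrix (Fin 3) (Fin 3) ℝ) ≤ 11 := by
    unfold nrm
    simp only [UU]
    simp [Fin.sum_univ_three]
    linarith
  have h1 : Real.log (nrm ((UU x y z : G3) : Matrix (Fin 3) (Fin 3) ℝ)) ≤ 3 := by
    refine (Real.log_le_log (nrm_pos _) hn).trans ?_
    rw [Real.log_le_iff_le_exp (by norm_num)]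
    have := Real.exp_one_gt_d9
    have e : Real.exp 3 = Real.exp 1 ^ 3 := by rw [← Real.exp_nat_mul]; norm_num
    rw [e]
    have : (2.7 : ℝ) ^ 3 ≤ Real.exp 1 ^ 3 := pow_le_pow_left₀ (by norm_num) (by linarith) 3
    norm_num at this ⊢
    linarith
  linarith

/-- data for the scaling limit -/
structure LimK (ρ : G3 → G3 → ℝ) (c C : ℝ) : Prop where
  cone : Cone ρ
  cpos : 0 < c
  Cnn : 0 ≤ C
  upper : ∀ p q, Spec p → Spec q → ρ p q ≤ C * (1 + len (p⁻¹ * q))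
  lower : ∀ p q, Spec p → Spec q → c * len (p⁻¹ * q) - C ≤ ρ p q
  invX : ∀ n : ℕ, Inv ρ (UU (2 ^ n) 0 0)
  invY : ∀ n : ℕ, Inv ρ (UU 0 (2 ^ n) 0)
  invA : ∀ a b : ℤ, Inv ρ (AA a b)

lemma spec_UA (x y z : ℝ) (a b : ℤ) : Spec (UU x y z * AA a b) := ⟨x, y, z, a, b, rfl⟩

lemma spec_A (a b : ℤ) : Spec (AA a b) := ⟨0, 0, 0, a, b, by rw [UU_zero, one_mul]⟩

section

variable {ρ : G3 → G3 → ℝ} {c C : ℝ}

/-- the kernel along the diagonal group -/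
noncomputable def psi (ρ : G3 → G3 → ℝ) (a b : ℤ) : ℝ := ρ 1 (AA a b)

lemma rho_AA (h : LimK ρ c C) (a b a' b' : ℤ) : ρ (AA a b) (AA a' b') = psi ρ (a' - a) (b' - b) := by
  have := h.invA (-a) (-b) (AA a b) (AA a' b')
  rw [AA_mul, AA_mul] at this
  rw [← this]
  unfold psi
  have e1 : AA (-a + a) (-b + b) = 1 := by
    rw [neg_add_cancel, neg_add_cancel, AA_zero]
  rw [e1]
  congr 2 <;> ring

lemma psi_nonneg (h : LimK ρ c C) (a b : ℤ) : 0 ≤ psi ρ a b := cone_nonneg h.cone _ _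

lemma psi_le (h : LimK ρ c C) (a b : ℤ) : psi ρ a b ≤ C * (5 + 2 * (|(a : ℝ)| + |(b : ℝ)|)) := by
  unfold psi
  have h1 := h.upper 1 (AA a b) (by rw [← AA_zero]; exact spec_A 0 0) (spec_A a b)
  rw [inv_one, one_mul] at h1
  refine h1.trans (mul_le_mul_of_nonneg_left ?_ h.Cnn)
  linarith [len_AA a b]

lemma psi_sub_le (h : LimK ρ c C) (a b a' b' : ℤ) :
    |psi ρ a b - psi ρ a' b'| ≤ C * (5 + 2 * (|((a : ℝ) - a')| + |((b : ℝ) - b')|)) := by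
  have h1 : psi ρ a b ≤ psi ρ a' b' + psi ρ (a - a') (b - b') := by
    have := cone_triangle h.cone 1 (AA a' b') (AA a b)
    rw [rho_AA h] at this
    exact this
  have h2 : psi ρ a' b' ≤ psi ρ a b + psi ρ (a' - a) (b' - b) := by
    have := cone_triangle h.cone 1 (AA a b) (AA a' b')
    rw [rho_AA h] at this
    exact this
  have h3 := psi_le h (a - a') (b - b')
  have h4 := psi_le h (a' - a) (b' - b)
  push_cast at h3 h4
  rw [abs_sub_comm (a' : ℝ) a, abs_sub_comm (b' : ℝ) b] at h4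
  rw [abs_le]
  constructor <;> linarith

lemma exists_norm (h : LimK ρ c C) (x : PP2) :
    ∃ L : ℝ, Tendsto (fun n : ℕ => psi ρ ⌊(n : ℝ) * x.1⌋ ⌊(n : ℝ) * x.2⌋ / n) atTop (nhds L) := by
  set K := C * 9 with hK
  have hK0 : 0 ≤ K := mul_nonneg h.Cnn (by norm_num)
  have hsub : Subadditive (fun n : ℕ => psi ρ ⌊(n : ℝ) * x.1⌋ ⌊(n : ℝ) * x.2⌋ + K) := by
    intro m n
    have t1 := cone_triangle h.cone 1 (AA ⌊(m : ℝ) * x.1⌋ ⌊(m : ℝ) * x.2⌋)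
      (AA ⌊((m + n : ℕ) : ℝ) * x.1⌋ ⌊((m + n : ℕ) : ℝ) * x.2⌋)
    rw [rho_AA h] at t1
    have t2 := psi_sub_le h (⌊((m + n : ℕ) : ℝ) * x.1⌋ - ⌊(m : ℝ) * x.1⌋)
      (⌊((m + n : ℕ) : ℝ) * x.2⌋ - ⌊(m : ℝ) * x.2⌋) ⌊(n : ℝ) * x.1⌋ ⌊(n : ℝ) * x.2⌋
    have fl : ∀ y : ℝ, |((⌊((m + n : ℕ) : ℝ) * y⌋ - ⌊(m : ℝ) * y⌋ : ℤ) : ℝ) - (⌊(n : ℝ) * y⌋ : ℝ)| ≤ 1 := by
      intro y
      push_cast
      have e : ((m : ℝ) + n) * y = m * y + n * y := by ring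
      rw [e]
      have a1 := Int.le_floor_add (m * y) ((n : ℝ) * y)
      have a2 := Int.le_floor_add_floor (m * y) ((n : ℝ) * y)
      have a1' : ((⌊(m : ℝ) * y⌋ + ⌊(n : ℝ) * y⌋ : ℤ) : ℝ) ≤ (⌊(m : ℝ) * y + n * y⌋ : ℝ) := by exact_mod_cast a1
      have a2' : ((⌊(m : ℝ) * y + n * y⌋ - 1 : ℤ) : ℝ) ≤ ((⌊(m : ℝ) * y⌋ + ⌊(n : ℝ) * y⌋ : ℤ) : ℝ) := by
        exact_mod_cast a2
      push_cast at a1' a2'
      rw [abs_le]
      constructor <;> linarith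
    have f1 := fl x.1
    have f2 := fl x.2
    have t3 : C * (5 + 2 * (|((⌊((m + n : ℕ) : ℝ) * x.1⌋ - ⌊(m : ℝ) * x.1⌋ : ℤ) : ℝ) - (⌊(n : ℝ) * x.1⌋ : ℝ)| +
      |((⌊((m + n : ℕ) : ℝ) * x.2⌋ - ⌊(m : ℝ) * x.2⌋ : ℤ) : ℝ) - (⌊(n : ℝ) * x.2⌋ : ℝ)|)) ≤ K := by
      rw [hK]
      exact mul_le_mul_of_nonneg_left (by linarith) h.Cnn
    have t4 := (abs_le.mp (t2.trans t3)).2
    have t5 : ρ 1 (AA ⌊(m : ℝ) * x.1⌋ ⌊(m : ℝ) * x.2⌋) = psi ρ ⌊(m : ℝ) * x.1⌋ ⌊(m : ℝ) * x.2⌋ := rfl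
    have t6 : ρ 1 (AA ⌊((m + n : ℕ) : ℝ) * x.1⌋ ⌊((m + n : ℕ) : ℝ) * x.2⌋) =
      psi ρ ⌊((m + n : ℕ) : ℝ) * x.1⌋ ⌊((m + n : ℕ) : ℝ) * x.2⌋ := rfl
    rw [t5, t6] at t1
    show psi ρ ⌊((m + n : ℕ) : ℝ) * x.1⌋ ⌊((m + n : ℕ) : ℝ) * x.2⌋ + K ≤
      (psi ρ ⌊(m : ℝ) * x.1⌋ ⌊(m : ℝ) * x.2⌋ + K) + (psi ρ ⌊(n : ℝ) * x.1⌋ ⌊(n : ℝ) * x.2⌋ + K)
    linarith
  have hbdd : BddBelow (Set.range fun n : ℕ =>
      (psi ρ ⌊(n : ℝ) * x.1⌋ ⌊(n : ℝ) * x.2⌋ + K) / n) := by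
    refine ⟨0, ?_⟩
    rintro _ ⟨n, rfl⟩
    have := psi_nonneg h ⌊(n : ℝ) * x.1⌋ ⌊(n : ℝ) * x.2⌋
    show 0 ≤ (psi ρ ⌊(n : ℝ) * x.1⌋ ⌊(n : ℝ) * x.2⌋ + K) / n
    positivity
  have hlim := hsub.tendsto_lim hbdd
  have hK' : Tendsto (fun n : ℕ => K / (n : ℝ)) atTop (nhds 0) := tendsto_const_div_atTop_nhds_zero_nat K
  refine ⟨hsub.lim, ?_⟩
  have := hlim.sub hK'
  rw [sub_zero] at this
  refine this.congr fun n => ?_
  rw [add_div]
  ring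

/-- the asymptotic norm -/
noncomputable def NN (h : LimK ρ c C) (x : PP2) : ℝ := (exists_norm h x).choose

lemma NN_spec (h : LimK ρ c C) (x : PP2) :
    Tendsto (fun n : ℕ => psi ρ ⌊(n : ℝ) * x.1⌋ ⌊(n : ℝ) * x.2⌋ / n) atTop (nhds (NN h x)) :=
  (exists_norm h x).choose_spec

lemma NN_near (h : LimK ρ c C) (x : PP2) (k l : ℕ → ℤ) (R : ℝ)
    (hk : ∀ n : ℕ, |(k n : ℝ) - n * x.1| ≤ R) (hl : ∀ n : ℕ, |(l n : ℝ) - n * x.2| ≤ R) :
    Tendsto (fun n : ℕ => psi ρ (k n) (l n) / n) atTop (nhds (NN h x)) := by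
  have h1 := NN_spec h x
  have h2 : Tendsto (fun n : ℕ => (psi ρ (k n) (l n) - psi ρ ⌊(n : ℝ) * x.1⌋ ⌊(n : ℝ) * x.2⌋) / n)
      atTop (nhds 0) := by
    have hR : Tendsto (fun n : ℕ => (C * (5 + 2 * ((R + 1) + (R + 1)))) / (n : ℝ)) atTop (nhds 0) :=
      tendsto_const_div_atTop_nhds_zero_nat _
    refine squeeze_zero_norm (fun n => ?_) hR
    rw [Real.norm_eq_abs, abs_div, Nat.abs_cast]
    refine div_le_div_of_nonneg_right ?_ (Nat.cast_nonneg n)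
    refine (psi_sub_le h _ _ _ _).trans (mul_le_mul_of_nonneg_left ?_ h.Cnn)
    have fl : ∀ (m : ℤ) (y : ℝ), |(m : ℝ) - y| ≤ R → |(m : ℝ) - (⌊y⌋ : ℝ)| ≤ R + 1 := by
      intro m y hm
      have a1 := Int.floor_le y
      have a2 := Int.lt_floor_add_one y
      rw [abs_le] at hm ⊢
      constructor <;> linarith [hm.1, hm.2]
    have f1 := fl _ _ (hk n)
    have f2 := fl _ _ (hl n)
    linarith
  have h3 := h1.add h2
  rw [add_zero] at h3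
  refine h3.congr fun n => ?_
  rw [← add_div]
  congr 1
  ring

lemma NN_smul (h : LimK ρ c C) (x : PP2) (t : ℝ) (ht : 0 ≤ t) :
    NN h (t * x.1, t * x.2) = t * NN h x := by
  rcases ht.eq_or_lt with h0 | hpos
  · subst h0
    have h1 := NN_spec h (0 * x.1, 0 * x.2)
    have h2 : ∀ n : ℕ, psi ρ ⌊(n : ℝ) * (0 * x.1)⌋ ⌊(n : ℝ) * (0 * x.2)⌋ / n = 0 := by
      intro n
      simp only [zero_mul, mul_zero, Int.floor_zero]
      unfold psi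
      rw [AA_zero, cone_self h.cone, zero_div]
    have h3 : Tendsto (fun _ : ℕ => (0 : ℝ)) atTop (nhds (NN h (0 * x.1, 0 * x.2))) :=
      h1.congr h2
    have := tendsto_nhds_unique h3 tendsto_const_nhds
    rw [this, zero_mul]
  · -- m n = floor (t n)
    have hm : Tendsto (fun n : ℕ => ⌊t * (n : ℝ)⌋₊) atTop atTop := by
      apply tendsto_nat_floor_atTop.comp
      exact Tendsto.const_mul_atTop hpos tendsto_natCast_atTop_atTop
    have hratio : Tendsto (fun n : ℕ => (⌊t * (n : ℝ)⌋₊ : ℝ) / n) atTop (nhds t) :=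
      (tendsto_nat_floor_mul_div_atTop ht).comp tendsto_natCast_atTop_atTop
    have h1 := (NN_spec h x).comp hm
    have h2 := h1.mul hratio
    have hfl : ∀ n : ℕ, |((⌊t * (n : ℝ)⌋₊ : ℕ) : ℝ) - t * n| ≤ 1 := by
      intro n
      have a1 := Nat.floor_le (show 0 ≤ t * (n : ℝ) by positivity)
      have a2 := Nat.lt_floor_add_one (t * (n : ℝ))
      rw [abs_le]
      constructor <;> linarith
    have near : ∀ y : ℝ, ∀ n : ℕ, |((⌊((⌊t * (n : ℝ)⌋₊ : ℕ) : ℝ) * y⌋ : ℤ) : ℝ) - n * (t * y)| ≤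
        1 + |y| := by
      intro y n
      have a1 := Int.floor_le (((⌊t * (n : ℝ)⌋₊ : ℕ) : ℝ) * y)
      have a2 := Int.lt_floor_add_one (((⌊t * (n : ℝ)⌋₊ : ℕ) : ℝ) * y)
      have a3 : |((⌊t * (n : ℝ)⌋₊ : ℕ) : ℝ) * y - n * (t * y)| ≤ |y| := by
        have e : ((⌊t * (n : ℝ)⌋₊ : ℕ) : ℝ) * y - n * (t * y) = (((⌊t * (n : ℝ)⌋₊ : ℕ) : ℝ) - t * n) * y := by
          ring
        rw [e, abs_mul]
        have := mul_le_mul_of_nonneg_right (hfl n) (abs_nonneg y)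
        linarith
      rw [abs_le] at a3 ⊢
      constructor <;> linarith [a3.1, a3.2]
    have h3 := NN_near h (t * x.1, t * x.2) (fun n => ⌊((⌊t * (n : ℝ)⌋₊ : ℕ) : ℝ) * x.1⌋)
      (fun n => ⌊((⌊t * (n : ℝ)⌋₊ : ℕ) : ℝ) * x.2⌋) (1 + |x.1| + |x.2|)
      (fun n => (near x.1 n).trans (by linarith [abs_nonneg x.2]))
      (fun n => (near x.2 n).trans (by linarith [abs_nonneg x.1]))
    have h4 : Tendsto (fun n : ℕ => psi ρ ⌊((⌊t * (n : ℝ)⌋₊ : ℕ) : ℝ) * x.1⌋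
        ⌊((⌊t * (n : ℝ)⌋₊ : ℕ) : ℝ) * x.2⌋ / n) atTop (nhds (NN h x * t)) := by
      refine h2.congr' ?_
      filter_upwards [hm.eventually_ge_atTop 1] with n hn
      have hne : ((⌊t * (n : ℝ)⌋₊ : ℕ) : ℝ) ≠ 0 := by
        have : (1 : ℝ) ≤ ((⌊t * (n : ℝ)⌋₊ : ℕ) : ℝ) := by exact_mod_cast hn
        linarith
      simp only [Function.comp]
      field_simp
    have := tendsto_nhds_unique h3 h4
    rw [this, mul_comm]

end

end Pool.Agent.Lib.MP_c058bc_gt
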