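import Pool.Agent.Lib.MP_c058bc_gt.Reduction
import Pool.Agent.Lib.MP_c058bc_gt.Count

/-!
Upper triangular matrices, the thickness function `tau`, and its average along unipotent orbits.
-/

set_option autoImplicit false

namespace Pool.Agent.Lib.MP_c058bc_gt

open Matrix

/-- upper triangular unipotent matrices -/
noncomputable def UU (x y z : ℝ) : G3 := ⟨!![1, x, z; 0, 1, y; 0, 0, 1], by simp [Matrix.det_fin_three]⟩

/-- diagonal matrices with entries powers of two -/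
noncomputable def AA (a b : ℤ) : G3 :=
  ⟨!![(2 : ℝ) ^ a, 0, 0; 0, (2 : ℝ) ^ b, 0; 0, 0, (2 : ℝ) ^ (-a - b)], by
    simp [Matrix.det_fin_three]
    rw [← zpow_add₀ (by norm_num), ← zpow_add₀ (by norm_num)]
    have : a + b + (-a - b) = 0 := by ring
    rw [this, zpow_zero]⟩

lemma UU_mul (x y z x' y' z' : ℝ) : UU x y z * UU x' y' z' = UU (x + x') (y + y') (z + z' + x * y') := by
  apply Subtype.ext
  simp only [Matrix.SpecialLinearGroup.coe_mul]
  simp only [UU]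
  ext i j
  fin_cases i <;> fin_cases j <;>
    simp [Matrix.mul_apply, Fin.sum_univ_three] <;> ring

lemma UU_zero : UU 0 0 0 = 1 := by
  apply Subtype.ext
  simp only [UU]
  ext i j
  fin_cases i <;> fin_cases j <;> simp

lemma UU_inv (x y z : ℝ) : (UU x y z)⁻¹ = UU (-x) (-y) (x * y - z) := by
  rw [inv_eq_iff_mul_eq_one, UU_mul]
  have e1 : x + -x = 0 := by ring
  have e2 : y + -y = 0 := by ring
  have e3 : z + (x * y - z) + x * -y = 0 := by ring
  rw [e1, e2, e3, UU_zero]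

lemma AA_mul (a b a' b' : ℤ) : AA a b * AA a' b' = AA (a + a') (b + b') := by
  apply Subtype.ext
  simp only [Matrix.SpecialLinearGroup.coe_mul]
  simp only [AA]
  have h2 : (2 : ℝ) ≠ 0 := by norm_num
  have e : (-(a + a') - (b + b') : ℤ) = (-a - b) + (-a' - b') := by ring
  rw [e]
  ext i j
  fin_cases i <;> fin_cases j <;>
    simp [Matrix.mul_apply, Fin.sum_univ_three, zpow_add₀ h2]

lemma AA_zero : AA 0 0 = 1 := by
  apply Subtype.ext
  simp only [AA]
  ext i j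
  fin_cases i <;> fin_cases j <;> simp

lemma AA_inv (a b : ℤ) : (AA a b)⁻¹ = AA (-a) (-b) := by
  rw [inv_eq_iff_mul_eq_one, AA_mul]
  have e1 : a + -a = 0 := by ring
  have e2 : b + -b = 0 := by ring
  rw [e1, e2, AA_zero]

lemma AA_UU (a b : ℤ) (x y z : ℝ) :
    AA a b * UU x y z = UU (2 ^ (a - b) * x) (2 ^ (a + 2 * b) * y) (2 ^ (2 * a + b) * z) * AA a b := by
  apply Subtype.ext
  simp only [Matrix.SpecialLinearGroup.coe_mul]
  simp only [AA, UU]
  have h2 : (2 : ℝ) ≠ 0 := by norm_num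
  have e1 : (2 : ℝ) ^ a = 2 ^ (a - b) * 2 ^ b := by
    rw [← zpow_add₀ h2]; congr 1; ring
  have e2 : (2 : ℝ) ^ b = 2 ^ (a + 2 * b) * 2 ^ (-a - b) := by
    rw [← zpow_add₀ h2]; congr 1; ring
  have e3 : (2 : ℝ) ^ a = 2 ^ (2 * a + b) * 2 ^ (-a - b) := by
    rw [← zpow_add₀ h2]; congr 1; ring
  ext i j
  fin_cases i <;> fin_cases j <;>
    simp [Matrix.mul_apply, Fin.sum_univ_three]
  · rw [e1]; ring
  · rw [e3]; ring
  · rw [e2]; ring

/-- the action of the inverse matrix on an integer vector -/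
noncomputable def act (g : G3) (v : Fin 3 → ℤ) (i : Fin 3) : ℝ :=
  (g⁻¹ : G3) i 0 * (v 0 : ℝ) + (g⁻¹ : G3) i 1 * (v 1 : ℝ) + (g⁻¹ : G3) i 2 * (v 2 : ℝ)

lemma act_mul (g h : G3) (v : Fin 3 → ℤ) (i : Fin 3) :
    act (g * h) v i = (h⁻¹ : G3) i 0 * act g v 0 + (h⁻¹ : G3) i 1 * act g v 1 + (h⁻¹ : G3) i 2 * act g v 2 := by
  unfold act
  have : (g * h)⁻¹ = h⁻¹ * g⁻¹ := _root_.mul_inv_rev g h
  rw [this]
  have e : ∀ i j, ((h⁻¹ * g⁻¹ : G3) : Matrix (Fin 3) (Fin 3) ℝ) i j =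
      (h⁻¹ : G3) i 0 * (g⁻¹ : G3) 0 j + (h⁻¹ : G3) i 1 * (g⁻¹ : G3) 1 j + (h⁻¹ : G3) i 2 * (g⁻¹ : G3) 2 j := by
    intro i j
    rw [Matrix.SpecialLinearGroup.coe_mul, Matrix.mul_apply, Fin.sum_univ_three]
  rw [e, e, e]
  ring

/-- all nonzero vectors have size at least `2^{-j}` -/
def Thick (g : G3) (j : ℕ) : Prop := ∀ v : Fin 3 → ℤ, v ≠ 0 → ∃ i, ((1 / 2 : ℝ)) ^ j ≤ |act g v i|

lemma exists_abs_ge_one (v : Fin 3 → ℤ) (hv : v ≠ 0) : ∃ i, (1 : ℝ) ≤ |(v i : ℝ)| := by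
  obtain ⟨i, hi⟩ := Function.ne_iff.mp hv
  refine ⟨i, ?_⟩
  have : (1 : ℤ) ≤ |v i| := Int.one_le_abs hi
  have h' : ((1 : ℤ) : ℝ) ≤ ((|v i| : ℤ) : ℝ) := by exact_mod_cast this
  push_cast at h'
  exact h'

lemma act_one (v : Fin 3 → ℤ) (i : Fin 3) : act 1 v i = v i := by
  unfold act
  rw [inv_one]
  fin_cases i <;> simp

lemma thick_one : Thick 1 0 := by
  intro v hv
  obtain ⟨i, hi⟩ := exists_abs_ge_one v hv
  refine ⟨i, ?_⟩
  rw [act_one]
  simpa using hi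

/-- thickness changes in a controlled way under right multiplication -/
lemma thick_mul {g : G3} {j : ℕ} (h : Thick g j) (p : G3) {k : ℕ}
    (hk : nrm (p : Matrix (Fin 3) (Fin 3) ℝ) ≤ 2 ^ k) : Thick (g * p) (j + k) := by
  intro v hv
  obtain ⟨i, hi⟩ := h v hv
  by_contra hcon
  push Not at hcon
  have e : act g v i = act (g * p * p⁻¹) v i := by rw [mul_inv_cancel_right]
  rw [act_mul, inv_inv] at e
  rw [e] at hi
  have hp := nrm_pos p
  -- row sum bound
  have hrow : |(p : Matrix (Fin 3) (Fin 3) ℝ) i 0| + |(p : Matrix (Fin 3) (Fin 3) ℝ) i 1| +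
      |(p : Matrix (Fin 3) (Fin 3) ℝ) i 2| ≤ nrm (p : Matrix (Fin 3) (Fin 3) ℝ) := by
    unfold nrm
    have := Finset.single_le_sum (f := fun i => ∑ j, |(p : Matrix (Fin 3) (Fin 3) ℝ) i j|)
      (fun _ _ => Finset.sum_nonneg fun _ _ => abs_nonneg _) (Finset.mem_univ i)
    simp only [Fin.sum_univ_three] at this ⊢
    linarith
  set q := (1 / 2 : ℝ) ^ (j + k) with hq
  have hqpos : 0 < q := by positivity
  have t := abs_add_three ((p : Matrix (Fin 3) (Fin 3) ℝ) i 0 * act (g * p) v 0)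
    ((p : Matrix (Fin 3) (Fin 3) ℝ) i 1 * act (g * p) v 1) ((p : Matrix (Fin 3) (Fin 3) ℝ) i 2 * act (g * p) v 2)
  rw [abs_mul, abs_mul, abs_mul] at t
  have b0 := mul_le_mul_of_nonneg_left (hcon 0).le (abs_nonneg ((p : Matrix (Fin 3) (Fin 3) ℝ) i 0))
  have b1 := mul_le_mul_of_nonneg_left (hcon 1).le (abs_nonneg ((p : Matrix (Fin 3) (Fin 3) ℝ) i 1))
  have b2 := mul_le_mul_of_nonneg_left (hcon 2).le (abs_nonneg ((p : Matrix (Fin 3) (Fin 3) ℝ) i 2))
  -- strictness: some entry of the row is nonzero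
  have hle : (1 / 2 : ℝ) ^ j ≤ (|(p : Matrix (Fin 3) (Fin 3) ℝ) i 0| + |(p : Matrix (Fin 3) (Fin 3) ℝ) i 1| +
      |(p : Matrix (Fin 3) (Fin 3) ℝ) i 2|) * q := by linarith
  have hpow : (1 / 2 : ℝ) ^ j = 2 ^ k * q := by
    rw [hq, pow_add]
    have : (1 / 2 : ℝ) ^ k * 2 ^ k = 1 := by
      rw [← mul_pow]
      norm_num
    calc (1 / 2 : ℝ) ^ j = (1 / 2 : ℝ) ^ j * ((1 / 2 : ℝ) ^ k * 2 ^ k) := by rw [this, mul_one]
      _ = 2 ^ k * ((1 / 2 : ℝ) ^ j * (1 / 2 : ℝ) ^ k) := by ring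
  -- equality case must be excluded using strict inequality
  rcases eq_or_ne ((p : Matrix (Fin 3) (Fin 3) ℝ) i 0) 0 with z0 | z0
  · rcases eq_or_ne ((p : Matrix (Fin 3) (Fin 3) ℝ) i 1) 0 with z1 | z1
    · rcases eq_or_ne ((p : Matrix (Fin 3) (Fin 3) ℝ) i 2) 0 with z2 | z2
      · rw [z0, z1, z2] at hi
        simp at hi
        have : (0 : ℝ) < 2 ^ j := by positivity
        linarith
      · have := mul_lt_mul_of_pos_left (hcon 2) (abs_pos.mpr z2)
        nlinarith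
    · have := mul_lt_mul_of_pos_left (hcon 1) (abs_pos.mpr z1)
      nlinarith
  · have := mul_lt_mul_of_pos_left (hcon 0) (abs_pos.mpr z0)
    nlinarith

lemma exists_thick (g : G3) : ∃ j, Thick g j := by
  obtain ⟨k, hk⟩ := pow_unbounded_of_one_lt (nrm (g : Matrix (Fin 3) (Fin 3) ℝ)) (show (1 : ℝ) < 2 by norm_num)
  have := thick_mul thick_one g hk.le
  rw [one_mul] at this
  exact ⟨_, this⟩

open scoped Classical in
/-- the thickness function: logarithm of the inverse of the systole -/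
noncomputable def tau (g : G3) : ℕ := Nat.find (exists_thick g)

open scoped Classical in
lemma tau_spec (g : G3) : Thick g (tau g) := Nat.find_spec (exists_thick g)

open scoped Classical in
lemma tau_le {g : G3} {j : ℕ} (h : Thick g j) : tau g ≤ j := Nat.find_min' (exists_thick g) h

open scoped Classical in
lemma not_thick_of_lt {g : G3} {j : ℕ} (h : j < tau g) : ¬ Thick g j := Nat.find_min (exists_thick g) h

lemma tau_mul_le (g p : G3) {k : ℕ} (hk : nrm (p : Matrix (Fin 3) (Fin 3) ℝ) ≤ 2 ^ k) :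
    tau (g * p) ≤ tau g + k := tau_le (thick_mul (tau_spec g) p hk)

lemma exists_gam (g : G3) : ∃ γ : Z3, len (g⁻¹ * toR γ) ≤ 9 * (1 + tau g) := by
  have h := tau_spec g
  obtain ⟨γ, hγ⟩ := reduction g⁻¹ (ε := (1 / 2 : ℝ) ^ tau g) (by positivity)
    (pow_le_one₀ (by norm_num) (by norm_num)) (fun v hv => h v hv)
  refine ⟨γ, hγ.trans ?_⟩
  have e : Real.log (1 / (1 / 2 : ℝ) ^ tau g) ≤ tau g := by
    rw [one_div, one_div, inv_pow, inv_inv, Real.log_pow]
    have := Real.log_two_lt_d9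
    have h0 : (0 : ℝ) ≤ tau g := Nat.cast_nonneg _
    nlinarith
  linarith

/-- a nearby integer matrix -/
noncomputable def gam (g : G3) : Z3 := (exists_gam g).choose

lemma gam_spec (g : G3) : len (g⁻¹ * toR (gam g)) ≤ 9 * (1 + tau g) := (exists_gam g).choose_spec

lemma act_UA (x y z : ℝ) (a b : ℤ) (v : Fin 3 → ℤ) :
    act (UU x y z * AA a b) v 0 = 2 ^ (-a) * (v 0 - x * v 1 + (x * y - z) * v 2) ∧
    act (UU x y z * AA a b) v 1 = 2 ^ (-b) * (v 1 - y * v 2) ∧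
    act (UU x y z * AA a b) v 2 = 2 ^ (a + b) * v 2 := by
  have hU : act (UU x y z) v 0 = (v 0 - x * v 1 + (x * y - z) * v 2) ∧
      act (UU x y z) v 1 = (v 1 - y * v 2) ∧ act (UU x y z) v 2 = v 2 := by
    unfold act
    rw [UU_inv]
    simp only [UU]
    simp
    constructor <;> ring
  rw [act_mul, act_mul, act_mul, AA_inv, hU.1, hU.2.1, hU.2.2]
  simp only [AA]
  simp

lemma two_zpow_ge_half_pow (c : ℤ) (j : ℕ) (h : -(j : ℤ) ≤ c) : (1 / 2 : ℝ) ^ j ≤ 2 ^ c := by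
  have : (1 / 2 : ℝ) ^ j = 2 ^ (-(j : ℤ)) := by
    rw [_root_.zpow_neg, zpow_natCast]
    simp
  rw [this]
  exact zpow_le_zpow_right₀ (by norm_num) h

/-- a uniform bound for `tau` along unipotent orbits -/
lemma tau_UA_le (x y z : ℝ) (a b : ℤ) : tau (UU x y z * AA a b) ≤ a.natAbs + b.natAbs := by
  apply tau_le
  intro v hv
  obtain ⟨h0, h1, h2⟩ := act_UA x y z a b v
  have one_le : ∀ w : ℤ, w ≠ 0 → (1 : ℝ) ≤ |(w : ℝ)| := by
    intro w hw
    have : (1 : ℤ) ≤ |w| := Int.one_le_abs hw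
    have h' : ((1 : ℤ) : ℝ) ≤ ((|w| : ℤ) : ℝ) := by exact_mod_cast this
    push_cast at h'
    exact h'
  have gen : ∀ (c : ℤ) (w : ℝ), -((a.natAbs + b.natAbs : ℕ) : ℤ) ≤ c → 1 ≤ |w| →
      (1 / 2 : ℝ) ^ (a.natAbs + b.natAbs) ≤ |2 ^ c * w| := by
    intro c w hc hw
    rw [abs_mul, abs_of_pos (by positivity : (0 : ℝ) < 2 ^ c)]
    have := two_zpow_ge_half_pow c _ hc
    have hp : (0 : ℝ) < 2 ^ c := by positivity
    nlinarith
  by_cases c2 : v 2 = 0
  · by_cases c1 : v 1 = 0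
    · have c0 : v 0 ≠ 0 := by
        intro c0
        apply hv
        funext i
        fin_cases i
        · exact c0
        · exact c1
        · exact c2
      refine ⟨0, ?_⟩
      rw [h0, c1, c2]
      refine gen _ _ (by omega) ?_
      have := one_le _ c0
      simpa using this
    · refine ⟨1, ?_⟩
      rw [h1, c2]
      refine gen _ _ (by omega) ?_
      have := one_le _ c1
      simpa using this
  · refine ⟨2, ?_⟩
    rw [h2]
    exact gen _ _ (by omega) (one_le _ c2)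

end Pool.Agent.Lib.MP_c058bc_gt
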